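import Pool.Agent.MP_0e6a9f_ag.H32.BunSpec

/-! The symmetric algebra of the bundle over the ladder. -/

set_option autoImplicit false
set_option linter.unusedSectionVars false

open FMD FMD.DG MvPolynomial

noncomputable section
namespace FMX

variable {K G R : Type} [Field K] [AddCommGroup G] [CommRing R] [Algebra K R] [CharP K 2]
  {A : G → Submodule K R} [SetLike.GradedMonoid A]

omit [CharP K 2] in
lemma PLAt.of_inj {R' : Type} [CommRing R'] [Algebra K R'] (φ : R →ₐ[K] R')
    (inj : Function.Injective φ) {y : R} (surj : ∀ v, ∃ (k : ℕ) (r : R), v * φ y ^ k = φ r)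
    (h : PLAt K (φ y)) : PLAt K y := by
  obtain ⟨T, _, _, ψ, τ, _, f, h1, h2, h3, h4, h5⟩ := h
  refine ⟨T, _, _, ψ.comp φ, τ, ‹_›, f, h1.comp inj, h2, fun t => ?_, h4, h5⟩
  obtain ⟨k, v, e⟩ := h3 t
  obtain ⟨l, r, e'⟩ := surj v
  exact ⟨k + l, r, by simp only [AlgHom.comp_apply, map_mul, map_pow, ← e', ← e]; ring⟩

lemma zeta_weight {J : Type} (ζ : G →+ ℤ) {e : J → G} (h : ∀ v, ζ (e v) = 1) (m : J →₀ ℕ) :
    ζ (Finsupp.weight e m) = m.degree := by
  rw [Finsupp.weight_apply, map_finsuppSum, Finsupp.degree_apply]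
  simp [h, Finsupp.sum]

namespace Lad
variable {l : ℕ} {I : Type} [Fintype I] [DecidableEq I] (L : Lad A l I) (c : Fin l → Bool)
  {V V' : Type} [AddCommGroup V] [Module R V] [AddCommGroup V'] [Module R V']

/-- The chart without one factor. -/
def cof (k : Fin l) : R := ∏ j ∈ Finset.univ.erase k, ((L.p j).he (c j)).x

lemma cof_mul (k : Fin l) : ((L.p k).he (c k)).x * L.cof c k = (L.u c).x :=
  Finset.mul_prod_erase _ (fun j => ((L.p j).he (c j)).x) (Finset.mem_univ k)

lemma cof_mem (k : Fin l) : L.cof c k ∈ A ((L.u c).deg - (L.p k).h) := by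
  rw [show (L.u c).deg - (L.p k).h = ∑ j ∈ Finset.univ.erase k, (L.p j).h from
    sub_eq_of_eq_add (Finset.sum_erase_add _ _ (Finset.mem_univ k)).symm]
  exact SetLike.prod_mem_graded _ _ _ fun j _ => ((L.p j).he (c j)).mem

lemma a_succ (k : Fin l) : L.a (k + 1) = L.a k + ((L.p k).h + (L.p k).h) := by
  rw [a, a, ← Finset.sum_erase_add _ _ (Finset.mem_univ k),
    ← Finset.sum_erase_add _ _ (Finset.mem_univ k), if_pos (by omega), if_neg (by omega), add_zero]
  congr 1
  refine Finset.sum_congr rfl fun j hj => if_congr ?_ rfl rfl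
  have : j.val ≠ k.val := fun e => Finset.ne_of_mem_erase hj (Fin.ext e)
  omega

/-- The degree of a generator. -/
abbrev eσ (g : I) : G := L.e g + (L.p (L.lev g)).h

/-- The differential of the local generator. -/
def Dm (y : I → Bool → V) (g : I) : V :=
  (L.p (L.lev g)).t • y g true + (L.p (L.lev g)).s • y g false

/-- The relations of the bundle. -/
structure Rel (y : I → Bool → V) : Prop where
  rS : ∀ g (k : Fin l) b, k.val = L.lev g + 1 →
    ((L.p k).he b).x • L.Dm y g = ∑ g', L.δ g g' • y g' b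
  rT : ∀ g, (L.lev g).val + 1 = l → L.Dm y g = 0

/-- The differential on a chart. -/
def dv (g g' : I) : R := L.δ g g' * L.cof c (L.lev g')

/-- The generators in the basis of a chart. -/
def mv (g : I) (b : Bool) : I → R :=
  Pi.single g (((L.p (L.lev g)).he b).x * L.cof c (L.lev g) * (L.u c).x) +
    (if b = c (L.lev g) then 0 else L.cof c (L.lev g)) • L.dv c g

lemma mv_self (g : I) : L.mv c g (c (L.lev g)) = Pi.single g ((L.u c).x ^ 2) := by
  rw [mv, cof_mul, if_pos rfl, zero_smul, add_zero, sq]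

lemma Dm_eq (y : I → Bool → V) (g : I) (b : Bool) : L.Dm y g =
    ((L.p (L.lev g)).he b).x • y g (!b) + ((L.p (L.lev g)).he (!b)).x • y g b := by
  cases b
  exacts [rfl, add_comm _ _]

lemma Dm_map (f : V →ₗ[R] V') (y : I → Bool → V) (g : I) :
    L.Dm (fun g b => f (y g b)) g = f (L.Dm y g) := by simp [Dm]

lemma Dm_mv (g : I) : L.Dm (L.mv c) g = (L.u c).x • L.dv c g := by
  rw [L.Dm_eq _ g (c (L.lev g)), mv_self, mv, if_neg (by simp), smul_add, smul_smul, cof_mul,
    ← Pi.single_smul', ← Pi.single_smul', smul_eq_mul, smul_eq_mul, add_right_comm,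
    mul_assoc, mul_left_comm, ← mul_assoc _ (L.cof _ _), cof_mul, sq, two_mod K R, zero_add]

/-- The map on a chart. -/
def ψ : MvPolynomial (I × Bool) R →ₐ[R] MvPolynomial I R :=
  aeval fun v => Fintype.linearCombination R X (L.mv c v.1 v.2)

lemma ψ_X (v : I × Bool) : L.ψ c (X v) = ∑ g, L.mv c v.1 v.2 g • X g :=
  (aeval_X _ _).trans (Fintype.linearCombination_apply _ _ _)

lemma ψ_self (g : I) : L.ψ c (X (g, c (L.lev g))) = C (L.u c).x ^ 2 * X g := by
  rw [ψ, aeval_X, mv_self, Fintype.linearCombination_apply_single, smul_eq_C_mul, map_pow]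

variable {L}

lemma Rel.map {y : I → Bool → V} (h : L.Rel y) (f : V →ₗ[R] V') : L.Rel fun g b => f (y g b) :=
  ⟨fun g k b e => by rw [Dm_map, ← map_smul, h.rS g k b e]; simp,
    fun g e => by rw [Dm_map, h.rT g e, map_zero]⟩

lemma Rel.of_inj {y : I → Bool → V} (f : V →ₗ[R] V') (hf : Function.Injective f)
    (h : L.Rel fun g b => f (y g b)) : L.Rel y :=
  ⟨fun g k b e => hf (by rw [map_smul, ← Dm_map, h.rS g k b e]; simp),
    fun g e => hf (by rw [← Dm_map, h.rT g e, map_zero])⟩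

variable (H : L.Pre)
include H

lemma Pre.top {g : I} (h : (L.lev g).val + 1 = l) (g' : I) : L.δ g g' = 0 := by
  by_contra h'
  have := H.h2 g g' h'
  omega

lemma Pre.lev {g : I} {k : Fin l} (h : k.val = L.lev g + 1) {W : Type} [AddCommGroup W]
    [Module R W] (f : Fin l → W) (g' : I) : L.δ g g' • f (L.lev g') = L.δ g g' • f k := by
  by_cases h' : L.δ g g' = 0
  · simp [h']
  · rw [show L.lev g' = k from Fin.ext ((H.h2 g g' h').trans h.symm)]

lemma Pre.rel_mv : L.Rel (L.mv c) where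
  rS g k b e := by
    rw [Dm_mv, Finset.sum_congr rfl fun g' _ => H.lev e (fun j => Pi.single g'
      (((L.p j).he b).x * L.cof c j * (L.u c).x) + (if b = c j then 0 else L.cof c j) • L.dv c g') g']
    funext g''
    have h1 : ∑ g', L.δ g g' * L.δ g' g'' = 0 := congrFun (congrFun H.h3 g) g''
    have h2 := H.lev e (L.cof c) g''
    simp only [smul_eq_mul] at h2
    simp only [Pi.smul_apply, Finset.sum_apply, Pi.add_apply, smul_eq_mul, mul_add,
      Finset.sum_add_distrib, Pi.single_apply, dv, h2]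
    rw [Finset.sum_congr rfl fun g' _ => (mul_left_comm _ _ _).trans
      (congrArg _ (mul_assoc (L.δ g g') (L.δ g' g'') _).symm), ← Finset.mul_sum, ← Finset.sum_mul, h1]
    simp
    ring
  rT g e := by
    rw [Dm_mv]
    funext g'
    simp [dv, H.top e]

/-- The basis of a chart generates. -/
lemma Pre.univ {y : I → Bool → V} (h : L.Rel y) (two : ∀ v : V, v + v = 0) (g : I) (b : Bool) :
    (L.u c).x ^ 2 • y g b =
      Fintype.linearCombination R (fun g' => y g' (c (L.lev g'))) (L.mv c g b) := by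
  have e : Fintype.linearCombination R (fun g' => y g' (c (L.lev g'))) (L.dv c g) =
      (L.u c).x • L.Dm y g := by
    rw [Fintype.linearCombination_apply]
    by_cases h0 : (L.lev g).val + 1 = l
    · simp [h.rT g h0, dv, H.top h0]
    · let k : Fin l := ⟨(L.lev g).val + 1, by omega⟩
      rw [← L.cof_mul c k, mul_comm, mul_smul, h.rS g k _ rfl, Finset.smul_sum]
      refine Finset.sum_congr rfl fun g' _ => ?_
      rw [dv, mul_smul, smul_comm]
      exact (smul_comm _ _ _).trans ((H.lev rfl (fun j => L.cof c j • y g' (c j)) g').trans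
        (smul_comm _ _ _))
  by_cases hb : b = c (L.lev g)
  · rw [hb, mv_self, Fintype.linearCombination_apply_single]
  · obtain rfl : b = !c (L.lev g) := Bool.eq_not_iff.2 hb
    rw [mv, if_neg hb, map_add, map_smul, e, Fintype.linearCombination_apply_single,
      L.Dm_eq y g (c (L.lev g)), smul_add, smul_add, smul_smul, smul_smul, smul_smul, smul_smul,
      add_left_comm, mul_comm (_ * (L.u c).x) ((L.p _).he (!_)).x, ← mul_assoc, two, add_zero,
      mul_assoc, mul_comm (L.u c).x, ← mul_assoc, mul_comm (L.cof _ _), cof_mul, sq]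

lemma Pre.mv_mem (g : I) (b : Bool) (g' : I) :
    L.mv c g b g' ∈ A (2 • (L.u c).deg + L.eσ g - L.eσ g') := by
  refine add_mem ?_ ?_
  · by_cases e : g' = g
    · subst e
      rw [Pi.single_eq_same]
      convert SetLike.mul_mem_graded (SetLike.mul_mem_graded ((L.p _).he b).mem
        (L.cof_mem c (L.lev g'))) (L.u c).mem using 2
      change _ = (L.p _).h + _ + _
      rw [two_nsmul]; abel
    · rw [Pi.single_eq_of_ne e]; exact zero_mem _
  · by_cases h' : L.δ g g' = 0
    · simp [dv, h']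
    · split_ifs
      · simp
      · convert SetLike.mul_mem_graded (L.cof_mem c (L.lev g))
          (SetLike.mul_mem_graded (H.h1 g g') (L.cof_mem c (L.lev g'))) using 2
        · rw [eσ, eσ, e, e, H.h2 g g' h', a_succ, two_nsmul]; abel
        · rfl

lemma Pre.ζe (g : I) : L.ζ (L.eσ g) = 1 := by
  have : L.ζ (L.a (L.lev g)) = 0 := by
    rw [a, map_sum]
    exact Finset.sum_eq_zero fun j _ => by split_ifs <;> simp [H.ζh]
  simp [e, this, H.ζz, (H.hb g).1, H.ζh]

lemma Pre.ζu : L.ζ (L.u c).deg = 0 := by simp [u, H.ζh]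

lemma Pre.rel_ψ : L.Rel fun g b => L.ψ c (X (g, b)) := by
  simpa [ψ] using (H.rel_mv c).map (Fintype.linearCombination R X)

lemma Pre.ker (c' : Fin l → Bool) {P : MvPolynomial (I × Bool) R} (h : L.ψ c P = 0) :
    L.ψ c' P = 0 := by
  have := H.dom
  let F := FractionRing (MvPolynomial I R)
  let j := IsScalarTower.toAlgHom R (MvPolynomial I R) F
  have hj : Function.Injective j := IsFractionRing.injective _ _
  have hu : algebraMap R F (L.u c).x ≠ 0 := fun e =>
    H.nz c (C_injective I R (hj (e.trans (by simp))))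
  have e : (aeval fun g => (algebraMap R F (L.u c).x ^ 2)⁻¹ *
      j (L.ψ c' (X (g, c (L.lev g))))).comp (L.ψ c) = j.comp (L.ψ c') := algHom_ext fun v => by
    have := H.univ c ((H.rel_ψ c').map j.toLinearMap) (two_mod K R) v.1 v.2
    rw [Fintype.linearCombination_apply, Algebra.smul_def, map_pow] at this
    rw [AlgHom.comp_apply, ψ_X]
    simp only [map_sum, map_smul, aeval_X, ← mul_smul_comm, ← Finset.mul_sum]
    exact (congrArg _ this.symm).trans (inv_mul_cancel_left₀ (pow_ne_zero 2 hu) _)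
  have := AlgHom.congr_fun e P
  rw [AlgHom.comp_apply, h, map_zero] at this
  exact hj (this.symm.trans (map_zero j).symm)

omit H
variable (L)

/-- The symmetric algebra. -/
abbrev Sy : Type := MvPolynomial (I × Bool) R ⧸ RingHom.ker (L.ψ fun _ => true)

/-- The quotient map. -/
abbrev mkS : MvPolynomial (I × Bool) R →ₐ[R] L.Sy := Ideal.Quotient.mkₐ R _

/-- Its grading. -/
def gS : G → Submodule K L.Sy := img (L.mkS.restrictScalars K) (pol A fun v => L.eσ v.1)

instance : SetLike.GradedMonoid L.gS := inferInstanceAs (SetLike.GradedMonoid (img _ _))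

/-- The generators. -/
def σS (g : I) (b : Bool) : L.Sy := L.mkS (X (g, b))

lemma mkS_C (r : R) : L.mkS (C r) = algebraMap R L.Sy r := L.mkS.commutes r

/-- The structure map. -/
def φS : GH A L.gS := ⟨IsScalarTower.toAlgHom K R L.Sy, fun h => ⟨_, C_mem_pol h, L.mkS_C _⟩⟩

lemma σS_mem (g : I) (b : Bool) : L.σS g b ∈ L.gS (L.eσ g) := mem_img (X_mem_pol (g, b))

/-- The localized base. -/
abbrev Ru : Type := Localization.Away (L.u c).x

/-- The grading of the chart. -/
abbrev gU : G → Submodule K (MvPolynomial I (L.Ru c)) :=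
  pol (lcz (L.u c) (IsScalarTower.toAlgHom K R (L.Ru c))) L.eσ

/-- The inverse of the chart. -/
abbrev iu : L.Ru c := IsLocalization.Away.invSelf (L.u c).x

lemma iu_mem : L.iu c ∈ lcz (L.u c) (IsScalarTower.toAlgHom K R (L.Ru c)) (-(L.u c).deg) :=
  inv_mem_lcz (w := 1) (by simpa using SetLike.one_mem_graded A) (mul_one _).symm
    (IsLocalization.Away.mul_invSelf _)

/-- The rescaling of the variables. -/
def τ : MvPolynomial I R →ₐ[R] MvPolynomial I (L.Ru c) := aeval fun g => C (L.iu c ^ 2) * X g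

lemma τ_C (r : R) : L.τ c (C r) = C (algebraMap R (L.Ru c) r) := (L.τ c).commutes r

lemma τ_X (g : I) : L.τ c (C (L.u c).x ^ 2 * X g) = X g := by
  rw [map_mul, map_pow, τ_C, τ, aeval_X, ← mul_assoc, ← map_pow, ← map_mul, ← mul_pow,
    IsLocalization.Away.mul_invSelf, one_pow, map_one, one_mul]

variable {L}
include H

/-- The chart of the symmetric algebra. -/
def Pre.ψ' : L.Sy →ₐ[R] MvPolynomial I R :=
  Ideal.Quotient.liftₐ _ (L.ψ c) fun _ h => H.ker _ c h

lemma Pre.ψ'_inj : Function.Injective (H.ψ' c) :=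
  (injective_iff_map_eq_zero _).2 fun r h => by
    obtain ⟨P, rfl⟩ := Ideal.Quotient.mk_surjective r
    exact Ideal.Quotient.eq_zero_iff_mem.2 (H.ker c _ h)

lemma Pre.ψ'_σ (g : I) : H.ψ' c (L.σS g (c (L.lev g))) = C (L.u c).x ^ 2 * X g := L.ψ_self c g

lemma Pre.ψ'_φ (r : R) : H.ψ' c (L.φS.φ r) = C r := (H.ψ' c).commutes r

lemma Pre.φ_inj : Function.Injective L.φS.φ := fun r s e =>
  C_injective I R ((H.ψ'_φ (fun _ => true) r).symm.trans ((congrArg _ e).trans (H.ψ'_φ _ s)))

lemma Pre.domS : IsDomain L.Sy :=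
  have := H.dom
  (H.ψ'_inj fun _ => true).isDomain _

lemma Pre.rel_σ : L.Rel L.σS :=
  Rel.of_inj (H.ψ' fun _ => true).toLinearMap (H.ψ'_inj _) (H.rel_ψ _)

lemma Pre.univ_σ (g : I) (b : Bool) : L.φS.φ (L.u c).x ^ 2 * L.σS g b =
    ∑ g', L.φS.φ (L.mv c g b g') * L.σS g' (c (L.lev g')) := by
  have := H.univ c H.rel_σ (two_mod K R) g b
  simp only [Fintype.linearCombination_apply, Algebra.smul_def, map_pow] at this
  exact this

lemma Pre.alg_inj : Function.Injective (algebraMap R (L.Ru c)) :=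
  have := H.dom
  IsLocalization.injective _ (powers_le_nonZeroDivisors_of_noZeroDivisors (H.nz c))

lemma Pre.τ_inj : Function.Injective (L.τ c) := by
  have e : ((aeval fun g => C (algebraMap R (L.Ru c) (L.u c).x ^ 2) * X g :
      MvPolynomial I (L.Ru c) →ₐ[L.Ru c] MvPolynomial I (L.Ru c)).restrictScalars R).comp (L.τ c) =
      mapAlgHom (Algebra.ofId R _) := algHom_ext fun g => by
    simp only [τ, AlgHom.comp_apply, aeval_X, AlgHom.restrictScalars_apply, map_mul, aeval_C,
      mapAlgHom_apply, map_X, algebraMap_eq]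
    rw [← mul_assoc, ← map_mul, ← mul_pow, mul_comm (L.iu c), IsLocalization.Away.mul_invSelf,
      one_pow, map_one, one_mul]
  exact fun a b h => map_injective _ (H.alg_inj c) ((AlgHom.congr_fun e a).symm.trans
    (Eq.trans (by rw [AlgHom.comp_apply, h]; rfl) (AlgHom.congr_fun e b)))

/-- The chart as a graded map. -/
def Pre.Ψ : GH L.gS (L.gU c) :=
  ⟨((L.τ c).comp (H.ψ' c)).restrictScalars K, by
    rintro g _ ⟨P, hP, rfl⟩
    refine pol_map' (((L.τ c).comp (L.ψ c)).restrictScalars K) (fun g r hr => ?_) (fun v => ?_) hP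
    · exact ((L.τ c).comp (L.ψ c)).commutes r ▸ C_mem_pol (mem_lcz hr)
    · change L.τ c (L.ψ c (X v)) ∈ _
      rw [ψ_X, map_sum]
      refine sum_mem fun g' _ => ?_
      rw [smul_eq_C_mul, map_mul, τ_C, τ, aeval_X]
      convert SetLike.mul_mem_graded (C_mem_pol (mem_lcz (H.mv_mem c v.1 v.2 g')))
        (SetLike.mul_mem_graded (C_mem_pol (SetLike.pow_mem_graded 2 (L.iu_mem c)))
          (X_mem_pol (e := L.eσ) g')) using 2
      · rw [smul_neg]; abel
      · rfl⟩

lemma Pre.Ψ_φ (r : R) : (H.Ψ c).φ (L.φS.φ r) = C (algebraMap R (L.Ru c) r) :=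
  (congrArg (L.τ c) (H.ψ'_φ c r)).trans (L.τ_C c r)

lemma Pre.Ψ_σ (g : I) : (H.Ψ c).φ (L.σS g (c (L.lev g))) = X g :=
  (congrArg (L.τ c) (H.ψ'_σ c g)).trans (L.τ_X c g)

lemma Pre.Ψ_inj : Function.Injective (H.Ψ c).φ := (H.τ_inj c).comp (H.ψ'_inj c)

lemma Pre.mono_ind {γ : G} {r : L.Sy} (h : r ∈ L.gS γ) (W : Submodule K L.Sy)
    (mem : ∀ m : I × Bool →₀ ℕ, L.ζ γ = m.degree →
      ∀ s ∈ A (γ - Finsupp.weight (fun v => L.eσ v.1) m), L.mkS (monomial m s) ∈ W) : r ∈ W := by
  obtain ⟨P, hP, rfl⟩ := h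
  refine pol_ind hP (W.comap (L.mkS.restrictScalars K).toLinearMap) fun m s hs h0 => mem m ?_ s hs
  have := H.hζ _ s hs h0
  rwa [map_sub, zeta_weight L.ζ fun v => H.ζe _, sub_eq_zero] at this

lemma Pre.deg0 (γ : G) (h0 : L.ζ γ = 0) (r : L.Sy) (h : r ∈ L.gS γ) : ∃ s ∈ A γ, L.φS.φ s = r :=
  H.mono_ind h (img L.φS.φ A γ) fun m e s hs => by
    obtain rfl : m = 0 := (Finsupp.degree_eq_zero_iff m).1 (by omega)
    exact ⟨s, by simpa using hs, (L.mkS_C s).symm⟩

lemma Pre.ok : (L.map L.φS L.σS).OK where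
  h1 g g' := L.φS.mem (H.h1 g g')
  h2 g g' h := H.h2 g g' fun e => h ((congrArg L.φS.φ e).trans (map_zero _))
  h3 := (Matrix.map_mul (f := L.φS.φ)).symm.trans (by rw [H.h3]; exact Matrix.map_zero _ (map_zero _))
  hσ := L.σS_mem
  rS g k b e := by
    have := H.rel_σ.rS g k b e
    simp only [Dm, Algebra.smul_def] at this
    rw [map_he]; exact this
  rT g e := by
    have := H.rel_σ.rT g e
    simp only [Dm, Algebra.smul_def] at this
    exact this
  lam1 := H.lam1
  lam0 := H.lam0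
  ζh := H.ζh
  ζz := H.ζz
  hb := H.hb
  van := by
    have e : (L.map L.φS L.σS).us = L.us.map L.φS.he := by
      rw [us, us, lst, lst, List.map_map]
      exact List.map_congr_left fun c _ => L.map_u _ _ c
    rw [e]
    refine (van_res _).1 (Van.right (U := {g | L.ζ g = 0}) (fun x hx g hg => ?_)
      (glin_qisOn _ (fun _ _ _ _ h => H.φ_inj (h.trans (map_zero _).symm)) H.deg0)
      (fun _ h => h.1) H.van)
    obtain ⟨c, rfl⟩ := mem_lst.1 hx
    exact (map_add _ _ _).trans (by rw [H.ζu, zero_add]; exact hg)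
  zero j g hg e r hr := by
    obtain ⟨s, hs, rfl⟩ := H.deg0 g hg.1 r hr
    rw [H.zero j g hg e s hs, map_zero]
  neg g e r hr := H.mono_ind hr ⊥ fun m e' => by
    have : L.ζ g = -1 := e
    omega
  surj c γ e r hr := by
    let W : Submodule K L.Sy :=
      { carrier := {r | ∃ n : I → L.Sy, (∀ g, n g ∈ L.gS (2 • (L.u c).deg + γ - L.eσ g)) ∧
          L.φS.φ (L.u c).x ^ 2 * r = ∑ g, n g * L.σS g (c (L.lev g))}
        add_mem' := fun ⟨n, h, e⟩ ⟨n', h', e'⟩ => ⟨n + n', fun g => add_mem (h g) (h' g), by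
          simp [mul_add, add_mul, e, e', Finset.sum_add_distrib]⟩
        zero_mem' := ⟨0, fun _ => zero_mem _, by simp⟩
        smul_mem' := fun a _ ⟨n, h, e⟩ => ⟨a • n, fun g => Submodule.smul_mem _ a (h g), by
          simp [e, Finset.smul_sum]⟩ }
    rw [map_u]
    refine ⟨2, H.mono_ind hr W fun m e' s hs => ?_⟩
    obtain ⟨v, rfl⟩ : ∃ v, m = Finsupp.single v 1 := by
      have : L.ζ γ = 1 := e
      exact (Finsupp.sum_eq_one_iff m).1 (show m.degree = 1 by omega)
    refine ⟨fun g => L.φS.φ (s * L.mv c v.1 v.2 g), fun g => L.φS.mem ?_, ?_⟩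
    · convert SetLike.mul_mem_graded hs (H.mv_mem c v.1 v.2 g) using 2
      rw [Finsupp.weight_single, one_smul]; abel
    · rw [← C_mul_X_eq_monomial, map_mul, mkS_C, mul_left_comm]
      simp only [map_mul, mul_assoc, ← Finset.mul_sum]
      exact congrArg _ (H.univ_σ c v.1 v.2)
  ind c g γ e r hr h := by
    have := H.dom
    obtain ⟨s, -, rfl⟩ := H.deg0 γ e r hr
    let κ := (aeval (Pi.single g (1 : R))).comp (H.ψ' c)
    have k1 : ∀ g', κ (L.σS g' (c (L.lev g'))) = (L.u c).x ^ 2 * (Pi.single g 1 : I → R) g' :=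
      fun g' => (congrArg (aeval _) (H.ψ'_σ c g')).trans (by simp)
    have k2 : κ _ = 0 := (Ideal.span_le (I := RingHom.ker κ)).2 (by
      rintro _ ⟨g', hg, rfl⟩
      exact (k1 g').trans (by rw [Pi.single_eq_of_ne hg, mul_zero])) h
    rw [map_mul, sc, k1, Pi.single_eq_same, mul_one, show κ (L.φS.φ s) = s from κ.commutes s] at k2
    rw [(mul_eq_zero.1 k2).resolve_right (pow_ne_zero 2 (H.nz c)), map_zero]
  nz c r h := by
    have := H.domS
    rw [map_u] at h
    exact (mul_eq_zero.1 h).resolve_left fun e => H.nz c (H.φ_inj (e.trans (map_zero _).symm))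

lemma Pre.isLoc : IsLoc (L.φS.he (L.u c)) (ring L.gS) ((H.Ψ c).res (ring (L.gU c)))
    (glin (H.Ψ c)) :=
  glin_isLoc (H.Ψ c) _ (C_mem_pol (L.iu_mem c)) (by
    rw [GH.he, H.Ψ_φ, ← map_mul, IsLocalization.Away.mul_invSelf, map_one])
    (fun g v hv => show v ∈ lcz (L.φS.he (L.u c)) (H.Ψ c).φ g from pol_map' (AlgHom.id K _)
      (by
        rintro _ _ ⟨k, m, hm, e⟩
        refine ⟨k, _, L.φS.mem hm, ?_⟩
        rw [GH.he, H.Ψ_φ, H.Ψ_φ, ← map_pow, AlgHom.id_apply, ← map_mul]; exact congrArg C e)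
      (fun g => H.Ψ_σ c g ▸ mem_lcz (L.σS_mem g _)) hv) (H.Ψ_inj c)

lemma Pre.pl (g : I) (y : R) (h : PLAt K y) :
    PLAt K (L.φS.φ y * (L.σS g (c (L.lev g)) * L.φS.φ (L.u c).x)) := by
  have := H.dom
  have key : ∀ v, ∃ (k : ℕ) (r : L.Sy), v * C (L.u c).x ^ k = H.ψ' c r := fun v => by
    induction v using MvPolynomial.induction_on with
    | C a => exact ⟨0, _, by rw [H.ψ'_φ, pow_zero, mul_one]⟩
    | add p q hp hq =>
      obtain ⟨k, r, e⟩ := hp
      obtain ⟨k', r', e'⟩ := hq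
      refine ⟨k + k', r * L.φS.φ (L.u c).x ^ k' + r' * L.φS.φ (L.u c).x ^ k, ?_⟩
      simp only [map_add, map_mul, map_pow, H.ψ'_φ, ← e, ← e']; ring
    | mul_X p i hp =>
      obtain ⟨k, r, e⟩ := hp
      exact ⟨k + 2, r * L.σS i _, by rw [map_mul, H.ψ'_σ, ← e]; ring⟩
  refine PLAt.of_inj ((H.ψ' c).restrictScalars K) (H.ψ'_inj c) (fun v => ?_) ?_
  · obtain ⟨k, r, e⟩ := key v
    refine ⟨k, r * (L.φS.φ y * L.σS g (c (L.lev g))) ^ k, ?_⟩
    simp only [AlgHom.restrictScalars_apply, map_mul, map_pow, H.ψ'_φ, ← e]; ring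
  · rw [mul_comm]
    simp only [AlgHom.restrictScalars_apply, map_mul, H.ψ'_φ, H.ψ'_σ]
    have hu : (C (L.u c).x : MvPolynomial I R) ≠ 0 := C_ne_zero.2 (H.nz c)
    exact (h.C I).mul (mul_ne_zero (mul_ne_zero (pow_ne_zero 2 hu) (X_ne_zero g)) hu)

/-- The bundle. -/
def Pre.bun : L.Bun where
  R' := L.Sy
  A' := L.gS
  φ := L.φS
  σ := L.σS
  ok := H.ok
  fibre c := by
    rw [map_u]
    refine (pl_gam _ _ _ _ _ (H.isLoc c)).torsOn (Van.mono ((van_res _).2 (van_pol L.ζ Finset.univ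
      ?_ (fun g _ => H.ζe g) (by simp) ?_ fun g _ => ?_)) fun g hg => ?_)
    · rintro g r ⟨k, m, hm, e⟩ h0
      have := H.hζ _ m hm fun h => h0 (((IsLocalization.Away.algebraMap_isUnit (L.u c).x).pow
        k).mul_right_eq_zero.1 (e.trans (by rw [h, map_zero])))
      rw [map_add, map_nsmul, H.ζu, smul_zero, zero_add] at this
      exact this.le
    · intro x hx
      obtain ⟨y, hy, rfl⟩ := List.mem_map.1 hx
      obtain ⟨v, rfl⟩ := mem_lst.1 hy
      exact zero_le_one.trans (H.ζe v.1).ge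
    · exact ⟨_, List.mem_map_of_mem (mem_lst.2 ⟨(g, c (L.lev g)), rfl⟩), H.Ψ_σ c g, rfl⟩
    · have := H.card
      have : -1 ≤ L.ζ g := hg
      change 1 - ((Fintype.card I : ℕ) : ℤ) ≤ _
      omega
  dom := H.domS
  span h := span_img Ideal.Quotient.mk_surjective (span_pol h)
  ind h := IndA.of_inj (ind_pol (ind_lcz h (H.alg_inj fun _ => true)
    (IsLocalization.Away.algebraMap_isUnit _))) (H.Ψ _).φ (H.Ψ_inj _) fun _ _ => (H.Ψ _).mem
  gen B h h' γ := by
    rintro _ ⟨P, hP, rfl⟩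
    exact pol_map (L.mkS.restrictScalars K) (fun g r hr => (L.mkS_C r).symm ▸ h g r hr)
      (fun v => h' v.1 v.2) hP
  pl := H.pl
  sp c g b := by
    rw [H.univ_σ]
    exact sum_mem fun g' _ => Ideal.mul_mem_left _ _ (Ideal.subset_span ⟨g', rfl⟩)
  pt c π := ⟨π.comp (((aeval 1).comp (H.ψ' c)).restrictScalars K),
    fun r => congrArg π (((aeval 1).comp (H.ψ' c)).commutes r),
    fun g => (congrArg (fun P => π (aeval 1 P)) (H.ψ'_σ c g)).trans (by simp)⟩
  inj := H.φ_inj
  deg0 := H.deg0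

end Lad

theorem bun : BunStmt K := fun _ _ _ _ _ _ _ _ _ _ _ _ H => ⟨H.bun⟩

end FMX
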