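import Pool.Agent.MP_0e6a9f_ag.H32.Lad1

/-! The vector bundle over the ladder: what is asked of its symmetric algebra. -/

set_option autoImplicit false
set_option linter.unusedSectionVars false

open FMD FMD.DG

noncomputable section
namespace FMX

variable {K G R R' : Type} [Field K] [AddCommGroup G] [CommRing R] [Algebra K R] [CharP K 2]
  [CommRing R'] [Algebra K R'] {A : G → Submodule K R} [SetLike.GradedMonoid A]
  {A' : G → Submodule K R'} [SetLike.GradedMonoid A']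

omit [CharP K 2] [SetLike.GradedMonoid A] in
lemma he_ext {x y : HE A} (h : x.x = y.x) (h' : x.deg = y.deg) : x = y := by
  cases x; cases y; cases h; cases h'; rfl

namespace Lad
variable {l : ℕ} {I : Type} [Fintype I] [DecidableEq I] (L : Lad A l I)

/-- The conditions on the base of the bundle; `L.σ` plays no role. -/
structure Pre : Prop where
  h1 : ∀ g g', L.δ g g' ∈ A (L.b g - L.b g')
  h2 : ∀ g g', L.δ g g' ≠ 0 → (L.lev g').val = L.lev g + 1
  h3 : L.δ * L.δ = 0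
  lam1 : ∀ j, L.lam j (L.p j).h = 1
  lam0 : ∀ i j, i ≠ j → L.lam i (L.p j).h = 0
  ζh : ∀ j, L.ζ (L.p j).h = 0
  ζz : L.ζ L.z = 1
  hb : ∀ g, L.b g ∈ L.U0
  van : Van L.us L.U1 (ring A)
  zero : ∀ j, ∀ g ∈ L.U1, L.lam j g = -1 → ∀ r ∈ A g, r = 0
  hζ : ∀ g, ∀ r ∈ A g, r ≠ 0 → L.ζ g = 0
  dom : IsDomain R
  nz : ∀ c, (L.u c).x ≠ 0
  card : 2 ≤ Fintype.card I

/-- The data pushed along a graded map, with new generators. -/
@[reducible] def map (φ : GH A A') (σ : I → Bool → R') : Lad A' l I where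
  p k := ⟨φ.φ (L.p k).s, φ.φ (L.p k).t, (L.p k).h, φ.mem (L.p k).hs, φ.mem (L.p k).ht⟩
  lev := L.lev
  b := L.b
  z := L.z
  δ := L.δ.map φ.φ
  σ := σ
  ζ := L.ζ
  lam := L.lam

lemma map_he (φ : GH A A') (σ : I → Bool → R') (k : Fin l) (c : Bool) :
    (((L.map φ σ).p k).he c).x = φ.φ ((L.p k).he c).x := by cases c <;> rfl

lemma map_u (φ : GH A A') (σ : I → Bool → R') (c : Fin l → Bool) :
    (L.map φ σ).u c = φ.he (L.u c) :=
  he_ext ((Finset.prod_congr rfl fun k _ => L.map_he φ σ k (c k)).trans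
    (map_prod φ.φ (fun k => ((L.p k).he (c k)).x) Finset.univ).symm) rfl

/-- The symmetric algebra of the bundle. -/
structure Bun where
  R' : Type
  [cr : CommRing R']
  [alg : Algebra K R']
  A' : G → Submodule K R'
  [gm : SetLike.GradedMonoid A']
  φ : GH A A'
  σ : I → Bool → R'
  ok : (L.map φ σ).OK
  fibre : ∀ c, TorsOn {g | -1 ≤ L.ζ g} ((L.map φ σ).u c)
    ((gamF (lst fun v : I × Bool => ⟨σ v.1 v.2, _, ok.hσ v.1 v.2⟩)).obj (ring A'))
  dom : IsDomain R'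
  span : SpanA A → SpanA A'
  ind : IndA A → IndA A'
  gen : ∀ B : G → Submodule K R', (∀ γ, ∀ r ∈ A γ, φ.φ r ∈ B γ) →
    (∀ g c γ, ∀ r ∈ B γ, σ g c * r ∈ B (L.e g + (L.p (L.lev g)).h + γ)) → ∀ γ, A' γ ≤ B γ
  pl : ∀ c g y, PLAt K y → PLAt K (φ.φ y * (σ g (c (L.lev g)) * φ.φ (L.u c).x))
  sp : ∀ c g b, φ.φ (L.u c).x ^ 2 * σ g b ∈ Ideal.span (Set.range fun g' => σ g' (c (L.lev g')))
  pt : ∀ c (π : R →ₐ[K] K), ∃ π' : R' →ₐ[K] K, (∀ r, π' (φ.φ r) = π r) ∧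
    ∀ g, π' (σ g (c (L.lev g))) = π (L.u c).x ^ 2
  inj : Function.Injective φ.φ
  deg0 : ∀ γ, L.ζ γ = 0 → ∀ r ∈ A' γ, ∃ s ∈ A γ, φ.φ s = r

attribute [instance] Bun.cr Bun.alg Bun.gm

end Lad

variable (K) in
/-- row BUN -/
def BunStmt : Prop :=
  ∀ (G R : Type) [AddCommGroup G] [CommRing R] [Algebra K R] (A : G → Submodule K R)
    [SetLike.GradedMonoid A] (l : ℕ) (I : Type) [Fintype I] [DecidableEq I] (L : Lad A l I),
    L.Pre → Nonempty L.Bun

end FMX
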