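import Pool.Agent.MP_0e6a9f_ag.H32.Fin

/-! Smoothness of a multiprojective variety from a Cox-type presentation. -/

set_option backward.isDefEq.respectTransparency false
set_option linter.unusedSectionVars false

open FMD MvPolynomial

noncomputable section
namespace FMX

variable {K : Type} [Field K]

lemma GD.mvPolynomial {T : Type} [CommRing T] {n : ℕ} (h : GD T n) (τ : Type) [Finite τ] :
    ∃ m, GD (MvPolynomial τ T) m := by
  induction τ using Finite.induction_empty_option with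
  | of_equiv e H => exact H.imp fun n h => h.equiv (renameEquiv _ e).toRingEquiv
  | h_empty => exact ⟨n, h.equiv (isEmptyRingEquiv T _).symm⟩
  | h_option H =>
    obtain ⟨n, h⟩ := H
    exact ⟨n + 1, h.polynomial.equiv (optionEquivLeft _ _).toRingEquiv.symm⟩

variable (K) in
/-- Formally smooth and of finite global dimension. -/
structure Nice (T : Type) [CommRing T] [Algebra K T] : Prop where
  smooth : Algebra.FormallySmooth K T
  gd : ∃ n, GD T n

section
variable {T T' : Type} [CommRing T] [Algebra K T] [CommRing T'] [Algebra K T']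

lemma Nice.field : Nice K K := ⟨inferInstance, 0, fun _ _ _ => pd_of_projective⟩

lemma Nice.equiv (h : Nice K T) (e : T ≃ₐ[K] T') : Nice K T' :=
  have := h.smooth
  ⟨.of_equiv e, h.gd.imp fun _ h => h.equiv e.toRingEquiv⟩

lemma Nice.mvPolynomial (h : Nice K T) (τ : Type) [Finite τ] : Nice K (MvPolynomial τ T) :=
  have := h.smooth
  ⟨.comp K T _, h.gd.elim fun _ h => h.mvPolynomial τ⟩

lemma Nice.polynomial (h : Nice K T) : Nice K (Polynomial T) :=
  have := h.smooth
  ⟨.comp K T _, h.gd.elim fun _ h => ⟨_, h.polynomial⟩⟩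

lemma Nice.localization (h : Nice K T) (W : Submonoid T) (T' : Type) [CommRing T'] [Algebra K T']
    [Algebra T T'] [IsScalarTower K T T'] [IsLocalization W T'] : Nice K T' :=
  have := h.smooth
  have : Algebra.FormallySmooth T T' := .of_isLocalization W
  ⟨.comp K T _, h.gd.imp fun _ h => h.localization W T'⟩

lemma smooth_of_retract [Algebra.FormallySmooth K T] (π : T →ₐ[K] T') (σ : T' →ₐ[K] T)
    (h : ∀ z, π (σ z) = z) : Algebra.FormallySmooth K T' :=
  .of_split π ((Ideal.Quotient.mkₐ K _).comp σ) (AlgHom.ext h)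

end

variable (X : MP K)

/-- The character of the grading group given by units. -/
def chi {T : Type} [CommRing T] (w : X.ι → Tˣ) (d : X.ι → ℤ) : Tˣ := ∏ j, w j ^ d j

lemma aeval_scale {T : Type} [CommRing T] [Algebra K T] (z : X.V → T) (w : X.ι → Tˣ)
    {p : X.S} {d : X.ι → ℤ} (hp : p ∈ grading K X.blk d) :
    aeval (fun v => z v * w (X.blk v)) p = aeval z p * chi X w d := by
  classical
  rw [← p.support_sum_monomial_coeff, map_sum, map_sum, Finset.sum_mul]
  refine Finset.sum_congr rfl fun α hα => ?_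
  rw [← hp (mem_support_iff.1 hα), aeval_monomial, aeval_monomial, mul_assoc,
    Finsupp.prod_fintype _ _ (by simp), Finsupp.prod_fintype _ _ (by simp)]
  simp only [mul_pow, Finset.prod_mul_distrib]
  congr 2
  have : chi X w (Finsupp.weight (fun v => (Pi.single (X.blk v) 1 : X.ι → ℤ)) α) =
      ∏ v, w (X.blk v) ^ α v := by
    rw [Finsupp.weight_apply, Finsupp.sum_fintype _ _ (by simp), chi]
    have hz (j) (g : X.V → ℤ) : w j ^ ∑ v, g v = ∏ v, w j ^ g v :=
      map_prod (zpowersHom Tˣ (w j)) (fun v => Multiplicative.ofAdd (g v)) Finset.univ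
    simp only [Finset.sum_apply, hz]
    rw [Finset.prod_comm]
    refine Finset.prod_congr rfl fun v _ => ?_
    rw [Finset.prod_eq_single (X.blk v) (fun j _ hj => by simp [hj]) (by simp)]
    simp
  rw [this]; simp

lemma chart_lift {T : Type} [CommRing T] [Algebra K T] (τ : X.S →ₐ[K] T)
    (hτ : ∀ p ∈ X.I.toIdeal, τ p = 0) (c : X.Chart) (hu : IsUnit (τ (X.x c))) :
    ∃ (w : X.ι → Tˣ) (σ : X.O c →ₐ[K] T), (∀ j, τ (MvPolynomial.X (c.1 j)) * w j = 1) ∧
      ∀ p d, p ∈ grading K X.blk d → σ (Ideal.Quotient.mk _ p) = τ p * chi X w d := by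
  classical
  have hu (j) : IsUnit (τ (MvPolynomial.X (c.1 j))) := isUnit_of_dvd_unit
    (map_dvd τ (Finset.dvd_prod_of_mem (fun j => MvPolynomial.X (c.1 j)) (Finset.mem_univ j))) hu
  let w (j) : Tˣ := (hu j).unit⁻¹
  let ψ : X.S →ₐ[K] T := aeval fun v => τ (MvPolynomial.X v) * w (X.blk v)
  have hψ (p d) (hp : p ∈ grading K X.blk d) : ψ p = τ p * chi X w d := by
    rw [aeval_scale X _ w hp]; exact congrArg (· * _) congr($((aeval_unique τ).symm) p)
  refine ⟨w, Ideal.Quotient.liftₐ _ ψ fun p hp => ?_, fun j => (hu j).mul_val_inv, hψ⟩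
  refine (sup_le (fun p hp => ?_) (Ideal.span_le.2 ?_) : _ ≤ RingHom.ker ψ) hp
  · rw [← DirectSum.sum_support_decompose (grading K X.blk) p]
    refine sum_mem fun d _ => (hψ _ _ (SetLike.coe_mem _)).trans ?_
    rw [hτ _ (X.I.isHomogeneous d hp), zero_mul]
  · rintro _ ⟨j, rfl⟩
    simp [ψ, w, c.2 j]

lemma chi_single {T : Type} [CommRing T] (w : X.ι → Tˣ) (j : X.ι) :
    chi X w (Pi.single j 1) = w j := by
  rw [chi, Finset.prod_eq_single j (fun j _ hj => by simp [hj]) (by simp)]; simp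

lemma away_lift {A T B : Type} [CommRing A] [CommRing T] [CommRing B] [Algebra K A] [Algebra K B]
    [Algebra K T] [Algebra A B] [IsScalarTower K A B] (x : A) [IsLocalization.Away x B]
    (f : A →ₐ[K] T) (h : IsUnit (f x)) : ∃ g : B →ₐ[K] T, ∀ a, g (algebraMap A B a) = f a :=
  ⟨IsLocalization.Away.liftAlgHom x h, IsLocalization.Away.lift_eq x h⟩

lemma smooth_chart {f : X.S} {a : X.ι → ℤ} (hf : f ∈ grading K X.blk a)
    (h : Algebra.FormallySmooth K (Localization.Away (Ideal.Quotient.mk X.I.toIdeal f)))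
    (c : X.Chart) :
    Algebra.FormallySmooth K (Localization.Away (Ideal.Quotient.mk _ f : X.O c)) := by
  classical
  let B := Localization.Away (Ideal.Quotient.mk X.I.toIdeal f)
  let β : X.S →ₐ[K] B := (IsScalarTower.toAlgHom K _ B).comp (Ideal.Quotient.mkₐ K X.I.toIdeal)
  let T := Localization.Away (β (X.x c))
  let τ : X.S →ₐ[K] T := (IsScalarTower.toAlgHom K B T).comp β
  let T' := Localization.Away (Ideal.Quotient.mk _ f : X.O c)
  let τ' : X.S →ₐ[K] T' := (IsScalarTower.toAlgHom K (X.O c) T').comp (Ideal.Quotient.mkₐ K _)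
  have h1 (j) : τ' (MvPolynomial.X (c.1 j)) = 1 := by
    rw [← sub_eq_zero, ← map_one τ', ← map_sub]
    exact (congrArg (algebraMap (X.O c) T') (Ideal.Quotient.eq_zero_iff_mem.2
      (Ideal.mem_sup_right (Ideal.subset_span ⟨j, rfl⟩)))).trans (map_zero _)
  let π₀ : (X.S ⧸ X.I.toIdeal) →ₐ[K] T' := Ideal.Quotient.liftₐ _ τ' fun p hp =>
    (congrArg (algebraMap (X.O c) T') (Ideal.Quotient.eq_zero_iff_mem.2 (Ideal.mem_sup_left hp))).trans
      (map_zero _)
  obtain ⟨π₁, hπ₁⟩ := away_lift (B := B) (Ideal.Quotient.mk X.I.toIdeal f) π₀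
    (IsLocalization.Away.algebraMap_isUnit (S := T') (Ideal.Quotient.mk _ f : X.O c))
  have hπ₁ (p) : π₁ (β p) = τ' p := hπ₁ _
  obtain ⟨π, hπ⟩ := away_lift (B := T) (β (X.x c)) π₁ (by rw [hπ₁, MP.x, map_prod]; simp [h1])
  have hπ (p) : π (τ p) = τ' p := (hπ _).trans (hπ₁ p)
  obtain ⟨w, σ₀, hw, hψ⟩ := chart_lift X τ (fun p hp => (congrArg
    (fun z => algebraMap B T (algebraMap _ B z)) (Ideal.Quotient.eq_zero_iff_mem.2 hp)).trans
    (by simp)) c (IsLocalization.Away.algebraMap_isUnit (S := T) (β (X.x c)))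
  obtain ⟨σ, hσ⟩ := away_lift (B := T') (Ideal.Quotient.mk _ f : X.O c) σ₀
    ((hψ _ _ hf).symm ▸ ((IsLocalization.Away.algebraMap_isUnit (S := B)
      (Ideal.Quotient.mk X.I.toIdeal f)).map (algebraMap B T)).mul (chi X w a).isUnit)
  have hσ (p) : σ (τ' p) = σ₀ (Ideal.Quotient.mk _ p) := hσ _
  refine smooth_of_retract π σ fun z => DFunLike.congr_fun (show π.comp σ = AlgHom.id K T' from
    IsLocalization.algHom_ext (.powers (Ideal.Quotient.mk _ f : X.O c))
      (Ideal.Quotient.algHom_ext K (MvPolynomial.algHom_ext fun v => ?_))) z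
  change π (σ (τ' (MvPolynomial.X v))) = τ' (MvPolynomial.X v)
  have : π (w (X.blk v)) = 1 := by
    have := congrArg π (hw (X.blk v))
    rwa [map_mul, hπ, h1, one_mul, map_one] at this
  rw [hσ, hψ _ _ ((blocks X).mem v), chi_single, map_mul, hπ, this, mul_one]

/-- A cover by nice basic opens. -/
def NiceCover : Prop := ∃ (J : Type) (_ : Fintype J) (f : J → X.S),
  (∀ j, ∃ a, f j ∈ grading K X.blk a) ∧
  (∀ j, Nice K (Localization.Away (Ideal.Quotient.mk X.I.toIdeal (f j)))) ∧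
  ∀ c, X.x c ∈ (X.I.toIdeal ⊔ Ideal.span (Set.range f)).radical

variable {X}

lemma NiceCover.regCover (h : NiceCover X) : RegCover X :=
  let ⟨J, i, f, h1, h2, h3⟩ := h
  ⟨J, i, f, h1, fun j => (h2 j).gd, h3⟩

theorem NiceCover.smooth (h : NiceCover X) (c : X.Chart) : Algebra.Smooth K (X.O c) := by
  obtain ⟨J, i, f, h1, h2, h3⟩ := h
  have : Algebra.FinitePresentation K (X.O c) := Algebra.FinitePresentation.of_finiteType.1
    inferInstance
  refine ⟨Algebra.smoothLocus_eq_univ_iff.1 (Set.eq_univ_of_forall fun p => ?_), this⟩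
  by_cases hp : ∃ j, Ideal.Quotient.mk _ (f j) ∉ p.asIdeal
  · obtain ⟨j, hj⟩ := hp
    obtain ⟨a, ha⟩ := h1 j
    exact Algebra.basicOpen_subset_smoothLocus_iff.2 (smooth_chart X ha (h2 j).smooth c) hj
  push Not at hp
  have : (X.I.toIdeal ⊔ Ideal.span (Set.range f)).radical ≤
      p.asIdeal.comap (Ideal.Quotient.mk _) := by
    rw [Ideal.IsPrime.radical_le_iff inferInstance, sup_le_iff, Ideal.span_le]
    exact ⟨fun r hr => Ideal.mem_comap.2 ((Ideal.Quotient.eq_zero_iff_mem.2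
      (Ideal.mem_sup_left hr)).symm ▸ zero_mem _), by rintro _ ⟨j, rfl⟩; exact hp j⟩
  have := Ideal.mem_comap.1 (this (h3 c))
  have h1 (j) : (Ideal.Quotient.mk _ (MvPolynomial.X (c.1 j)) : X.O c) = Ideal.Quotient.mk _ 1 :=
    Ideal.Quotient.eq.2 (Ideal.mem_sup_right (Ideal.subset_span ⟨j, rfl⟩))
  rw [MP.x, map_prod, Finset.prod_eq_one fun j _ => h1 j] at this
  exact (p.isPrime.ne_top ((Ideal.eq_top_iff_one _).2 this)).elim

variable {Rt : Type} [CommRing Rt] [Algebra K Rt] (φ : X.S →ₐ[K] Rt)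
  (hI : X.I.toIdeal = RingHom.ker φ)
include hI

lemma nice_of_cox {f : X.S} (hs : ∀ r : Rt, ∃ (k : ℕ) (s : X.S), φ f ^ k * r = φ s)
    (h : Nice K (Localization.Away (φ f))) :
    Nice K (Localization.Away (Ideal.Quotient.mk X.I.toIdeal f)) := by
  let T := Localization.Away (φ f)
  let φ' : (X.S ⧸ X.I.toIdeal) →ₐ[K] Rt := Ideal.Quotient.liftₐ _ φ fun p hp => by
    rwa [hI] at hp
  have hi : Function.Injective φ' := (injective_iff_map_eq_zero _).2 fun p hp => by
    obtain ⟨p, rfl⟩ := Ideal.Quotient.mk_surjective p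
    exact Ideal.Quotient.eq_zero_iff_mem.2 (hI ▸ hp)
  let := ((IsScalarTower.toAlgHom K Rt T).comp φ').toAlgebra
  have : IsScalarTower K (X.S ⧸ X.I.toIdeal) T := .of_algebraMap_eq fun c =>
    (((IsScalarTower.toAlgHom K Rt T).comp φ').commutes c).symm
  have : IsLocalization.Away (Ideal.Quotient.mk X.I.toIdeal f) T := by
    refine IsLocalization.Away.mk _ (IsLocalization.Away.algebraMap_isUnit (S := T) (φ f))
      (fun z => ?_) fun p q e => ?_
    · obtain ⟨n, r, hr⟩ := IsLocalization.Away.surj (φ f) z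
      obtain ⟨k, s, hs⟩ := hs r
      refine ⟨n + k, Ideal.Quotient.mk _ s, ?_⟩
      change z * algebraMap Rt T (φ f) ^ (n + k) = algebraMap Rt T (φ s)
      rw [pow_add, ← mul_assoc, hr, ← hs, map_mul, map_pow, mul_comm]
    · obtain ⟨n, hn⟩ := IsLocalization.Away.exists_of_eq (S := T) (φ f) e
      exact ⟨n, hi (by rw [map_mul, map_mul, map_pow]; exact hn)⟩
  exact h.equiv ((IsLocalization.algEquiv (.powers (Ideal.Quotient.mk X.I.toIdeal f)) T
    _).restrictScalars K)

/-- The geometric input: a Cox-type presentation with nice charts. -/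
theorem coxVar [IsDomain Rt] {J : Type} [Fintype J] (g : J → X.Chart)
    (hs : ∀ c (r : Rt), ∃ (k : ℕ) (s : X.S), φ (X.x c) ^ k * r = φ s)
    (hn : ∀ j, Nice K (Localization.Away (φ (X.x (g j)))))
    (hc : ∀ c, φ (X.x c) ∈ (Ideal.span (Set.range fun j => φ (X.x (g j)))).radical)
    (pt : Rt →ₐ[K] K) (c₀ : X.Chart) (hpt : pt (φ (X.x c₀)) ≠ 0) :
    X.SmoothVar ∧ RegCover X := by
  have h : NiceCover X := by
    refine ⟨J, inferInstance, fun j => X.x (g j), fun j => ⟨_, SetLike.prod_mem_graded _ _ _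
      fun i _ => (blocks X).mem _⟩, fun j => nice_of_cox φ hI (hs _) (hn j), fun c => ?_⟩
    obtain ⟨m, hm⟩ := hc c
    have key (z) (hz : z ∈ Ideal.span (Set.range fun j => φ (X.x (g j)))) : ∃ k : ℕ,
        ∃ s ∈ Ideal.span (Set.range fun j => X.x (g j)), φ (X.x c) ^ k * z = φ s := by
      induction hz using Submodule.span_induction with
      | mem z hz => obtain ⟨j, rfl⟩ := hz; exact ⟨0, _, Ideal.subset_span ⟨j, rfl⟩, by simp⟩
      | zero => exact ⟨0, 0, zero_mem _, by simp⟩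
      | add y z _ _ hy hz =>
        obtain ⟨k, s, h1, h2⟩ := hy
        obtain ⟨l, t, h3, h4⟩ := hz
        refine ⟨k + l, X.x c ^ l * s + X.x c ^ k * t,
          add_mem (Ideal.mul_mem_left _ _ h1) (Ideal.mul_mem_left _ _ h3), ?_⟩
        simp only [map_add, map_mul, map_pow, ← h2, ← h4]; ring
      | smul r z _ hz =>
        obtain ⟨k, s, h1, h2⟩ := hz
        obtain ⟨l, t, h4⟩ := hs c r
        refine ⟨k + l, t * s, Ideal.mul_mem_left _ _ h1, ?_⟩
        simp only [map_mul, ← h2, ← h4, smul_eq_mul]; ring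
    obtain ⟨k, s, h1, h2⟩ := key _ hm
    refine ⟨k + m, Submodule.mem_sup.2 ⟨X.x c ^ (k + m) - s, ?_, s, h1, by ring⟩⟩
    rw [hI, RingHom.mem_ker, map_sub, map_pow, pow_add, h2, sub_self]
  obtain ⟨-, σ, -⟩ := chart_lift X (pt.comp φ) (fun p hp => by
    rw [hI] at hp; exact (congrArg pt hp).trans (map_zero _)) c₀ hpt.isUnit
  exact ⟨X.smoothVar_iff.2 ⟨hI ▸ RingHom.ker_isPrime φ, h.smooth, c₀, ⟨σ⟩⟩, h.regCover⟩

end FMX
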