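import Mathlib

/-! Two fully faithful functors out of one category with enough common cones give an exact
equivalence of the essential images. -/

set_option backward.isDefEq.respectTransparency false
set_option linter.unusedSectionVars false

open CategoryTheory Limits Pretriangulated ZeroObject

noncomputable section
namespace FMX

variable {C D D' : Type*} [Category C] [Preadditive C] [HasZeroObject C] [HasShift C ℤ]
  [Category D] [Preadditive D] [HasZeroObject D] [HasShift D ℤ]
  [∀ n : ℤ, (shiftFunctor D n).Additive] [Pretriangulated D]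
  [Category D'] [Preadditive D'] [HasZeroObject D'] [HasShift D' ℤ]
  [∀ n : ℤ, (shiftFunctor D' n).Additive] [Pretriangulated D']
  (G : C ⥤ D) [G.CommShift ℤ] [G.Additive] [G.Full] [G.Faithful]
  (G' : C ⥤ D') [G'.CommShift ℤ] [G'.Additive] [G'.Full] [G'.Faithful]

include G in
lemma shift_additive (n : ℤ) : (shiftFunctor C n).Additive :=
  have := Functor.additive_of_iso (G.commShiftIso n).symm
  Functor.additive_of_comp_faithful _ G

set_option backward.defeqAttrib.useBackward true in
/-- The pretriangulated structure pulled back along `G`. -/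
@[reducible] def pullT [∀ n : ℤ, (shiftFunctor C n).Additive]
    (h : ∀ {X Y : C} (f : X ⟶ Y), ∃ (Z : C) (g : Y ⟶ Z) (h : Z ⟶ X⟦(1 : ℤ)⟧),
      G.mapTriangle.obj (Triangle.mk f g h) ∈ distTriang D) : Pretriangulated C where
  distinguishedTriangles := G.mapTriangle.obj ⁻¹' (distTriang D)
  isomorphic_distinguished T₁ hT₁ T₂ e :=
    isomorphic_distinguished _ hT₁ _ (G.mapTriangle.mapIso e)
  contractible_distinguished X :=
    isomorphic_distinguished _ (contractible_distinguished (G.obj X)) _
      (Triangle.isoMk _ _ (Iso.refl _) (Iso.refl _) G.mapZeroObject)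
  distinguished_cocone_triangle f := h f
  rotate_distinguished_triangle T :=
    (rotate_distinguished_triangle (G.mapTriangle.obj T)).trans
      (distinguished_iff_of_iso (G.mapTriangleRotateIso.app T))
  complete_distinguished_triangle_morphism T₁ T₂ hT₁ hT₂ a b comm := by
    obtain ⟨φ, h₁, h₂⟩ : ∃ φ : G.mapTriangle.obj T₁ ⟶ G.mapTriangle.obj T₂,
        φ.hom₁ = G.map a ∧ φ.hom₂ = G.map b :=
      ⟨completeDistinguishedTriangleMorphism _ _ hT₁ hT₂ (G.map a) (G.map b)
        (by simpa using G.congr_map comm), rfl, rfl⟩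
    obtain ⟨ψ, rfl⟩ := G.mapTriangle.map_surjective φ
    obtain rfl : ψ.hom₁ = a := G.map_injective h₁
    obtain rfl : ψ.hom₂ = b := G.map_injective h₂
    exact ⟨ψ.hom₃, ψ.comm₂, ψ.comm₃⟩

lemma essImage_isTriangulated
    (h : ∀ {X Y : C} (f : X ⟶ Y), ∃ (Z : C) (g : Y ⟶ Z) (h : Z ⟶ X⟦(1 : ℤ)⟧),
      G.mapTriangle.obj (Triangle.mk f g h) ∈ distTriang D) : G.essImage.IsTriangulated := by
  have := shift_additive G
  let := pullT G h
  have : G.IsTriangulated := ⟨fun _ h => h⟩
  infer_instance

/-- The exact linear equivalence between the essential images. -/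
theorem exists_exact_equivalence (K : Type*) [Field K] [Linear K D] [Linear K D']
    [G.essImage.IsTriangulated] [G'.essImage.IsTriangulated]
    (h : ∀ {X Y : C} (f : X ⟶ Y), ∃ (Z : C) (g : Y ⟶ Z) (h : Z ⟶ X⟦(1 : ℤ)⟧),
      G.mapTriangle.obj (Triangle.mk f g h) ∈ distTriang D ∧
      G'.mapTriangle.obj (Triangle.mk f g h) ∈ distTriang D')
    (lin : ∀ (c : K) (X : C), ∃ l : X ⟶ X, G.map l = c • 𝟙 _ ∧ G'.map l = c • 𝟙 _) :
    ∃ (F : G.essImage.FullSubcategory ⥤ G'.essImage.FullSubcategory) (_ : F.CommShift ℤ),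
      F.IsTriangulated ∧ F.IsEquivalence ∧ ∃ _ : F.Additive, F.Linear K ∧
        Nonempty (G.toEssImage ⋙ F ≅ G'.toEssImage) := by
  have := shift_additive G
  let := pullT G fun f => let ⟨Z, a, b, c, _⟩ := h f; ⟨Z, a, b, c⟩
  have : G.IsTriangulated := ⟨fun _ h => h⟩
  have : G'.IsTriangulated := ⟨fun T hT => by
    obtain ⟨Z, a, b, c, d⟩ := h T.mor₁
    exact isomorphic_distinguished _ d _ (G'.mapTriangle.mapIso
      (isoTriangleOfIso₁₂ T (Triangle.mk T.mor₁ a b) hT c (Iso.refl _) (Iso.refl _) (by simp)))⟩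
  let i₁ : G.toEssImage.CommShift ℤ := inferInstanceAs ((G.essImage.lift G _).CommShift ℤ)
  let : G'.toEssImage.CommShift ℤ := inferInstanceAs ((G'.essImage.lift G' _).CommShift ℤ)
  have i₂ : G.toEssImage.IsTriangulated := inferInstanceAs (G.essImage.lift G _).IsTriangulated
  have : G'.toEssImage.IsTriangulated := inferInstanceAs (G'.essImage.lift G' _).IsTriangulated
  let E := G.toEssImage.asEquivalence
  let : E.functor.CommShift ℤ := i₁
  let := E.commShiftInverse ℤ
  have := E.commShift_of_functor ℤ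
  have : E.IsTriangulated := .mk' E i₂
  let e : G.toEssImage ⋙ E.inverse ⋙ G'.toEssImage ≅ G'.toEssImage :=
    (Functor.associator _ _ _).symm ≪≫ Functor.isoWhiskerRight E.unitIso.symm _ ≪≫
      Functor.leftUnitor _
  refine ⟨E.inverse ⋙ G'.toEssImage, inferInstance, inferInstance, inferInstance, inferInstance,
    (Functor.linear_iff K _).2 fun X c => ?_, ⟨e⟩⟩
  obtain ⟨l, h₁, h₂⟩ := lin c (E.inverse.obj X)
  have : E.inverse.map (c • 𝟙 X) = l := by
    apply E.functor.map_injective
    have : E.functor.map l = c • 𝟙 _ := ObjectProperty.hom_ext _ h₁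
    rw [this, E.fun_inv_map]
    simp
  exact ObjectProperty.hom_ext _ (by rw [Functor.comp_map, this]; exact h₂)

end FMX
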