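import Pool.Agent.MP_0e6a9f_ag.H32.HFin

/-! A subcategory generated by an exceptional collection is admissible. -/

set_option backward.isDefEq.respectTransparency false
set_option linter.unusedSectionVars false

open CategoryTheory Limits Pretriangulated Module

namespace FMX

variable {K : Type*} [Field K] {T : Type*} [Category T] [Preadditive T] [Linear K T]
  [HasShift T ℤ] [∀ n : ℤ, (shiftFunctor T n).Additive] [HasZeroObject T] [Pretriangulated T]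
  [IsTriangulated T]

lemma finrank_lt_of {V W : Type*} [AddCommGroup V] [AddCommGroup W] [Module K V] [Module K W]
    [Module.Finite K V] (g : V →ₗ[K] W) (hg : Function.Surjective g) {v : V} (hv : v ≠ 0)
    (h : g v = 0) : finrank K W < finrank K V := by
  have h1 := g.finrank_range_add_finrank_ker
  rw [LinearMap.range_eq_top.2 hg, finrank_top] at h1
  have : Nontrivial (LinearMap.ker g) := ⟨⟨v, h⟩, 0, fun e => hv congr($(e).1)⟩
  have := finrank_pos (R := K) (M := LinearMap.ker g)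
  omega

lemma kill_right (Q : ObjectProperty T) [Q.IsTriangulated] (F : ℤ → T) (hF : ∀ j, Q (F j))
    (hex : ∀ k m (g : F k ⟶ (F m)⟦(1 : ℤ)⟧), g = 0 ∨ IsIso g) (J : Finset ℤ) (c : ℕ) :
    ∀ Y : T, (∀ j, Module.Finite K (F j ⟶ Y)) → (∀ j ∉ J, ∀ g : F j ⟶ Y, g = 0) →
      ∑ j ∈ J, finrank K (F j ⟶ Y) = c →
      ∃ (Y' : T) (g : Y ⟶ Y'), Q.trW g ∧ ∀ j (f : F j ⟶ Y'), f = 0 := by
  induction c using Nat.strong_induction_on with | _ c ih =>
  intro Y hfin h0 hc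
  by_cases h : ∀ j (f : F j ⟶ Y), f = 0
  · exact ⟨Y, 𝟙 Y, Q.trW.id_mem Y, h⟩
  push Not at h
  obtain ⟨m, f, hf⟩ := h
  obtain ⟨Y', i, δ, hD⟩ := distinguished_cocone_triangle f
  have hs (k : ℤ) : Function.Surjective (Linear.rightComp K (F k) i) := fun g => by
    rcases hex k m (g ≫ δ) with h | h
    · obtain ⟨g', hg'⟩ := Triangle.coyoneda_exact₃ _ hD g h
      exact ⟨g', hg'.symm⟩
    · refine (hf ((shiftFunctor T (1 : ℤ)).map_injective ?_)).elim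
      have : δ ≫ f⟦(1 : ℤ)⟧' = 0 := comp_distTriang_mor_zero₃₁ _ hD
      rw [← cancel_epi (g ≫ δ), Category.assoc, this]; simp
  obtain ⟨Y'', g, hg, h⟩ := ih _ (hc ▸ Finset.sum_lt_sum
      (fun k _ => LinearMap.finrank_le_finrank_of_surjective (hs k))
      ⟨m, by_contra fun hm => hf (h0 m hm f),
        finrank_lt_of _ (hs m) hf (comp_distTriang_mor_zero₁₂ _ hD)⟩) Y'
    (fun k => Module.Finite.of_surjective _ (hs k))
    (fun k hk g => by obtain ⟨g', rfl⟩ := hs k g; simp [h0 k hk g']) rfl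
  exact ⟨Y'', i ≫ g, Q.trW.comp_mem _ _ (ObjectProperty.trW.mk' Q hD (hF m)) hg, h⟩

lemma kill_left (Q : ObjectProperty T) [Q.IsTriangulated] (F : ℤ → T) (hF : ∀ j, Q (F j))
    (hex : ∀ k m (g : F k ⟶ (F m)⟦(1 : ℤ)⟧), g = 0 ∨ IsIso g) (J : Finset ℤ) (c : ℕ) :
    ∀ Y : T, (∀ j, Module.Finite K (Y ⟶ F j)) → (∀ j ∉ J, ∀ g : Y ⟶ F j, g = 0) →
      ∑ j ∈ J, finrank K (Y ⟶ F j) = c →
      ∃ (Y' : T) (g : Y' ⟶ Y), Q.trW g ∧ ∀ j (f : Y' ⟶ F j), f = 0 := by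
  induction c using Nat.strong_induction_on with | _ c ih =>
  intro Y hfin h0 hc
  by_cases h : ∀ j (f : Y ⟶ F j), f = 0
  · exact ⟨Y, 𝟙 Y, Q.trW.id_mem Y, h⟩
  push Not at h
  obtain ⟨m, f, hf⟩ := h
  obtain ⟨Y', i, δ, hD⟩ := distinguished_cocone_triangle₁ f
  have hs (k : ℤ) : Function.Surjective (Linear.leftComp K (F k) i) := fun g => by
    rcases hex m k (δ ≫ g⟦(1 : ℤ)⟧') with h | h
    · obtain ⟨g', hg'⟩ := Triangle.yoneda_exact₂ _
        (rot_of_distTriang _ (rot_of_distTriang _ hD)) (g⟦(1 : ℤ)⟧') h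
      obtain ⟨g', rfl⟩ := (shiftFunctor T (1 : ℤ)).map_surjective (X := Y) (Y := F k) g'
      refine ⟨-g', (shiftFunctor T (1 : ℤ)).map_injective ?_⟩
      rw [hg']; simp
    · refine (hf ?_).elim
      have : f ≫ δ = 0 := comp_distTriang_mor_zero₂₃ _ hD
      rw [← cancel_mono (δ ≫ g⟦(1 : ℤ)⟧'), reassoc_of% this]; simp
  obtain ⟨Y'', g, hg, h⟩ := ih _ (hc ▸ Finset.sum_lt_sum
      (fun k _ => LinearMap.finrank_le_finrank_of_surjective (hs k))
      ⟨m, by_contra fun hm => hf (h0 m hm f),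
        finrank_lt_of _ (hs m) hf (comp_distTriang_mor_zero₁₂ _ hD)⟩) Y'
    (fun k => Module.Finite.of_surjective _ (hs k))
    (fun k hk g => by obtain ⟨g', rfl⟩ := hs k g; simp [h0 k hk g']) rfl
  exact ⟨Y'', g ≫ i, Q.trW.comp_mem _ _ hg (ObjectProperty.trW.mk Q hD (hF m)), h⟩

omit [IsTriangulated T] [HasZeroObject T] [Pretriangulated T] in
lemma shift_cases {X Y : T} (k m : ℤ) (g : X⟦k⟧ ⟶ Y⟦m⟧) :
    ∃ (g' : X ⟶ Y⟦m - k⟧) (e : Y⟦m - k⟧⟦k⟧ ≅ Y⟦m⟧), g = g'⟦k⟧' ≫ e.hom := by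
  let e := ((shiftFunctorAdd' T (m - k) k m (by simp)).app Y).symm
  obtain ⟨g', hg⟩ := (shiftFunctor T k).map_surjective (g ≫ e.inv)
  exact ⟨g', e, by simp [hg]⟩

/-- An exceptional family, ordered by a height function. -/
structure IsExc {ι : Type*} (E : ι → T) (ht : ι → ℕ) : Prop where
  self : ∀ i (n : ℤ) (g : E i ⟶ (E i)⟦n⟧), g = 0 ∨ IsIso g
  down : ∀ i j, i ≠ j → ht j ≤ ht i → ∀ (n : ℤ) (g : E i ⟶ (E j)⟦n⟧), g = 0

variable {ι : Type*} {E : ι → T} {ht : ι → ℕ}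

omit [IsTriangulated T] [HasZeroObject T] [Pretriangulated T] in
lemma IsExc.self' (h : IsExc E ht) (i : ι) (k m : ℤ) (g : (E i)⟦k⟧ ⟶ (E i)⟦m⟧⟦(1 : ℤ)⟧) :
    g = 0 ∨ IsIso g := by
  let e₁ := (shiftFunctorAdd T m 1).app (E i)
  obtain ⟨g', e, hg⟩ := shift_cases k (m + 1) (g ≫ e₁.inv)
  rw [Iso.comp_inv_eq] at hg
  rcases h.self i _ g' with rfl | h
  · left; simp [hg]
  · right; rw [hg]; infer_instance

omit [IsTriangulated T] [HasZeroObject T] [Pretriangulated T] in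
lemma IsExc.down' (h : IsExc E ht) {i j : ι} (hij : i ≠ j) (hh : ht j ≤ ht i) (k m : ℤ)
    (g : (E i)⟦k⟧ ⟶ (E j)⟦m⟧) : g = 0 := by
  obtain ⟨g', e, rfl⟩ := shift_cases k m g
  simp [h.down i j hij hh _ g']

/-- The shifts of the `E i`, `i ∈ s`. -/
def shifts (E : ι → T) (s : Set ι) : ObjectProperty T := fun X => ∃ i ∈ s, ∃ n : ℤ,
  Nonempty (X ≅ (E i)⟦n⟧)

instance (s : Set ι) : (shifts E s).IsStableUnderShift ℤ where
  isStableUnderShiftBy a := ⟨by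
    rintro X ⟨i, hi, n, ⟨e⟩⟩
    exact ⟨i, hi, n + a, ⟨(shiftFunctor T a).mapIso e ≪≫ ((shiftFunctorAdd T n a).app _).symm⟩⟩⟩

variable [∀ n : ℤ, (shiftFunctor T n).Linear K] (h : IsExc E ht) (P B : ObjectProperty T)
  [P.IsTriangulated] [P.IsClosedUnderIsomorphisms] [B.IsTriangulated]
  [B.IsClosedUnderIsomorphisms] (hPB : P ≤ B) (hE : ∀ i, P (E i))
include h hPB hE

lemma kill_all_right (hfin : ∀ i Y, B Y → HFin K (E i) Y) (Y : T) (hY : B Y) (s : Finset ι) :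
    ∃ (Y' : T) (g : Y ⟶ Y'), P.trW g ∧ B Y' ∧ (shifts E s).rightOrthogonal Y' := by
  classical
  induction s using Finset.induction_on_min_value ht with
  | empty => exact ⟨Y, 𝟙 Y, P.trW.id_mem Y, hY, fun X f ⟨i, hi, _⟩ => by simp at hi⟩
  | insert a s ha hs ih =>
    obtain ⟨Y₁, g, hg, hB, ho⟩ := ih
    obtain ⟨h1, J, h2⟩ := (hfin a Y₁ hB).out
    obtain ⟨Y₂, g', hg', h0⟩ := kill_right (K := K) (P ⊓ (shifts E s).rightOrthogonal)
      (fun n => (E a)⟦n⟧) (fun n => ⟨P.le_shift n _ (hE a), by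
        rintro X f ⟨i, hi, m, ⟨e⟩⟩
        exact zero_iso e.symm (Iso.refl _)
          (h.down' (by rintro rfl; exact ha hi) (hs i hi) m n) f⟩) (h.self' a) J _ Y₁ h1 h2 rfl
    have hg'' := hg'
    obtain ⟨Z, u, v, hD, hZ⟩ := (ObjectProperty.trW_iff' _ _).1 hg''
    refine ⟨Y₂, g ≫ g', P.trW.comp_mem _ _ hg (ObjectProperty.trW_monotone inf_le_left _ hg'),
      B.ext_of_isTriangulatedClosed₃ _ hD (hPB _ hZ.1) hB, ?_⟩
    rintro X f ⟨i, hi, m, ⟨e⟩⟩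
    rcases Finset.mem_insert.1 hi with rfl | hi
    · exact zero_iso e.symm (Iso.refl _) (h0 m) f
    · exact ((shifts E s).rightOrthogonal.ext_of_isTriangulatedClosed₃ _ hD hZ.2 ho) f
        ⟨i, hi, m, ⟨e⟩⟩

omit [∀ n : ℤ, (shiftFunctor T n).Linear K] in
lemma kill_all_left (hfin : ∀ i Y, B Y → HFin K Y (E i)) (Y : T) (hY : B Y) (s : Finset ι) :
    ∃ (Y' : T) (g : Y' ⟶ Y), P.trW g ∧ B Y' ∧ (shifts E s).leftOrthogonal Y' := by
  classical
  induction s using Finset.induction_on_max_value ht with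
  | empty => exact ⟨Y, 𝟙 Y, P.trW.id_mem Y, hY, fun X f ⟨i, hi, _⟩ => by simp at hi⟩
  | insert a s ha hs ih =>
    obtain ⟨Y₁, g, hg, hB, ho⟩ := ih
    obtain ⟨h1, J, h2⟩ := hfin a Y₁ hB
    obtain ⟨Y₂, g', hg', h0⟩ := kill_left (K := K) (P ⊓ (shifts E s).leftOrthogonal)
      (fun n => (E a)⟦n⟧) (fun n => ⟨P.le_shift n _ (hE a), by
        rintro X f ⟨i, hi, m, ⟨e⟩⟩
        exact zero_iso (Iso.refl _) e.symm
          (h.down' (by rintro rfl; exact ha hi) (hs i hi) n m) f⟩) (h.self' a) J _ Y₁ h1 h2 rfl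
    have hg'' := hg'
    obtain ⟨Z, u, v, hD, hZ⟩ := hg''
    refine ⟨Y₂, g' ≫ g, P.trW.comp_mem _ _ (ObjectProperty.trW_monotone inf_le_left _ hg') hg,
      B.ext_of_isTriangulatedClosed₁ _ hD hB (hPB _ hZ.1), ?_⟩
    rintro X f ⟨i, hi, m, ⟨e⟩⟩
    rcases Finset.mem_insert.1 hi with rfl | hi
    · exact zero_iso (Iso.refl _) e.symm (h0 m) f
    · exact ((shifts E s).leftOrthogonal.ext_of_isTriangulatedClosed₁ _ hD ho hZ.2) f
        ⟨i, hi, m, ⟨e⟩⟩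

variable [Fintype ι] (hgen : ThickGen (fun X => ∃ i, X = E i) P)
include hgen

/-- Every object of `B` has a coreflection into `P`. -/
theorem exists_coreflection (hfin : ∀ i Y, B Y → HFin K (E i) Y) (Y : T) (hY : B Y) :
    ∃ (A : T) (u : A ⟶ Y), P A ∧ ∀ X, P X → Function.Bijective fun f : X ⟶ A => f ≫ u := by
  obtain ⟨Y', g, hg, -, ho⟩ := kill_all_right (K := K) h P B hPB hE hfin Y hY Finset.univ
  obtain ⟨A, u, v, hD, hA⟩ := (ObjectProperty.trW_iff' _ _).1 hg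
  refine ⟨A, u, hA, fun X hX => ?_⟩
  have hX' := hgen (shifts E (Finset.univ : Finset ι)).rightOrthogonal.leftOrthogonal
    inferInstance ⟨fun e h Z f hZ => zero_retract e.i e.r (𝟙 Z) (𝟙 Z) e.retract (by simp)
      (fun f => h f hZ) f⟩
    (by rintro _ ⟨i, rfl⟩ Z f hZ; exact hZ f ⟨i, by simp, 0, ⟨((shiftFunctorZero T ℤ).app _).symm⟩⟩)
    X hX
  rw [← ObjectProperty.isColocal_trW] at hX'
  exact hX' u (ObjectProperty.trW.mk _ hD ho)

omit [∀ n : ℤ, (shiftFunctor T n).Linear K] in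
/-- Every object of `B` has a reflection into `P`. -/
theorem exists_reflection (hfin : ∀ i Y, B Y → HFin K Y (E i)) (Y : T) (hY : B Y) :
    ∃ (A : T) (u : Y ⟶ A), P A ∧ ∀ X, P X → Function.Bijective fun f : A ⟶ X => u ≫ f := by
  obtain ⟨Y', g, ⟨A, u, v, hD, hA⟩, -, ho⟩ :=
    kill_all_left (K := K) h P B hPB hE hfin Y hY Finset.univ
  refine ⟨A, u, hA, fun X hX => ?_⟩
  have hX' := hgen (shifts E (Finset.univ : Finset ι)).leftOrthogonal.rightOrthogonal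
    inferInstance ⟨fun e h Z f hZ => zero_retract (𝟙 Z) (𝟙 Z) e.i e.r (by simp) e.retract
      (fun f => h f hZ) f⟩
    (by rintro _ ⟨i, rfl⟩ Z f hZ; exact hZ f ⟨i, by simp, 0, ⟨((shiftFunctorZero T ℤ).app _).symm⟩⟩)
    X hX
  rw [← ObjectProperty.isLocal_trW] at hX'
  exact hX' u (ObjectProperty.trW.mk' _ hD ho)

/-- The inclusion `P → B` has a right adjoint. -/
theorem isLeftAdjoint_ιOfLE (hfin : ∀ i Y, B Y → HFin K (E i) Y) :
    (ObjectProperty.ιOfLE hPB).IsLeftAdjoint := by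
  refine Functor.isLeftAdjoint_of_rightAdjointObjIsDefined_eq_top (top_unique fun Y _ => ?_)
  obtain ⟨A, u, hA, hu⟩ := exists_coreflection (K := K) h P B hPB hE hgen hfin Y.obj Y.property
  refine ⟨⟨A, hA⟩, ⟨⟨fun {X} => Equiv.ofBijective
    (fun f => ObjectProperty.homMk (f.hom ≫ u)) ⟨fun f g e => ?_, fun f => ?_⟩, fun f g => ?_⟩⟩⟩
  · exact ObjectProperty.hom_ext _ ((hu _ X.property).1 congr($(e).hom))
  · obtain ⟨g, hg⟩ := (hu _ X.property).2 f.hom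
    exact ⟨ObjectProperty.homMk g, ObjectProperty.hom_ext _ hg⟩
  · exact ObjectProperty.hom_ext _ (Category.assoc _ _ _)

omit [∀ n : ℤ, (shiftFunctor T n).Linear K] in
/-- The inclusion `P → B` has a left adjoint. -/
theorem isRightAdjoint_ιOfLE (hfin : ∀ i Y, B Y → HFin K Y (E i)) :
    (ObjectProperty.ιOfLE hPB).IsRightAdjoint := by
  refine Functor.isRightAdjoint_of_leftAdjointObjIsDefined_eq_top (top_unique fun Y _ => ?_)
  obtain ⟨A, u, hA, hu⟩ := exists_reflection (K := K) h P B hPB hE hgen hfin Y.obj Y.property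
  refine ⟨⟨A, hA⟩, ⟨⟨fun {X} => Equiv.ofBijective
    (fun f => ObjectProperty.homMk (u ≫ f.hom)) ⟨fun f g e => ?_, fun f => ?_⟩, fun f g => ?_⟩⟩⟩
  · exact ObjectProperty.hom_ext _ ((hu _ X.property).1 congr($(e).hom))
  · obtain ⟨g, hg⟩ := (hu _ X.property).2 f.hom
    exact ⟨ObjectProperty.homMk g, ObjectProperty.hom_ext _ hg⟩
  · exact ObjectProperty.hom_ext _ (Category.assoc _ _ _).symm

end FMX
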