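import Pool.Agent.MP_0e6a9f_ag.H32.Thick
import Pool.Agent.MP_0e6a9f_ag.H32.Exc
import Pool.Agent.MP_0e6a9f_ag.H68.Tors

/-! Properness of `D^b(coh)` and admissibility of exceptional collections. -/

set_option backward.isDefEq.respectTransparency false
set_option linter.unusedSectionVars false

open CategoryTheory Limits FMD MvPolynomial

noncomputable section
namespace FMX

lemma IsTors.hfin_fr {K R ι σ C : Type} [Field K] [CommRing R] [Algebra K R] [Fintype ι]
    [DecidableEq ι] [Fintype σ] {A : (ι → ℤ) → Submodule K R} [GradedAlgebra A]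
    {I : HomogeneousIdeal A} {blk : σ → ι} {y : σ → R} {x : C → R} (B : Blocks A blk y x)
    (hN : IsTors x (Tors I x)) (d e : ι → ℤ) :
    HFin K ((Tors I x).trW.Q.obj ((FMX.sg _ 0).obj (fr A I d)))
      ((Tors I x).trW.Q.obj ((FMX.sg _ 0).obj (fr A I e))) := by
  classical
  exact IsTors.serre B hN (Tors I x).trW.Q d Finset.univ (fr A I e)
    ⟨(inferInstance : Module.Finite R (R ⧸ I.toIdeal)), by simp⟩ _ rfl

variable {K : Type} [Field K] (X : MP K)

lemma isTors : IsTors X.x (Tors X.I X.x) := fun Y => (tors_iff X.I X.x Y.as).trans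
  ⟨fun h c n => h c _ n _ (by simp) rfl, fun h c i j k hi hk => by
    obtain rfl : i = j - 1 := by omega
    subst hk
    exact h c j⟩

lemma blocks : Blocks (grading K X.blk) X.blk MvPolynomial.X X.x where
  mem v := isWeightedHomogeneous_X K _ v
  gen := adjoin_range_X
  dvd c i := ⟨c.1 i, c.2 i, Finset.dvd_prod_of_mem _ (Finset.mem_univ i)⟩
  chart ch h := ⟨⟨ch, h⟩, rfl⟩

/-- `X` is covered by finitely many basic opens whose rings have finite global dimension. -/
def RegCover : Prop := ∃ (J : Type) (_ : Fintype J) (f : J → X.S),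
  (∀ j, ∃ a, f j ∈ grading K X.blk a) ∧
  (∀ j, ∃ n, GD (Localization.Away (Ideal.Quotient.mk X.I.toIdeal (f j))) n) ∧
  ∀ c, X.x c ∈ (X.I.toIdeal ⊔ Ideal.span (Set.range f)).radical

variable {X}

/-- `D^b(coh X)` is generated by the twists of the structure sheaf. -/
theorem RegCover.thickGen (h : RegCover X) :
    ThickGen (fun Y => ∃ d, Y = (Tors X.I X.x).trW.Q.obj ((sg _ 0).obj (fr _ X.I d)))
      (Db X.I X.x) := by
  obtain ⟨J, _, f, h1, h2, h3⟩ := h
  exact (isTors X).thickGen h1 h2 h3 _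

/-- All total Hom spaces in `D^b(coh X)` are finite-dimensional. -/
theorem RegCover.hfin (h : RegCover X) {Y Z : D X.I X.x} (hY : Db X.I X.x Y)
    (hZ : Db X.I X.x Z) : HFin K Y Z := by
  refine hfin_of_gen h.thickGen h.thickGen (fun _ _ ⟨d, h⟩ ⟨e, h'⟩ => ?_) hY hZ
  rw [h, h']
  exact (isTors X).hfin_fr (blocks X) d e

/-- A subcategory of `D^b(coh X)` generated by an exceptional collection is admissible. -/
theorem RegCover.adm (h : RegCover X) {ι : Type} [Fintype ι] {E : ι → D X.I X.x} {ht : ι → ℕ}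
    (hE : IsExc E ht) (P : ObjectProperty (D X.I X.x)) [P.IsTriangulated]
    [hP : P.IsClosedUnderIsomorphisms] (le : P ≤ Db X.I X.x) (mem : ∀ i, P (E i))
    (gen : ThickGen (fun Y => ∃ i, Y = E i) P) : Adm X.I X.x P where
  le := le
  iso := hP
  left := by
    refine Functor.isRightAdjoint_of_leftAdjointObjIsDefined_eq_top (top_unique fun Y _ => ?_)
    obtain ⟨A, u, hA, hu⟩ := exists_reflection (K := K) hE P (finL K fun Y => ∃ i, Y = E i)
      (fun Z hZ _ ⟨i, e⟩ => e ▸ h.hfin (le _ hZ) (le _ (mem i))) mem gen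
      (fun i Y hY => hY _ ⟨i, rfl⟩) Y.obj fun _ ⟨i, e⟩ => e ▸ h.hfin Y.property (le _ (mem i))
    refine ⟨⟨A, hA⟩, ⟨⟨fun {Z} => Equiv.ofBijective
      (fun f => ObjectProperty.homMk (u ≫ f.hom)) ⟨fun f g e => ?_, fun f => ?_⟩, fun f g => ?_⟩⟩⟩
    · exact ObjectProperty.hom_ext _ ((hu _ Z.property).1 congr($(e).hom))
    · obtain ⟨g, hg⟩ := (hu _ Z.property).2 f.hom
      exact ⟨ObjectProperty.homMk g, ObjectProperty.hom_ext _ hg⟩
    · exact ObjectProperty.hom_ext _ (Category.assoc _ _ _).symm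
  right := by
    refine Functor.isLeftAdjoint_of_rightAdjointObjIsDefined_eq_top (top_unique fun Y _ => ?_)
    obtain ⟨A, u, hA, hu⟩ := exists_coreflection (K := K) hE P (finR K fun Y => ∃ i, Y = E i)
      (fun Z hZ _ ⟨i, e⟩ => e ▸ h.hfin (le _ (mem i)) (le _ hZ)) mem gen
      (fun i Y hY => hY _ ⟨i, rfl⟩) Y.obj fun _ ⟨i, e⟩ => e ▸ h.hfin (le _ (mem i)) Y.property
    refine ⟨⟨A, hA⟩, ⟨⟨fun {Z} => Equiv.ofBijective
      (fun f => ObjectProperty.homMk (f.hom ≫ u)) ⟨fun f g e => ?_, fun f => ?_⟩, fun f g => ?_⟩⟩⟩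
    · exact ObjectProperty.hom_ext _ ((hu _ Z.property).1 congr($(e).hom))
    · obtain ⟨g, hg⟩ := (hu _ Z.property).2 f.hom
      exact ⟨ObjectProperty.homMk g, ObjectProperty.hom_ext _ hg⟩
    · exact ObjectProperty.hom_ext _ (Category.assoc _ _ _)

end FMX
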