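import Pool.Agent.MP_0e6a9f_ag.H32.HFin

/-! Comparing Hom groups before and after a Verdier localization. -/

set_option backward.isDefEq.respectTransparency false
set_option linter.unusedSectionVars false

open CategoryTheory Limits Pretriangulated

namespace FMX

variable {C D : Type*} [Category C] [Preadditive C] [HasZeroObject C] [HasShift C ℤ]
  [∀ n : ℤ, (shiftFunctor C n).Additive] [Pretriangulated C]
  [Category D] [Preadditive D] [HasZeroObject D] [HasShift D ℤ]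
  [∀ n : ℤ, (shiftFunctor D n).Additive] [Pretriangulated D]
  (L : C ⥤ D) [L.CommShift ℤ] [L.IsTriangulated]

/-- `L` is onto on `P ⟶ Y`. -/
def Srj (P Y : C) : Prop := ∀ g : L.obj P ⟶ L.obj Y, ∃ u, g = L.map u

/-- `L` is injective on `P ⟶ Y`. -/
def Inj (P Y : C) : Prop := ∀ u : P ⟶ Y, L.map u = 0 → u = 0

variable {L}

lemma Srj.iso {P P' Y Y' : C} (h : Srj L P Y) (e : P ≅ P') (e' : Y ≅ Y') : Srj L P' Y' :=
  fun g => by
    obtain ⟨u, hu⟩ := h (L.map e.hom ≫ g ≫ L.map e'.inv)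
    exact ⟨e.inv ≫ u ≫ e'.hom, by simp [← hu]⟩

lemma Inj.iso {P P' Y Y' : C} (h : Inj L P Y) (e : P ≅ P') (e' : Y ≅ Y') : Inj L P' Y' :=
  fun u hu => by simpa using h (e.hom ≫ u ≫ e'.inv) (by simp [hu])

lemma Inj.eq {P Y : C} (h : Inj L P Y) {u v : P ⟶ Y} (e : L.map u = L.map v) : u = v :=
  sub_eq_zero.1 (h _ (by rw [L.map_sub, e, sub_self]))

lemma exD {T : Triangle C} (hT : T ∈ distTriang C) {X : D} (g : X ⟶ L.obj T.obj₂)
    (h : g ≫ L.map T.mor₂ = 0) : ∃ u : X ⟶ L.obj T.obj₁, g = u ≫ L.map T.mor₁ :=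
  Triangle.coyoneda_exact₂ _ (L.map_distinguished T hT) g h

variable {T : Triangle C} (hT : T ∈ distTriang C) {P : C}
include hT

lemma srj₂ (h₁ : Srj L P T.obj₁) (h₃ : Srj L P T.obj₃) (h₄ : Inj L P (T.obj₁⟦(1 : ℤ)⟧)) :
    Srj L P T.obj₂ := fun g => by
  obtain ⟨u, hu⟩ := h₃ (g ≫ L.map T.mor₂)
  obtain ⟨v, rfl⟩ := T.coyoneda_exact₃ hT u (h₄ _ (by
    rw [L.map_comp, ← hu, Category.assoc, ← L.map_comp, comp_distTriang_mor_zero₂₃ _ hT]; simp))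
  obtain ⟨w, hw⟩ := exD hT (g - L.map v) (by simp [hu])
  obtain ⟨w, rfl⟩ := h₁ w
  exact ⟨w ≫ T.mor₁ + v, by simp [← hw]⟩

lemma inj₂ (h₀ : Srj L P (T.obj₃⟦(-1 : ℤ)⟧)) (h₁ : Inj L P T.obj₁) {u : P ⟶ T.obj₂}
    (h₃ : u ≫ T.mor₂ = 0) (h : L.map u = 0) : u = 0 := by
  obtain ⟨v, rfl⟩ := T.coyoneda_exact₂ hT u h₃
  have hT' := inv_rot_of_distTriang _ hT
  obtain ⟨w, hw⟩ := exD hT' (L.map v) (by rw [← L.map_comp]; exact h)
  obtain ⟨w, rfl⟩ := h₀ w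
  rw [h₁.eq (hw.trans (L.map_comp _ _).symm), Category.assoc]
  erw [comp_distTriang_mor_zero₁₂ _ hT', comp_zero]

lemma srj_step (h₁ : Srj L P T.obj₁) (h₄ : Inj L P (T.obj₁⟦(1 : ℤ)⟧)) (g : L.obj P ⟶ L.obj T.obj₂)
    (u : P ⟶ T.obj₃) (hu : g ≫ L.map T.mor₂ = L.map u) : ∃ v, g = L.map v := by
  obtain ⟨v, rfl⟩ := T.coyoneda_exact₃ hT u (h₄ _ (by
    rw [L.map_comp, ← hu, Category.assoc, ← L.map_comp, comp_distTriang_mor_zero₂₃ _ hT]; simp))
  obtain ⟨w, hw⟩ := exD hT (g - L.map v) (by simp [hu])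
  obtain ⟨w, rfl⟩ := h₁ w
  exact ⟨w ≫ T.mor₁ + v, by simp [← hw]⟩

omit hT

variable (L P) in
/-- `L` is bijective on all `P ⟶ Y[n]`. -/
def good : ObjectProperty C := fun Y => ∀ n : ℤ, Srj L P (Y⟦n⟧) ∧ Inj L P (Y⟦n⟧)

instance : (good L P).IsClosedUnderIsomorphisms where
  of_iso e h n := ⟨(h n).1.iso (Iso.refl _) ((shiftFunctor C n).mapIso e),
    (h n).2.iso (Iso.refl _) ((shiftFunctor C n).mapIso e)⟩

lemma good.shift {Y : C} (h : good L P Y) (a : ℤ) : good L P (Y⟦a⟧) := fun n =>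
  ⟨(h _).1.iso (Iso.refl _) ((shiftFunctorAdd C a n).app Y),
    (h _).2.iso (Iso.refl _) ((shiftFunctorAdd C a n).app Y)⟩

instance : (good L P).IsTriangulated where
  exists_zero := by
    obtain ⟨Z, hZ⟩ := HasZeroObject.zero (C := C)
    have (n : ℤ) := (shiftFunctor C n).map_isZero hZ
    exact ⟨Z, hZ, fun n => ⟨fun g => ⟨0, (L.map_isZero (this n)).eq_of_tgt _ _⟩,
      fun u _ => (this n).eq_of_tgt _ _⟩⟩
  isStableUnderShiftBy n := ⟨fun _ h => h.shift n⟩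
  toIsTriangulatedClosed₂ := .mk' fun T hT h₁ h₃ n =>
    have hT' := T.shift_distinguished hT n
    ⟨srj₂ hT' (h₁ n).1 (h₃ n).1 ((h₁.shift n) 1).2, fun u hu =>
      inj₂ hT' ((h₃.shift n) (-1)).1 (h₁ n).2 ((h₃ n).2 _ (by simp [hu])) hu⟩

lemma good.hfin (K : Type*) [Field K] [Linear K C] [Linear K D] [L.Linear K] {Y : C}
    (h : good L P Y) (hf : HFin K P Y) : HFin K (L.obj P) (L.obj Y) := by
  obtain ⟨h1, J, h2⟩ := hf
  refine ⟨fun n => fin_iso K (Iso.refl _) ((L.commShiftIso n).app Y)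
    (Module.Finite.of_surjective (L.mapLinearMap K) fun g => ((h n).1 g).imp fun _ => Eq.symm),
    J, fun n hn => zero_iso (Iso.refl _) ((L.commShiftIso n).app Y) fun g => ?_⟩
  obtain ⟨u, rfl⟩ := (h n).1 g
  simp [h2 n hn u]

section
variable [IsTriangulated C] (N : ObjectProperty C) [N.IsTriangulated] (L)
  [L.IsLocalization N.trW]

lemma factor_of_map_eq_zero {X Y : C} (u : X ⟶ Y) (h : L.map u = 0) :
    ∃ (Z : C) (a : X ⟶ Z) (b : Z ⟶ Y), N Z ∧ u = a ≫ b := by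
  obtain ⟨Y', s, hs, e⟩ := (MorphismProperty.map_eq_iff_postcomp L N.trW u 0).1 (by simp [h])
  obtain ⟨Z, b, c, hD, hZ⟩ := (ObjectProperty.trW_iff' _ _).1 hs
  obtain ⟨a, ha⟩ := Triangle.coyoneda_exact₂ _ hD u (by simpa using e)
  exact ⟨Z, a, b, hZ, ha⟩

lemma lift_fraction {X Y : C} (g : L.obj X ⟶ L.obj Y) : ∃ (Z : C) (a : X ⟶ Z), N Z ∧
    ∀ {X' : C} (x : X' ⟶ X), x ≫ a = 0 → ∃ u, L.map x ≫ g = L.map u := by
  obtain ⟨φ, rfl⟩ := Localization.exists_leftFraction L N.trW g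
  obtain ⟨Z, b, c, hD, hZ⟩ := φ.hs
  refine ⟨Z, φ.f ≫ b, hZ, fun x hx => ?_⟩
  obtain ⟨u, hu⟩ := Triangle.coyoneda_exact₂ _ hD (x ≫ φ.f) (by simpa using hx)
  have := Localization.inverts L N.trW _ φ.hs
  refine ⟨u, ?_⟩
  rw [← cancel_mono (L.map φ.s), Category.assoc, MorphismProperty.LeftFraction.map_comp_map_s,
    ← L.map_comp, hu, L.map_comp]
  rfl

lemma mem_of_isZero [N.IsStableUnderRetracts] {X : C} (h : IsZero (L.obj X)) : N X := by
  obtain ⟨Z, a, b, hZ, e⟩ := factor_of_map_eq_zero L N (𝟙 X) (h.eq_of_src _ _)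
  exact N.prop_of_retract ⟨a, b, e.symm⟩ hZ

lemma isZero_of_mem {X : C} (h : N X) : IsZero (L.obj X) := by
  have := Localization.inverts L N.trW _
    (ObjectProperty.trW.mk' N (contractible_distinguished X) h)
  exact (L.map_isZero (isZero_zero C)).of_iso (asIso (L.map (contractibleTriangle X).mor₂))

end

end FMX
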