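import Mathlib

/-! Short exact sequences and bounded complexes modulo a subcategory containing the acyclic
complexes. -/

set_option backward.isDefEq.respectTransparency false
set_option linter.unusedSectionVars false

open CategoryTheory Limits Pretriangulated CochainComplex

noncomputable section
namespace FMX

variable {𝒜 : Type*} [Category 𝒜] [Abelian 𝒜]

/-- The homotopy category. -/
abbrev KK (𝒜 : Type*) [Category 𝒜] [Preadditive 𝒜] := HomotopyCategory 𝒜 (ComplexShape.up ℤ)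

/-- The quotient functor. -/
abbrev qq (𝒜 : Type*) [Category 𝒜] [Preadditive 𝒜] :=
  HomotopyCategory.quotient 𝒜 (ComplexShape.up ℤ)

/-- An object placed in degree `n`. -/
abbrev sg (𝒜 : Type*) [Category 𝒜] [Preadditive 𝒜] [HasZeroObject 𝒜] (n : ℤ) : 𝒜 ⥤ KK 𝒜 :=
  CochainComplex.singleFunctor 𝒜 n ⋙ qq 𝒜

variable (Q : ObjectProperty (KK 𝒜)) [Q.IsTriangulated] [Q.IsClosedUnderIsomorphisms]
  (hQ : HomotopyCategory.subcategoryAcyclic 𝒜 ≤ Q)

lemma mem_iff_of_trW {C : Type*} [Category C] [Preadditive C] [HasZeroObject C] [HasShift C ℤ]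
    [∀ n : ℤ, (CategoryTheory.shiftFunctor C n).Additive] [Pretriangulated C] (Q : ObjectProperty C)
    [Q.IsTriangulated] [Q.IsClosedUnderIsomorphisms] {X Y : C} {f : X ⟶ Y} (h : Q.trW f) :
    Q X ↔ Q Y := by
  obtain ⟨Z, g, k, hD, hZ⟩ := h
  exact ⟨fun hX => Q.ext_of_isTriangulatedClosed₂ _ hD hX hZ,
    fun hY => Q.ext_of_isTriangulatedClosed₁ _ hD hY hZ⟩

include hQ

lemma trW_of_quasiIso {X Y : CochainComplex 𝒜 ℤ} (f : X ⟶ Y) [QuasiIso f] :
    Q.trW ((qq 𝒜).map f) := by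
  refine ObjectProperty.trW_monotone hQ _ ?_
  rwa [← HomotopyCategory.quasiIso_eq_trW_subcategoryAcyclic,
    HomotopyCategory.quotient_map_mem_quasiIso_iff]

variable {S : ShortComplex (CochainComplex 𝒜 ℤ)} (hS : S.ShortExact)

section
include hS

lemma ses_trW_f : Q.trW ((qq 𝒜).map S.f) ↔ Q ((qq 𝒜).obj S.X₃) := by
  have := mappingCone.quasiIso_descShortComplex hS
  rw [← mem_iff_of_trW Q (trW_of_quasiIso Q hQ (mappingCone.descShortComplex S))]
  exact Q.trW_iff_of_distinguished _ (HomotopyCategory.mappingCone_triangleh_distinguished S.f)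

lemma ses_trW_g (h : Q ((qq 𝒜).obj S.X₁)) : Q.trW ((qq 𝒜).map S.g) := by
  have := mappingCone.quasiIso_descShortComplex hS
  rw [← mappingCone.inr_descShortComplex S, Functor.map_comp]
  exact Q.trW.comp_mem _ _ (ObjectProperty.trW.mk' Q
    (HomotopyCategory.mappingCone_triangleh_distinguished S.f) h) (trW_of_quasiIso Q hQ _)

end

omit hQ in
lemma sg_iff (M : 𝒜) (n : ℤ) : Q ((sg 𝒜 n).obj M) ↔ Q ((sg 𝒜 0).obj M) := by
  have e := (qq 𝒜).mapIso (((singleFunctors 𝒜).shiftIso n 0 n (by simp)).app M)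
  exact (Q.prop_shift_iff_of_isStableUnderShift _ n).symm.trans
    (Q.prop_iff_of_iso (((qq 𝒜).commShiftIso n).symm.app _ ≪≫ e))

lemma bdd_mem (P : ObjectProperty 𝒜) (hP : ∀ {X Y : 𝒜} (f : X ⟶ Y) [Epi f], P X → P Y)
    (h : ∀ M, P M → Q ((sg 𝒜 0).obj M)) (a : ℤ) (k : ℕ) : ∀ Y : CochainComplex 𝒜 ℤ,
      (∀ n, P (Y.X n)) → (∀ n, n < a ∨ a + k ≤ n → IsZero (Y.X n)) → Q ((qq 𝒜).obj Y) := by
  induction k with
  | zero =>
    intro Y _ h0
    exact Q.prop_of_isZero ((qq 𝒜).map_isZero (IsZero.iff_id_eq_zero _ |>.2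
      (HomologicalComplex.hom_ext _ _ fun n => (h0 n (by omega)).eq_of_src _ _)))
  | succ k ih =>
    intro Y hY h0
    let ι : (singleFunctor 𝒜 (a + k)).obj (Y.X (a + k)) ⟶ Y :=
      HomologicalComplex.mkHomFromSingle (𝟙 _) fun j hj =>
        (h0 j (by simp at hj; omega)).eq_of_tgt _ _
    have hι : IsIso (ι.f (a + k)) := by
      simp only [ι]
      erw [HomologicalComplex.mkHomFromSingle_f]
      infer_instance
    have : Mono ι := HomologicalComplex.mono_of_mono_f _ fun n => by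
      by_cases hn : n = a + k
      · subst hn; infer_instance
      · exact (HomologicalComplex.isZero_single_obj_X _ _ _ _ hn).mono _
    have hS : (ShortComplex.mk ι (cokernel.π ι) (cokernel.condition ι)).ShortExact :=
      { exact := ShortComplex.exact_cokernel ι }
    have he (n : ℤ) : Epi ((cokernel.π ι).f n) :=
      inferInstanceAs (Epi ((HomologicalComplex.eval _ _ n).map (cokernel.π ι)))
    refine (mem_iff_of_trW Q ((ses_trW_f Q hQ hS).2 (ih _
      (fun n => hP ((cokernel.π ι).f n) (hY n)) fun n hn => ?_))).1 ((sg_iff Q _ _).2 (h _ (hY _)))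
    refine IsZero.of_epi_eq_zero ((cokernel.π ι).f n) ?_
    by_cases hn' : n = a + k
    · subst hn'
      rw [← cancel_epi (ι.f (a + k)), ← HomologicalComplex.comp_f, cokernel.condition]; simp
    · exact (h0 n (by push_cast; omega)).eq_of_src _ _

variable {T : ShortComplex 𝒜} (hT : T.ShortExact)
include hT

lemma sg_trW_f (h : Q ((sg 𝒜 0).obj T.X₃)) : Q.trW ((sg 𝒜 0).map T.f) :=
  (ses_trW_f Q hQ (hT.map_of_exact (HomologicalComplex.single 𝒜 (ComplexShape.up ℤ) 0))).2 h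

lemma sg_trW_g (h : Q ((sg 𝒜 0).obj T.X₁)) : Q.trW ((sg 𝒜 0).map T.g) :=
  ses_trW_g Q hQ (hT.map_of_exact (HomologicalComplex.single 𝒜 (ComplexShape.up ℤ) 0)) h

lemma sg_mem₃ (h₁ : Q ((sg 𝒜 0).obj T.X₁)) (h₂ : Q ((sg 𝒜 0).obj T.X₂)) :
    Q ((sg 𝒜 0).obj T.X₃) := (mem_iff_of_trW Q (sg_trW_g Q hQ hT h₁)).1 h₂

lemma sg_mem₁ (h₂ : Q ((sg 𝒜 0).obj T.X₂)) (h₃ : Q ((sg 𝒜 0).obj T.X₃)) :
    Q ((sg 𝒜 0).obj T.X₁) := (mem_iff_of_trW Q (sg_trW_f Q hQ hT h₃)).2 h₂

omit hT in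
/-- A map with kernel and cokernel in `Q` has cone in `Q`. -/
lemma sg_trW {X Y : 𝒜} (f : X ⟶ Y) (h₁ : Q ((sg 𝒜 0).obj (kernel f)))
    (h₂ : Q ((sg 𝒜 0).obj (cokernel f))) : Q.trW ((sg 𝒜 0).map f) := by
  rw [← Abelian.coimage_image_factorisation f, Functor.map_comp, Functor.map_comp]
  refine Q.trW.comp_mem _ _ (sg_trW_g Q hQ (T := .mk (kernel.ι f) _ (cokernel.condition _))
    { exact := ShortComplex.exact_cokernel _ } h₁) (Q.trW.comp_mem _ _ (Q.trW_of_isIso _)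
      (sg_trW_f Q hQ (T := .mk _ (cokernel.π f) (kernel.condition _))
        { exact := ShortComplex.exact_kernel _ } h₂))

end FMX
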