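import Pool.Agent.MP_0e6a9f_ag.H32.Frac

/-! A triangulated autoequivalence with a map to the identity functor. -/

set_option backward.isDefEq.respectTransparency false
set_option linter.unusedSectionVars false

open CategoryTheory Limits Pretriangulated

namespace FMX

variable {C D : Type*} [Category C] [Preadditive C] [HasZeroObject C] [HasShift C ℤ]
  [∀ n : ℤ, (shiftFunctor C n).Additive] [Pretriangulated C]
  [Category D] [Preadditive D] [HasZeroObject D] [HasShift D ℤ]
  [∀ n : ℤ, (shiftFunctor D n).Additive] [Pretriangulated D]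
  (L : C ⥤ D) [L.CommShift ℤ] [L.IsTriangulated]
  {T : C ⥤ C} [T.CommShift ℤ] [T.IsTriangulated]

variable (T) in
/-- A natural transformation to the identity functor which commutes with shifts. -/
structure Mu where
  app (X : C) : T.obj X ⟶ X
  nat {X Y : C} (f : X ⟶ Y) : T.map f ≫ app Y = app X ≫ f
  shift (Y : C) (n : ℤ) : app (Y⟦n⟧) = (T.commShiftIso n).hom.app Y ≫ (app Y)⟦n⟧'

section
variable (μ : Mu T)

lemma trW_mu_shift (Q : ObjectProperty C) [Q.IsTriangulated] {Y : C} (h : Q.trW (μ.app Y))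
    (n : ℤ) : Q.trW (μ.app (Y⟦n⟧)) := by
  rw [μ.shift]
  exact (MorphismProperty.cancel_left_of_respectsIso _ _ _).2 (h.shift n)

/-- Objects on which `μ` becomes invertible. -/
def isoMu : ObjectProperty C := fun Y => IsIso (L.map (μ.app Y))

instance : (isoMu L μ).IsClosedUnderIsomorphisms where
  of_iso {X Y} e h := by
    have : μ.app Y = T.map e.inv ≫ μ.app X ≫ e.hom := by
      rw [← Category.assoc, μ.nat]; simp
    have : IsIso (L.map (μ.app X)) := h
    simp only [isoMu, *, L.map_comp]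
    infer_instance

instance : (isoMu L μ).IsTriangulated where
  exists_zero := by
    obtain ⟨Z, hZ⟩ := HasZeroObject.zero (C := C)
    exact ⟨Z, hZ, (L.map_isZero (T.map_isZero hZ)).isIso (L.map_isZero hZ) _⟩
  isStableUnderShiftBy n := ⟨fun Y (h : IsIso _) => by
    change IsIso (L.map _)
    have := (L.commShiftIso n).hom.naturality (μ.app Y)
    rw [μ.shift, L.map_comp]
    have : IsIso (L.map ((μ.app Y)⟦n⟧')) := by
      have h2 : IsIso ((shiftFunctor C n ⋙ L).map (μ.app Y) ≫ (L.commShiftIso n).hom.app _) := by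
        rw [this, Functor.comp_map]; infer_instance
      exact IsIso.of_isIso_comp_right ((shiftFunctor C n ⋙ L).map (μ.app Y))
        ((L.commShiftIso n).hom.app Y)
    infer_instance⟩
  toIsTriangulatedClosed₂ := .mk' fun Δ hΔ h₁ h₃ =>
    isIso₂_of_isIso₁₃ (L.mapTriangle.map (Triangle.homMk (T.mapTriangle.obj Δ) Δ (μ.app _)
      (μ.app _) (μ.app _) (μ.nat _) (μ.nat _) ((Category.assoc _ _ _).trans
        ((congrArg _ (μ.shift _ _).symm).trans (μ.nat _)))))
      (L.map_distinguished _ (T.map_distinguished _ hΔ)) (L.map_distinguished _ hΔ) h₁ h₃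

end

variable [IsTriangulated C] (N : ObjectProperty C) [N.IsTriangulated] [N.IsClosedUnderIsomorphisms]
  [L.IsLocalization N.trW] [T.IsEquivalence] (hT : ∀ X, N (T.obj X) ↔ N X)
include hT

lemma trW_tw {X Y : C} (f : X ⟶ Y) : N.trW (T.map f) ↔ N.trW f := by
  rw [← ObjectProperty.inverseImage_trW_iff, show N.inverseImage T = N from
    funext fun X => propext (hT X)]

lemma isLoc_tw : (T ⋙ L).IsLocalization N.trW := by
  refine Functor.IsLocalization.of_equivalence_source L N.trW (T ⋙ L) N.trW T.asEquivalence.symm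
    (fun X Y f hf => N.trW.le_isoClosure _ ((trW_tw N hT _).1 ?_))
    (fun X Y f hf => Localization.inverts L N.trW _ ((trW_tw N hT _).2 hf))
    ((Functor.associator _ _ _).symm ≪≫ Functor.isoWhiskerRight T.asEquivalence.counitIso L ≪≫
      L.leftUnitor)
  exact (N.trW.arrow_mk_iso_iff (((Functor.mapArrowFunctor _ _).mapIso
    T.asEquivalence.counitIso).app (Arrow.mk f))).2 hf

lemma exists_tau (P Y : C) : ∃ τ : (L.obj P ⟶ L.obj Y) ≃ (L.obj (T.obj P) ⟶ L.obj (T.obj Y)),
    (∀ u, τ (L.map u) = L.map (T.map u)) ∧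
      ∀ (μ : Mu T) g, L.map (μ.app P) ≫ g = τ g ≫ L.map (μ.app Y) := by
  have := isLoc_tw L N hT
  refine ⟨Localization.homEquiv N.trW L (T ⋙ L), Localization.homEquiv_map _ _ _, fun μ g => ?_⟩
  obtain ⟨φ, rfl⟩ := Localization.exists_leftFraction L N.trW g
  have := Localization.inverts L N.trW _ φ.hs
  have h := φ.map_comp_map_s L (Localization.inverts L N.trW)
  have h' := congrArg (Localization.homEquiv N.trW L (T ⋙ L)) h
  rw [Localization.homEquiv_comp, Localization.homEquiv_map, Localization.homEquiv_map] at h'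
  have n1 := L.congr_map (μ.nat φ.s)
  have n2 := L.congr_map (μ.nat φ.f)
  simp only [Functor.map_comp, Functor.comp_map] at n1 n2 h'
  rw [← cancel_mono (L.map φ.s), Category.assoc, Category.assoc, h, ← n1, ← n2, ← h',
    Category.assoc]
  rfl

variable {L}

lemma good.tw {P Y : C} (h : good L P Y) : good L (T.obj P) (T.obj Y) := fun n => by
  obtain ⟨τ, h1, -⟩ := exists_tau L N hT P (Y⟦n⟧)
  refine ⟨Srj.iso (fun g => ?_) (Iso.refl _) ((T.commShiftIso n).app Y),
    Inj.iso (fun u hu => ?_) (Iso.refl _) ((T.commShiftIso n).app Y)⟩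
  · obtain ⟨g, rfl⟩ := τ.surjective g
    obtain ⟨u, rfl⟩ := (h n).1 g
    exact ⟨_, h1 u⟩
  · obtain ⟨u, rfl⟩ := T.map_surjective u
    rw [(h n).2.eq (u := u) (v := 0) (τ.injective (by rw [h1, h1, hu]; simp)), T.map_zero]

variable (μ : Mu T) {P Y : C}
  (hF : (good L (T.obj P)).trW (μ.app Y)) (n : ℤ)
include hF

lemma step_srj (g : L.obj P ⟶ L.obj (Y⟦n⟧)) (u : T.obj P ⟶ Y⟦n⟧)
    (hu : L.map (μ.app P) ≫ g = L.map u) : ∃ v, g = L.map v := by
  obtain ⟨τ, h1, h2⟩ := exists_tau L N hT P (Y⟦n⟧)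
  obtain ⟨F, a, b, hD, hF⟩ := (ObjectProperty.trW_iff' _ _).1 (trW_mu_shift μ _ hF n)
  obtain ⟨v, hv⟩ := srj_step hD ((hF 0).1.iso (Iso.refl _) ((shiftFunctorZero C ℤ).app F))
    (hF 1).2 (τ g) u ((h2 μ g).symm.trans hu)
  obtain ⟨v, rfl⟩ := T.map_surjective v
  exact ⟨v, τ.injective (hv.trans (h1 v).symm)⟩

lemma step_inj (hs : Srj L (T.obj P) (Y⟦n - 1⟧)) (u : P ⟶ Y⟦n⟧) (hu : L.map u = 0)
    (h : μ.app P ≫ u = 0) : u = 0 := by
  obtain ⟨τ, h1, -⟩ := exists_tau L N hT P (Y⟦n⟧)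
  obtain ⟨F, a, b, hD, hF⟩ := (ObjectProperty.trW_iff' _ _).1 (trW_mu_shift μ _ hF n)
  refine T.map_injective ((inj₂ hD (hs.iso (Iso.refl _) ((shiftFunctorAdd' C n (-1) _ rfl).app Y))
    ((hF 0).2.iso (Iso.refl _) ((shiftFunctorZero C ℤ).app F)) ((μ.nat u).trans h)
    ?_).trans (T.map_zero _ _).symm)
  rw [← h1, hu, ← L.map_zero, h1]; simp

end FMX
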