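import Pool.Agent.MP_0e6a9f_ag.H32.GrKit
import Pool.Agent.MP_0e6a9f_ag.H32.KA
import Pool.Agent.MP_0e6a9f_ag.H32.Tw

/-! Twists, free modules, and multiplication maps. -/

set_option backward.isDefEq.respectTransparency false
set_option linter.unusedSectionVars false

open CategoryTheory Limits DirectSum FMD

noncomputable section
namespace FMX

variable {K G R : Type} [Field K] [AddCommGroup G] [DecidableEq G] [CommRing R] [Algebra K R]
  {A : G → Submodule K R} [GradedAlgebra A] {I : HomogeneousIdeal A} {L M N : GrMod A I}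

lemma mem_cast {M : Pre A I} {d e : G} {m : M.M} (h : m ∈ M.gr d) (he : d = e) : m ∈ M.gr e :=
  he ▸ h

variable (A I) in
/-- The twist `M(-a)`. -/
def tw (a : G) : GrMod A I ⥤ GrMod A I where
  obj M :=
    { obj :=
        { M := M.obj.M
          gr d := M.obj.gr (d - a)
          smul_mem hr hm := mem_cast (M.obj.smul_mem hr hm) (by abel)
          kill := M.obj.kill }
      property := isInternal_comp M.property (Equiv.subRight a) }
  map f := mkHom f.hom.1 fun _ => f.hom.2 _

instance (a : G) : (tw A I a).Additive where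

/-- An isomorphism from a degree-preserving linear equivalence. -/
def mkIso (e : M.obj.M ≃ₗ[R] N.obj.M) (h : ∀ d m, m ∈ M.obj.gr d ↔ e m ∈ N.obj.gr d) : M ≅ N where
  hom := mkHom e.toLinearMap fun d m => (h d m).1
  inv := mkHom e.symm.toLinearMap fun d m hm => (h d _).2 (by simpa using hm)
  hom_inv_id := hom_ext e.symm_apply_apply
  inv_hom_id := hom_ext e.apply_symm_apply

/-- Twists compose. -/
def twComp {a b c : G} (h : a + b = c) : tw A I a ⋙ tw A I b ≅ tw A I c :=
  NatIso.ofComponents (fun M => mkIso (LinearEquiv.refl R M.obj.M) fun d m =>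
    ⟨fun hm => mem_cast (M := M.obj) hm (by rw [← h]; abel),
      fun hm => mem_cast (M := M.obj) hm (by rw [← h]; abel)⟩) fun _ => rfl

/-- The trivial twist. -/
def twZero : tw A I 0 ≅ 𝟭 _ :=
  NatIso.ofComponents (fun M => mkIso (LinearEquiv.refl R M.obj.M) fun d m =>
    ⟨fun hm => mem_cast (M := M.obj) hm (by abel),
      fun hm => mem_cast (M := M.obj) hm (by abel)⟩) fun _ => rfl

instance (a : G) : (tw A I a).IsEquivalence :=
  (CategoryTheory.Equivalence.mk (tw A I a) (tw A I (-a)) (twComp (by abel) ≪≫ twZero).symm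
    (twComp (by abel) ≪≫ twZero)).isEquivalence_functor

/-- Multiplication by a homogeneous element. -/
def mu {a : G} {r : R} (hr : r ∈ A a) (M : GrMod A I) : (tw A I a).obj M ⟶ M :=
  mkHom (LinearMap.lsmul R M.obj.M r) fun _ _ hm => mem_cast (M.obj.smul_mem hr hm) (by abel)

lemma mu_nat {a : G} {r : R} (hr : r ∈ A a) (f : M ⟶ N) :
    (tw A I a).map f ≫ mu hr N = mu hr M ≫ f := hom_ext fun m => (f.hom.1.map_smul r m).symm

variable (A I) in
/-- The twist on the homotopy category. -/
abbrev TK (a : G) := (tw A I a).mapHomotopyCategory (ComplexShape.up ℤ)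

instance (a : G) : (TK A I a).EssSurj where
  mem_essImage Y := ⟨(TK A I (-a)).obj Y, ⟨(qq _).mapIso
    ((NatIso.mapHomologicalComplex (twComp (neg_add_cancel a) ≪≫ twZero) _).app Y.as)⟩⟩

instance (a : G) : (TK A I a).IsEquivalence where

/-- Multiplication on complexes. -/
def muC {a : G} {r : R} (hr : r ∈ A a) (Y : CochainComplex (GrMod A I) ℤ) :
    ((tw A I a).mapHomologicalComplex _).obj Y ⟶ Y where
  f n := mu hr (Y.X n)
  comm' _ _ _ := (mu_nat hr _).symm

lemma muC_nat {a : G} {r : R} (hr : r ∈ A a) {X Y : KK (GrMod A I)} (f : X ⟶ Y) :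
    (TK A I a).map f ≫ (qq _).map (muC hr Y.as) = (qq _).map (muC hr X.as) ≫ f := by
  obtain ⟨X⟩ := X
  obtain ⟨Y⟩ := Y
  obtain ⟨f⟩ := f
  exact ((qq _).map_comp _ _).symm.trans ((congrArg (qq _).map
    (HomologicalComplex.hom_ext _ _ fun n => mu_nat hr _)).trans ((qq _).map_comp _ _))

/-- Multiplication on the homotopy category. -/
def muK {a : G} {r : R} (hr : r ∈ A a) : Mu (TK A I a) where
  app Y := (qq _).map (muC hr Y.as)
  nat := muC_nat hr
  shift := by
    rintro ⟨Y⟩ n
    have h1 : ((TK A I a).commShiftIso n).hom.app ((qq _).obj Y) =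
        (TK A I a).map (((qq _).commShiftIso n).inv.app Y) ≫
        (((tw A I a).mapHomologicalComplex (ComplexShape.up ℤ) ⋙ qq _).commShiftIso n).hom.app Y :=
      Quotient.LiftCommShift.iso_hom_app _ _ _ n Y
    have h2 := muC_nat hr (((qq _).commShiftIso n).hom.app Y)
    have h3 : muC hr (Y⟦n⟧) = (((tw A I a).mapHomologicalComplex _).commShiftIso n).hom.app Y ≫
        (muC hr Y)⟦n⟧' := HomologicalComplex.hom_ext _ _ fun _ => rfl
    have h4 := (qq _).commShiftIso_hom_naturality (muC hr Y) n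
    rw [← cancel_epi ((TK A I a).map (((qq _).commShiftIso n).hom.app Y))]
    refine h2.trans ?_
    erw [h1, ← Category.assoc, ← Functor.map_comp_assoc, Iso.hom_inv_id_app,
      CategoryTheory.Functor.map_id, Category.id_comp, Functor.commShiftIso_comp_hom_app,
      Category.assoc, ← h4, ← Functor.map_comp_assoc, ← h3]
    rfl

lemma muK_sg {a : G} {r : R} (hr : r ∈ A a) (M : GrMod A I) :
    ∃ e : (TK A I a).obj ((sg _ 0).obj M) ≅ (sg _ 0).obj ((tw A I a).obj M),
      (muK hr).app _ = e.hom ≫ (sg _ 0).map (mu hr M) := by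
  refine ⟨(qq _).mapIso ((HomologicalComplex.singleMapHomologicalComplex (tw A I a) _ 0).app M),
    (congrArg (qq _).map (HomologicalComplex.to_single_hom_ext ?_)).trans ((qq _).map_comp _ _)⟩
  let e := HomologicalComplex.singleObjXSelf (ComplexShape.up ℤ) 0 M
  let e' := HomologicalComplex.singleObjXSelf (ComplexShape.up ℤ) 0 ((tw A I a).obj M)
  have h : mu hr _ = ((tw A I a).map e.hom ≫ e'.inv) ≫ e'.hom ≫ mu hr M ≫ e.inv := by
    rw [Category.assoc, Iso.inv_hom_id_assoc, ← Category.assoc, mu_nat]; simp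
  refine h.trans ?_
  rw [← HomologicalComplex.singleMapHomologicalComplex_hom_app_self,
    ← HomologicalComplex.single_map_f_self]
  rfl

lemma prj_eq {V : Type} [AddCommGroup V] {gr : G → AddSubgroup V} (h : IsInternal gr) (d : G)
    (p : V →+ V) (same : ∀ v ∈ gr d, p v = v) (ne : ∀ e, e ≠ d → ∀ v ∈ gr e, p v = 0) (v : V) :
    prj h d v = p v := by
  induction v using gr_ind h with
  | zero => simp
  | add u v hu hv => simp [hu, hv]
  | hom e v hv =>
    by_cases he : e = d
    · subst he; rw [prj_same h hv, same _ hv]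
    · rw [prj_ne h hv he, ne _ he _ hv]

variable (A I) in
/-- The ring `R/I` as a graded module. -/
def fr0 : GrMod A I where
  obj :=
    { M := R ⧸ I.toIdeal
      gr d := (A d).toAddSubgroup.map I.toIdeal.mkQ.toAddMonoidHom
      smul_mem := by
        rintro a d r _ hr ⟨m, hm, rfl⟩
        exact ⟨r • m, SetLike.mul_mem_graded hr hm, rfl⟩
      kill r hr m := by
        obtain ⟨m, rfl⟩ := I.toIdeal.mkQ_surjective m
        exact (Submodule.Quotient.mk_eq_zero _).2 (I.toIdeal.mul_mem_right m hr) }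
  property := by
    have h : IsInternal fun d => (A d).toAddSubgroup :=
      isInternal_of (fun d => GradedRing.proj A d) (fun d v hv => decompose_of_mem_same A hv)
        (fun d e he v hv => decompose_of_mem_ne A hv he) fun v => by
          induction v using Decomposition.inductionOn A with
          | zero => exact zero_mem _
          | add u v hu hv => exact add_mem hu hv
          | homogeneous m => exact AddSubgroup.mem_iSup_of_mem _ m.2
    refine isInternal_map h _ I.toIdeal.mkQ_surjective fun d v hv => ?_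
    have : prj h d v = GradedRing.proj A d v := prj_eq h d _
      (fun v hv => decompose_of_mem_same A hv) (fun e he v hv => decompose_of_mem_ne A hv he) v
    exact (Submodule.Quotient.mk_eq_zero _).2
      (this ▸ I.isHomogeneous d ((Submodule.Quotient.mk_eq_zero _).1 hv))

variable (A I) in
/-- The free module with a generator in degree `d`. -/
abbrev fr (d : G) : GrMod A I := (tw A I d).obj (fr0 A I)

/-- The generator. -/
def one (d : G) : (fr A I d).obj.M := I.toIdeal.mkQ 1

lemma one_mem (d : G) : one d ∈ (fr A I d).obj.gr d :=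
  ⟨1, by simpa using SetLike.one_mem_graded A, rfl⟩

lemma fr_ext {d : G} {f g : fr A I d ⟶ M} (h : f.hom.1 (one d) = g.hom.1 (one d)) : f = g :=
  hom_ext fun m => by
    obtain ⟨r, rfl⟩ := I.toIdeal.mkQ_surjective m
    have : I.toIdeal.mkQ r = r • one (A := A) d :=
      (congrArg I.toIdeal.mkQ (mul_one r).symm).trans (I.toIdeal.mkQ.map_smul r 1)
    erw [this, map_smul, map_smul, h]

/-- The map which sends the generator to `m`. -/
def ofEl {d : G} {m : M.obj.M} (hm : m ∈ M.obj.gr d) : fr A I d ⟶ M :=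
  mkHom (I.toIdeal.liftQ (LinearMap.toSpanSingleton R _ m) fun r hr => M.obj.kill r hr m) (by
    rintro e _ ⟨r, hr, rfl⟩
    exact mem_cast (M.obj.smul_mem hr hm) (by abel))

@[simp] lemma ofEl_one {d : G} {m : M.obj.M} (hm : m ∈ M.obj.gr d) :
    (ofEl hm).hom.1 (one d) = m := one_smul R m

instance (d : G) : Projective (fr A I d) where
  factors {E X} f p hp := by
    obtain ⟨m, hm⟩ := (epi_iff p).1 hp (f.hom.1 (one d))
    refine ⟨ofEl (prj_mem E.property d m), fr_ext ?_⟩
    change p.hom.1 ((ofEl _).hom.1 _) = _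
    rw [ofEl_one, ← hom_pr, hm, prj_same _ (f.hom.2 _ _ (one_mem d))]

/-- Multiplication between free modules. -/
def frMul {a d d' : G} {r : R} (hr : r ∈ A a) (h : a + d = d') : fr A I d' ⟶ fr A I d :=
  ofEl (mem_cast ((fr A I d).obj.smul_mem hr (one_mem d)) h)

lemma frMul_comp {a d d' : G} {r : R} (hr : r ∈ A a) (h : a + d = d') (f : fr A I d ⟶ M) :
    (frMul hr h ≫ f).hom.1 (one d') = r • f.hom.1 (one d) := by
  change f.hom.1 ((ofEl _).hom.1 _) = _
  rw [ofEl_one, map_smul]

lemma frMul_mul {a b d d' d'' : G} {r s : R} (hr : r ∈ A a) (hs : s ∈ A b) (h : b + d = d')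
    (h' : a + d' = d'') : frMul (I := I) (SetLike.mul_mem_graded hr hs)
      (by rw [← h', ← h, add_assoc]) = frMul hr h' ≫ frMul hs h :=
  fr_ext (by rw [frMul_comp, frMul, frMul, ofEl_one, ofEl_one, mul_smul])

lemma frMul_one (d : G) : frMul (I := I) (SetLike.one_mem_graded A) (zero_add d) = 𝟙 _ :=
  fr_ext (by rw [frMul, ofEl_one, one_smul]; rfl)

lemma muK_fr {a d d' : G} {r : R} (hr : r ∈ A a) (h : a + d = d') :
    ∃ e : (TK A I a).obj ((sg _ 0).obj (fr A I d)) ≅ (sg _ 0).obj (fr A I d'),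
      (muK hr).app _ = e.hom ≫ (sg _ 0).map (frMul hr h) := by
  obtain ⟨e, he⟩ := muK_sg hr (fr A I d)
  let e' := (twComp (I := I) ((add_comm d a).trans h)).app (fr0 A I)
  refine ⟨e ≪≫ (sg _ 0).mapIso e', ?_⟩
  have : e'.inv ≫ mu hr (fr A I d) = frMul hr h := fr_ext (by rw [frMul, ofEl_one]; rfl)
  rw [he, ← this, Iso.trans_hom, Category.assoc, Functor.mapIso_hom, ← Functor.map_comp,
    Iso.hom_inv_id_assoc]

lemma exists_supp (m : M.obj.M) : ∃ s : Finset G, ∀ d ∉ s, pr M d m = 0 := by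
  obtain ⟨s, hs⟩ := exists_sum_prj M.property m
  refine ⟨s, fun d hd => ?_⟩
  rw [← hs, map_sum]
  exact Finset.sum_eq_zero fun e he => prj_ne _ (prj_mem _ _ _) (by rintro rfl; exact hd he)

/-- A finitely generated module is a quotient of a finite free one. -/
lemma exists_cover (M : GrMod A I) [h : Module.Finite R M.obj.M] :
    ∃ (J : Type) (_ : Fintype J) (d : J → G) (p : ⨁ (fun j => fr A I (d j)) ⟶ M), Epi p := by
  classical
  obtain ⟨s, hs⟩ := h.1
  choose t ht using fun m : M.obj.M => exists_sum_prj M.property m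
  let p : ⨁ (fun j : (m : s) × t m => fr A I j.2) ⟶ M :=
    biproduct.desc fun j => ofEl (prj_mem M.property j.2.1 j.1.1)
  refine ⟨(m : s) × t m, inferInstance, fun j => j.2, p, (epi_iff p).2 ?_⟩
  rw [← LinearMap.range_eq_top, eq_top_iff, ← hs, Submodule.span_le]
  intro m hm
  rw [← ht m]
  refine sum_mem fun d hd => ⟨(biproduct.ι (fun j : (m : s) × t m => fr A I j.2)
    ⟨⟨m, hm⟩, d, hd⟩).hom.1 (one d), ?_⟩
  exact congr(($(biproduct.ι_desc (f := fun j : (m : s) × t m => fr A I j.2)
    (fun j => ofEl (prj_mem M.property j.2.1 j.1.1)) ⟨⟨m, hm⟩, d, hd⟩)).hom.1 (one d)).trans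
      (ofEl_one _)

lemma null_of_fac {𝒜 : Type*} [Category 𝒜] [Preadditive 𝒜] [HasZeroObject 𝒜] {X : 𝒜}
    {Z : CochainComplex 𝒜 ℤ} (φ : (CochainComplex.singleFunctor 𝒜 0).obj X ⟶ Z) (h : X ⟶ Z.X (-1))
    (e : (HomologicalComplex.singleObjXSelf (.up ℤ) 0 X).inv ≫ φ.f 0 = h ≫ Z.d (-1) 0) :
    (qq 𝒜).map φ = 0 := by
  rw [← (qq 𝒜).map_zero]
  refine HomotopyCategory.eq_of_homotopy _ _ ((CochainComplex.HomComplex.Cochain.equivHomotopy
    φ 0).symm ⟨.fromSingleMk h (zero_add _), ?_⟩)
  rw [CochainComplex.HomComplex.Cochain.δ_fromSingleMk _ _ 0 0 rfl, ← e]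
  apply (CochainComplex.HomComplex.Cochain.fromSingleEquiv (zero_add 0)).injective
  simp [CochainComplex.HomComplex.Cochain.fromSingleEquiv]

/-- If `r` times every cycle of degree 0 is a boundary for a suitable power, the same power kills
maps from a free module. -/
lemma tors_null (Z : KK (GrMod A I)) (f : R) (hZ : ∀ z, (Z.as.d 0 1).hom.1 z = 0 →
    ∃ (k : ℕ) (w : _), (Z.as.d (-1) 0).hom.1 w = f ^ k • z) {d : G}
    (u : (sg _ 0).obj (fr A I d) ⟶ Z) : ∃ k : ℕ, ∀ (a d' : G) (hr : f ^ k ∈ A a)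
      (h : a + d = d'), (sg _ 0).map (frMul hr h) ≫ u = 0 := by
  obtain ⟨Z⟩ := Z
  obtain ⟨φ⟩ := u
  let e := HomologicalComplex.singleObjXSelf (.up ℤ) 0 (fr A I d)
  have h0 : (e.inv ≫ φ.f 0) ≫ Z.d 0 1 = 0 := by
    rw [Category.assoc, φ.comm]
    erw [HomologicalComplex.single_obj_d, zero_comp, comp_zero]
  obtain ⟨k, w, hw⟩ := hZ ((e.inv ≫ φ.f 0).hom.1 (one d)) congr(($h0).hom.1 (one d))
  refine ⟨k, fun a d' hr h => ((qq _).map_comp _ _).symm.trans
    (null_of_fac _ (ofEl (prj_mem (Z.X (-1)).property d' w)) ?_)⟩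
  have : (HomologicalComplex.singleObjXSelf (.up ℤ) 0 (fr A I d')).inv ≫
      ((CochainComplex.singleFunctor _ 0).map (frMul hr h) ≫ φ).f 0 =
        frMul hr h ≫ e.inv ≫ φ.f 0 := by
    erw [HomologicalComplex.comp_f, HomologicalComplex.single_map_f_self]
    simp [e]
  refine this.trans (fr_ext ?_)
  rw [frMul_comp, ← hw]
  change _ = (Z.d (-1) 0).hom.1 ((ofEl _).hom.1 _)
  rw [ofEl_one, ← hom_pr, hw, prj_same]
  exact mem_cast ((Z.X 0).obj.smul_mem hr ((e.inv ≫ φ.f 0).hom.2 _ _ (one_mem d))) h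

end FMX
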