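import Pool.Agent.MP_0e6a9f_ag.H32.Cox
import Pool.Agent.MP_0e6a9f_ag.H36.Res
import Pool.Agent.MP_0e6a9f_ag.H19.Glue

/-!
Definitions and statements for the geometric realization of gluings.
The plan is in the team store, file MP_0e6a9f_H32_geo.md.
-/

set_option autoImplicit false

open FMD FMD.DG
open FMD.DGR (tens tm env)

noncomputable section
namespace FMX

/-- The values of a finite family as a list. -/
def lst {C α : Type} [Fintype C] (x : C → α) : List α := Finset.univ.toList.map x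

lemma mem_lst {C α : Type} [Fintype C] {x : C → α} {a : α} : a ∈ lst x ↔ ∃ c, x c = a := by
  simp [lst]

section
variable {K G R : Type} [Field K] [AddCommGroup G] [CommRing R] [Algebra K R]

variable (K) in
/-- `R[1/y]` is a localization of a polynomial ring, and `R` embeds into it. -/
def PLAt (y : R) : Prop :=
  ∃ (T : Type) (_ : CommRing T) (_ : Algebra K T) (ψ : R →ₐ[K] T) (τ : Type) (_ : Finite τ)
    (f : MvPolynomial τ K →ₐ[K] T), Function.Injective ψ ∧ IsUnit (ψ y) ∧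
    (∀ t, ∃ (k : ℕ) (r : R), t * ψ y ^ k = ψ r) ∧ Function.Injective f ∧
    ∀ t, ∃ p w, IsUnit (f w) ∧ t * f w = f p

/-- `θ` identifies `C` with the matrices whose entries have the degrees `a o' - a o`. -/
structure Theta (C : DGR) [Algebra K C.B] (A : G → Submodule K R) (a : C.O → G)
    (θ : C.B →ₐ[K] Matrix C.O C.O R) : Prop where
  e : ∀ o, θ (C.e o) = Matrix.single o o 1
  mem : ∀ b o' o, θ b o' o ∈ A (a o' - a o)
  inj : Function.Injective θ
  surj : ∀ M : Matrix C.O C.O R, (∀ o' o, M o' o ∈ A (a o' - a o)) → ∃ b, θ b = M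

variable [CharP K 2] {A : G → Submodule K R} [SetLike.GradedMonoid A]

/-- No local cohomology in the degrees of `U`. -/
def Van (xs : List (HE A)) (U : Set G) (M : DG A) : Prop := AcycOn U ((gamF xs).obj M)

/-- The two lists define the same torsion modules. -/
def Eqv (xs ys : List (HE A)) : Prop := ∀ M : DG A, TorsL xs M ↔ TorsL ys M

/-- Free of finite rank. -/
def IsFree (T : DG A) : Prop :=
  ∃ (J : Type) (_ : Fintype J) (_ : DecidableEq J) (a : J → G) (n : J → ℤ)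
    (p : J → T.M →ₗ[R] R) (s : J → T.M), Free T a n p s

variable (A) in
/-- The free complex with generators of bidegree `(b g, lev g)` and differential `δ`. -/
@[reducible] def Wc {I : Type} [Fintype I] (b : I → G) (lev : I → ℕ) (δ : Matrix I I R)
    (h1 : ∀ g g', δ g g' ∈ A (b g - b g')) (h2 : ∀ g g', δ g g' ≠ 0 → lev g' = lev g + 1)
    (h3 : δ * δ = 0) : DG A where
  M := I → R
  gr γ n :=
    { carrier := {x | ∀ g, x g ∈ (ring A).gr (γ - b g) (n - lev g)}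
      add_mem' := fun h h' g => add_mem (h g) (h' g)
      zero_mem' := fun _ => zero_mem _
      neg_mem' := fun h g => neg_mem (h g) }
  smul_mem hr h g := DG.mem_cast (M := ring A) ((ring A).smul_mem hr (h g)) (by abel) rfl
  d := Matrix.vecMulLinear δ
  d_mem {γ n x} h g' := by
    change ∑ g, x g * δ g g' ∈ _
    refine sum_mem fun g _ => ?_
    by_cases h0 : δ g g' = 0
    · rw [h0, mul_zero]; exact zero_mem _
    · rw [mul_comm]
      exact DG.mem_cast (M := ring A) ((ring A).smul_mem (h1 g g') (h g)) (by abel)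
        (by rw [h2 g g' h0]; push_cast; ring)
  d_d x := by simp [h3]

end

/-- A graded ring with blocks of homogeneous elements. -/
structure Tower (K : Type) [Field K] where
  ι : Type
  Y : Type
  [fi : Fintype ι]
  [di : DecidableEq ι]
  [fy : Fintype Y]
  ht : ι → ℕ
  blk : Y → ι
  n : Y → ι → ℕ
  R : Type
  [cr : CommRing R]
  [alg : Algebra K R]
  A : (ι → ℤ) → Submodule K R
  [gm : SetLike.GradedMonoid A]
  y : Y → R
  mem : ∀ v, y v ∈ A (Pi.single (blk v) 1 - fun j => (n v j : ℤ))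

attribute [instance] Tower.fi Tower.di Tower.fy Tower.cr Tower.alg Tower.gm

namespace Tower
variable {K : Type} [Field K] (T : Tower K)

/-- The grading group. -/
abbrev G := T.ι → ℤ

/-- The degree of a block element. -/
def deg (v : T.Y) : T.G := Pi.single (T.blk v) 1 - fun j => (T.n v j : ℤ)

/-- A block element with its degree. -/
def he (v : T.Y) : HE T.A := ⟨T.y v, T.deg v, T.mem v⟩

/-- One element in each block. -/
def Chart := {d : T.ι → T.Y // ∀ i, T.blk (d i) = i}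

instance : Fintype T.Chart := Subtype.fintype _

/-- The product of the elements of a chart. -/
def ch (d : T.Chart) : HE T.A :=
  ⟨∏ i, T.y (d.1 i), ∑ i, T.deg (d.1 i), SetLike.prod_mem_graded _ _ _ fun _ _ => T.mem _⟩

/-- The list of the charts. -/
def xs : List (HE T.A) := lst T.ch

/-- The conditions that make the tower a smooth projective variety. -/
structure OK : Prop where
  hn : ∀ v j, T.n v j ≠ 0 → T.ht j < T.ht (T.blk v)
  dom : IsDomain T.R
  span : ∀ r, r ∈ ⨆ g, T.A g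
  ind : Ind fun g => (T.A g).toAddSubgroup
  gen : ∀ B : T.G → Submodule K T.R, 1 ∈ B 0 → (∀ v g, ∀ r ∈ B g, T.y v * r ∈ B (T.deg v + g)) →
    ∀ d g, ∀ r ∈ T.A g, ∃ k : ℕ, (T.ch d).x ^ k * r ∈ B (k • (T.ch d).deg + g)
  nice : ∃ S : Set T.Chart, (∀ d ∈ S, PLAt K (T.ch d).x) ∧
    ∀ d, (T.ch d).x ∈ (Ideal.span ((fun d => (T.ch d).x) '' S)).radical
  pt : ∃ (π : T.R →ₐ[K] K) (d : T.Chart), π (T.ch d).x ≠ 0

end Tower

variable (K : Type) [Field K] [CharP K 2]

/-- `C` is the endomorphism algebra of a sum of line bundles without higher cohomology. -/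
structure Real (C : DGR) [Algebra K C.B] where
  T : Tower K
  ok : T.OK
  a : C.O → T.G
  θ : C.B →ₐ[K] Matrix C.O C.O T.R
  theta : Theta C T.A a θ
  van : ∀ o' o, Van T.xs {a o' - a o} (ring T.A)
  zero : ∀ r ∈ T.A 0, ∃ c, algebraMap K T.R c = r

/-- `C` is realized by perfect complexes on a smooth projective variety. -/
structure Geo (C : DGR) [Algebra K C.B] where
  X : MP K
  R : Type
  [cr : CommRing R]
  [alg : Algebra K R]
  A : (X.ι → ℤ) → Submodule K R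
  [gm : SetLike.GradedMonoid A]
  φ : GH (grading K X.blk) A
  xs : List (HE (grading K X.blk))
  T : DG A
  Z : DG A
  ρ : Rep C T
  j : T.M →ₗ[R] Z.M
  smooth : X.SmoothVar
  reg : RegCover X
  sub : ∀ c, ∃ y ∈ xs, y.x = X.x c
  sup : ∀ y ∈ xs, ∃ c, X.x c = y.x
  chart : φ.Chart X.I.toIdeal xs
  hon : (ring A).Hon
  free : IsFree T
  lin : ∀ c, ρ.ρ (algebraMap K C.B c) = algebraMap K R c • LinearMap.id
  isW : IsW (xs.map φ.he) T Z j
  isLocal : IsLocal (xs.map φ.he) Z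
  qis : Cx.Qis C.self.cx (hom T Z) (ρ.unitMap j)

attribute [instance] Geo.cr Geo.alg Geo.gm

/-- row TOWER: a tower is a smooth projective variety -/
def TowerStmt : Prop :=
  ∀ T : Tower K, T.OK → ∃ (V : Type) (_ : Fintype V) (blk : V → T.ι)
    (I : HomogeneousIdeal (grading K blk)) (φ : GH (grading K blk) T.A)
    (xs : List (HE (grading K blk))),
    (MP.mk T.ι V blk I).SmoothVar ∧ RegCover (MP.mk T.ι V blk I) ∧
    (∀ c, ∃ y ∈ xs, y.x = (MP.mk T.ι V blk I).x c) ∧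
    (∀ y ∈ xs, ∃ c, (MP.mk T.ι V blk I).x c = y.x) ∧
    φ.Chart I.toIdeal xs ∧ (ring T.A).Hon ∧ Eqv (xs.map φ.he) T.xs

/-- row PROD: products -/
def ProdStmt : Prop :=
  ∀ (C₁ C₂ : DGR) [Algebra K C₁.B] [Algebra K C₂.B] [C₁.KL K] [C₂.KL K]
    (R₁ : Real K C₁) (R₂ : Real K C₂), ∃ (R : Real K (tens K C₁ C₂))
    (i₁ : R₁.T.R →ₐ[K] R.T.R) (i₂ : R₂.T.R →ₐ[K] R.T.R)
    (j₁ : R₁.T.G →+ R.T.G) (j₂ : R₂.T.G →+ R.T.G),
    (∀ o₁ o₂, R.a (o₁, o₂) = j₁ (R₁.a o₁) + j₂ (R₂.a o₂)) ∧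
    (∀ x y o₁' o₂' o₁ o₂, R.θ (tm K C₁ C₂ x y) (o₁', o₂') (o₁, o₂) =
      i₁ (R₁.θ x o₁' o₁) * i₂ (R₂.θ y o₂' o₂)) ∧
    Theta C₁ R.T.A (fun o => j₁ (R₁.a o)) (i₁.mapMatrix.comp R₁.θ) ∧
    Theta C₂ R.T.A (fun o => j₂ (R₂.a o)) (i₂.mapMatrix.comp R₂.θ)

/-- row LAD: the projective bundle over the ladder -/
def LadStmt : Prop :=
  ∀ (T : Tower K), T.OK → ∀ (I : Type) [Fintype I] (b : I → T.G) (lev : I → ℕ)
    (δ : Matrix I I T.R) (h1 : ∀ g g', δ g g' ∈ T.A (b g - b g'))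
    (h2 : ∀ g g', δ g g' ≠ 0 → lev g' = lev g + 1) (h3 : δ * δ = 0), 2 ≤ Fintype.card I →
    ∃ (T' : Tower K) (i : T.G →+ T'.G) (β : T.R →ₐ[K] T'.R) (z : T'.G) (P Z : DG T'.A)
      (aug : P.M →ₗ[T'.R] T'.R) (φ : I → P.M →ₗ[T'.R] T'.R) (j : T'.R →ₗ[T'.R] Z.M),
      T'.OK ∧ IsFree P ∧ (∀ g, ∀ r ∈ T.A g, β r ∈ T'.A (i g)) ∧
      IsW T'.xs P (ring T'.A) aug ∧ IsW T'.xs (ring T'.A) Z j ∧ IsLocal T'.xs Z ∧
      (∀ g, φ g ∈ deg P (ring T'.A) (z + i (b g)) (lev g)) ∧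
      (∀ g, homD P (ring T'.A) (φ g) = ∑ g', β (δ g g') • φ g') ∧
      (∀ g, Van T.xs {g} (ring T.A) → ∃ f, Cx.Qis ((ring T.A).cx g) (Z.cx (i g)) f ∧
        ∀ r, f r = j (β r)) ∧
      (∀ g, Van T.xs {g} (ring T.A) → ∃ f, Cx.Qis ((ring T.A).cx g) ((homO P Z).cx (i g)) f ∧
        ∀ r, f r = β r • j ∘ₗ aug) ∧
      (∀ g, (Z.cx (i g - z)).Acyc) ∧
      ∀ γ, (∀ g, Van T.xs {γ - b g} (ring T.A)) →
        ∃ f, Cx.Qis ((Wc T.A b lev δ h1 h2 h3).cx γ) ((homO P Z).cx (z + i γ)) f ∧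
          ∀ x : I → T.R, f x = ∑ g, β (x g) • j ∘ₗ φ g

/-- The geometric realization of a gluing. -/
def GeoStmt : Prop :=
  ∀ (A : DGR) [Algebra K A.B] [A.KL K], (∀ b, b ∈ A.gr 0) → (∀ n, ∀ b ∈ A.gr n, n ≠ 0 → b = 0) →
    (∀ b, A.d b = 0) → Real K A → ∀ n : Tw (env K A A), 2 ≤ Fintype.card n.I →
    Nonempty (Geo K (glue (Fr n)))

end FMX
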