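import Pool.Agent.MP_0e6a9f_ag.H68.Gr

/-! Graded modules: projections, sub- and quotient objects, the abelian structure. -/

set_option backward.isDefEq.respectTransparency false
set_option linter.unusedSectionVars false

open CategoryTheory Limits DirectSum FMD

noncomputable section
namespace FMX

section
variable {G V W : Type} [DecidableEq G] [AddCommGroup V] [AddCommGroup W]
  {gr : G → AddSubgroup V} (h : IsInternal gr)

/-- The projection onto degree `d`. -/
def prj (d : G) : V →+ V :=
  letI := h.chooseDecomposition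
  (gr d).subtype.comp ((DFinsupp.evalAddMonoidHom d).comp (decomposeAddEquiv gr).toAddMonoidHom)

lemma prj_mem (d : G) (v : V) : prj h d v ∈ gr d := SetLike.coe_mem _

lemma prj_same {d : G} {v : V} (hv : v ∈ gr d) : prj h d v = v :=
  letI := h.chooseDecomposition
  decompose_of_mem_same gr hv

lemma prj_ne {d e : G} {v : V} (hv : v ∈ gr e) (he : e ≠ d) : prj h d v = 0 :=
  letI := h.chooseDecomposition
  decompose_of_mem_ne gr hv he

include h in
@[elab_as_elim]
lemma gr_ind {p : V → Prop} (v : V) (zero : p 0) (hom : ∀ d, ∀ v ∈ gr d, p v)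
    (add : ∀ u v, p u → p v → p (u + v)) : p v :=
  letI := h.chooseDecomposition
  Decomposition.inductionOn gr zero (fun m => hom _ _ m.2) add v

lemma exists_sum_prj (v : V) : ∃ s : Finset G, ∑ d ∈ s, prj h d v = v := by
  classical
  let := h.chooseDecomposition
  exact ⟨_, sum_support_decompose gr v⟩

lemma isInternal_of (p : G → V →+ V) (same : ∀ d, ∀ v ∈ gr d, p d v = v)
    (ne : ∀ d e, e ≠ d → ∀ v ∈ gr e, p d v = 0) (sp : ∀ v, v ∈ ⨆ d, gr d) : IsInternal gr := by
  have key (x : ⨁ d, gr d) (d : G) : p d (DirectSum.coeAddMonoidHom gr x) = x d := by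
    induction x using DirectSum.induction_on with
    | zero => simp
    | add x y hx hy => simp [hx, hy]
    | of e m =>
      rw [coeAddMonoidHom_of]
      by_cases he : e = d
      · subst he; rw [of_eq_same, same _ _ m.2]
      · rw [of_eq_of_ne _ _ _ (Ne.symm he), ne _ _ he _ m.2]; rfl
  refine ⟨fun x y e => DFinsupp.ext fun d => Subtype.ext (by rw [← key, ← key, e]), fun v => ?_⟩
  induction sp v using AddSubgroup.iSup_induction' with
  | hp d x hx => exact ⟨of (fun d => gr d) d ⟨x, hx⟩, coeAddMonoidHom_of _ _ _⟩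
  | h1 => exact ⟨0, map_zero _⟩
  | hadd x y _ _ hx hy =>
    obtain ⟨a, rfl⟩ := hx
    obtain ⟨b, rfl⟩ := hy
    exact ⟨a + b, map_add _ _ _⟩

lemma map_prj {gr' : G → AddSubgroup W} (h' : IsInternal gr') (f : V →+ W) (σ : G → G)
    (hσ : Function.Injective σ) (hf : ∀ d, ∀ v ∈ gr d, f v ∈ gr' (σ d)) (d : G) (v : V) :
    prj h' (σ d) (f v) = f (prj h d v) := by
  induction v using gr_ind h with
  | zero => simp
  | add u v hu hv => simp [hu, hv]
  | hom e v hv =>
    by_cases he : e = d
    · subst he; rw [prj_same h hv, prj_same h' (hf _ _ hv)]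
    · rw [prj_ne h hv he, prj_ne h' (hf _ _ hv) (hσ.ne he), map_zero]

lemma isInternal_map (π : V →+ W) (hπ : Function.Surjective π)
    (hk : ∀ d v, π v = 0 → π (prj h d v) = 0) : IsInternal fun d => (gr d).map π := by
  let p (d : G) : W →+ W := π.liftOfSurjective hπ ⟨π.comp (prj h d), fun v hv => hk d v hv⟩
  have hp (d v) : p d (π v) = π (prj h d v) := π.liftOfRightInverse_comp_apply _ _ _ _
  refine isInternal_of p ?_ ?_ fun w => ?_
  · rintro d _ ⟨v, hv, rfl⟩; rw [hp, prj_same h hv]
  · rintro d e he _ ⟨v, hv, rfl⟩; rw [hp, prj_ne h hv he, map_zero]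
  · obtain ⟨v, rfl⟩ := hπ w
    obtain ⟨s, hs⟩ := exists_sum_prj h v
    rw [← hs, map_sum]
    exact sum_mem fun d _ => AddSubgroup.mem_iSup_of_mem d ⟨_, prj_mem h d v, rfl⟩

lemma isInternal_comap (S : AddSubgroup V) (hS : ∀ d, ∀ v ∈ S, prj h d v ∈ S) :
    IsInternal fun d => (gr d).comap S.subtype := by
  refine isInternal_of (fun d => ((prj h d).comp S.subtype).codRestrict S fun v => hS d _ v.2)
    (fun d v hv => Subtype.ext (prj_same h hv)) (fun d e he v hv => Subtype.ext (prj_ne h hv he))
    fun v => ?_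
  obtain ⟨s, hs⟩ := exists_sum_prj h v.1
  have : v = ∑ d ∈ s, ⟨prj h d v, hS d _ v.2⟩ := Subtype.ext (by simp [hs])
  rw [this]
  exact sum_mem fun d _ => AddSubgroup.mem_iSup_of_mem d (prj_mem h d v.1)

include h in
lemma isInternal_comp (e : G ≃ G) : IsInternal fun d => gr (e d) := by
  refine isInternal_of (fun d => prj h (e d)) (fun d v hv => prj_same h hv)
    (fun d d' he v hv => prj_ne h hv (e.injective.ne he)) fun v => ?_
  induction v using gr_ind h with
  | zero => exact zero_mem _
  | add u v hu hv => exact add_mem hu hv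
  | hom d v hv => exact AddSubgroup.mem_iSup_of_mem (e.symm d) (by simpa using hv)

end

variable {K G R : Type} [Field K] [AddCommGroup G] [DecidableEq G] [CommRing R] [Algebra K R]
  {A : G → Submodule K R} [GradedAlgebra A] {I : HomogeneousIdeal A} {L M N : GrMod A I}

/-- The projection onto degree `d`. -/
abbrev pr (M : GrMod A I) (d : G) : M.obj.M →+ M.obj.M := prj M.property d

/-- A morphism from a degree-preserving linear map. -/
def mkHom (f : M.obj.M →ₗ[R] N.obj.M) (hf : ∀ d m, m ∈ M.obj.gr d → f m ∈ N.obj.gr d) : M ⟶ N :=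
  ObjectProperty.homMk ⟨f, hf⟩

lemma hom_ext {f g : M ⟶ N} (h : ∀ m, f.hom.1 m = g.hom.1 m) : f = g :=
  ObjectProperty.hom_ext _ (Pre.hom_ext h)

lemma hom_pr (f : M ⟶ N) (d : G) (m : M.obj.M) : pr N d (f.hom.1 m) = f.hom.1 (pr M d m) :=
  map_prj M.property N.property f.hom.1.toAddMonoidHom id Function.injective_id f.hom.2 d m

lemma smul_pr {a : G} {r : R} (hr : r ∈ A a) (d : G) (m : M.obj.M) :
    pr M (a + d) (r • m) = r • pr M d m :=
  map_prj M.property M.property (DistribSMul.toAddMonoidHom _ r) (a + ·) (add_right_injective a)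
    (fun _ _ h => M.obj.smul_mem hr h) d m

/-- A homogeneous submodule as a graded module. -/
def sub (M : GrMod A I) (S : Submodule R M.obj.M) (hS : ∀ d, ∀ m ∈ S, pr M d m ∈ S) :
    GrMod A I where
  obj :=
    { M := S
      gr d := (M.obj.gr d).comap S.toAddSubgroup.subtype
      smul_mem hr hm := M.obj.smul_mem hr hm
      kill r hr m := Subtype.ext (M.obj.kill r hr m) }
  property := isInternal_comap M.property S.toAddSubgroup hS

/-- The quotient by a homogeneous submodule. -/
def quo (M : GrMod A I) (S : Submodule R M.obj.M) (hS : ∀ d, ∀ m ∈ S, pr M d m ∈ S) :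
    GrMod A I where
  obj :=
    { M := M.obj.M ⧸ S
      gr d := (M.obj.gr d).map S.mkQ.toAddMonoidHom
      smul_mem := by
        rintro a d r _ hr ⟨m, hm, rfl⟩
        exact ⟨r • m, M.obj.smul_mem hr hm, rfl⟩
      kill r hr m := by
        obtain ⟨m, rfl⟩ := S.mkQ_surjective m
        rw [← map_smul, M.obj.kill r hr, map_zero] }
  property := isInternal_map M.property _ S.mkQ_surjective fun d v hv =>
    (Submodule.Quotient.mk_eq_zero S).2 (hS d v ((Submodule.Quotient.mk_eq_zero S).1 hv))

lemma ker_hom (f : M ⟶ N) (d : G) : ∀ m ∈ LinearMap.ker f.hom.1, pr M d m ∈ LinearMap.ker f.hom.1 :=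
  fun m hm => by rw [LinearMap.mem_ker, ← hom_pr, LinearMap.mem_ker.1 hm, map_zero]

lemma range_hom (f : M ⟶ N) (d : G) :
    ∀ m ∈ LinearMap.range f.hom.1, pr N d m ∈ LinearMap.range f.hom.1 := by
  rintro _ ⟨m, rfl⟩
  exact ⟨_, (hom_pr f d m).symm⟩

/-- The kernel. -/
def kerFork (f : M ⟶ N) : KernelFork f :=
  KernelFork.ofι (Z := sub M _ (ker_hom f)) (mkHom (Submodule.subtype _) fun _ _ h => h)
    (hom_ext fun m => m.2)

/-- The kernel is a limit. -/
def kerIsLimit (f : M ⟶ N) : IsLimit (kerFork f) :=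
  KernelFork.IsLimit.ofι _ (kerFork f).condition
    (fun g hg => mkHom (g.hom.1.codRestrict _ fun m => congr(($hg).hom.1 m)) g.hom.2)
    (fun _ _ => rfl) fun _ _ _ h => hom_ext fun m => Subtype.ext congr(($h).hom.1 m)

/-- The cokernel. -/
def cokerCofork (f : M ⟶ N) : CokernelCofork f :=
  CokernelCofork.ofπ (Z := quo N _ (range_hom f))
    (mkHom (Submodule.mkQ _) fun _ m h => ⟨m, h, rfl⟩)
    (hom_ext fun m => (Submodule.Quotient.mk_eq_zero _).2 ⟨m, rfl⟩)

/-- The cokernel is a colimit. -/
def cokerIsColimit (f : M ⟶ N) : IsColimit (cokerCofork f) :=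
  CokernelCofork.IsColimit.ofπ _ (cokerCofork f).condition
    (fun g hg => mkHom ((LinearMap.range f.hom.1).liftQ g.hom.1 (by
      rintro _ ⟨m, rfl⟩; exact congr(($hg).hom.1 m))) (by
      rintro d _ ⟨m, hm, rfl⟩; exact g.hom.2 d m hm))
    (fun _ _ => rfl) fun _ _ _ h => hom_ext fun m => by
      obtain ⟨m, rfl⟩ := Submodule.mkQ_surjective _ m
      exact congr(($h).hom.1 m)

instance : HasKernels (GrMod A I) := ⟨fun f => ⟨⟨_, kerIsLimit f⟩⟩⟩

instance : HasCokernels (GrMod A I) := ⟨fun f => ⟨⟨_, cokerIsColimit f⟩⟩⟩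

variable (A I) in
/-- The underlying module. -/
def U : GrMod A I ⥤ ModuleCat R where
  obj M := ModuleCat.of R M.obj.M
  map f := ModuleCat.ofHom f.hom.1

instance : (U A I).Additive where

instance : (U A I).Faithful where
  map_injective h := hom_ext fun m => congr(($h).hom m)

lemma isIso_of_bij (f : M ⟶ N) (hf : Function.Bijective f.hom.1) : IsIso f := by
  let e := LinearEquiv.ofBijective f.hom.1 hf
  refine ⟨mkHom e.symm.toLinearMap fun d m hm => ?_, hom_ext e.symm_apply_apply,
    hom_ext e.apply_symm_apply⟩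
  obtain ⟨m, rfl⟩ := hf.2 m
  have : pr M d m = m := hf.1 (by rw [← hom_pr, prj_same _ hm])
  exact (e.symm_apply_apply m).symm ▸ this ▸ prj_mem _ d m

instance : (U A I).ReflectsIsomorphisms where
  reflects f _ := isIso_of_bij f (ConcreteCategory.bijective_of_isIso ((U A I).map f))

instance (f : M ⟶ N) : PreservesLimit (parallelPair f 0) (U A I) :=
  preservesLimit_of_preserves_limit_cone (kerIsLimit f)
    ((KernelFork.isLimitMapConeEquiv _ _).2 (ModuleCat.kernelIsLimit ((U A I).map f)))

instance (f : M ⟶ N) : PreservesColimit (parallelPair f 0) (U A I) :=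
  preservesColimit_of_preserves_colimit_cocone (cokerIsColimit f)
    ((CokernelCofork.isColimitMapCoconeEquiv _ _).2 (ModuleCat.cokernelIsColimit ((U A I).map f)))

instance (f : M ⟶ N) : IsIso (Abelian.coimageImageComparison f) :=
  have := IsIso.of_isIso_fac_right
    (Abelian.PreservesCoimage.hom_coimageImageComparison (U A I) f).symm
  isIso_of_reflects_iso _ (U A I)

instance : Abelian (GrMod A I) := Abelian.ofCoimageImageComparisonIsIso

instance : (U A I).PreservesHomology where

instance : PreservesFiniteLimits (U A I) := (U A I).preservesFiniteLimits_of_preservesHomology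

instance : PreservesFiniteColimits (U A I) := (U A I).preservesFiniteColimits_of_preservesHomology

lemma epi_iff (f : M ⟶ N) : Epi f ↔ Function.Surjective f.hom.1 :=
  ⟨fun _ => (ModuleCat.epi_iff_surjective ((U A I).map f)).1 inferInstance, fun h =>
    (U A I).epi_of_epi_map ((ModuleCat.epi_iff_surjective _).2 h)⟩

lemma mono_iff (f : M ⟶ N) : Mono f ↔ Function.Injective f.hom.1 :=
  ⟨fun _ => (ModuleCat.mono_iff_injective ((U A I).map f)).1 inferInstance, fun h =>
    (U A I).mono_of_mono_map ((ModuleCat.mono_iff_injective _).2 h)⟩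

lemma exact_iff (S : ShortComplex (GrMod A I)) :
    S.Exact ↔ ∀ x, S.g.hom.1 x = 0 → ∃ y, S.f.hom.1 y = x :=
  (S.exact_map_iff_of_faithful (U A I)).symm.trans (ShortComplex.moduleCat_exact_iff _)

end FMX
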