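import Pool.Agent.MP_0e6a9f_ag.H32.Van

/-! Gradings of polynomial rings, localizations and quotients; local cohomology of polynomial
rings; charts that are localized polynomial rings. -/

set_option autoImplicit false
set_option linter.unusedSectionVars false

open FMD FMD.DG MvPolynomial

noncomputable section
namespace FMX

variable {K G G' R R' : Type} [Field K] [AddCommGroup G] [AddCommGroup G'] [CommRing R]
  [Algebra K R] [CommRing R'] [Algebra K R']

/-- The pieces are independent. -/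
abbrev IndA (A : G → Submodule K R) : Prop := Ind fun g => (A g).toAddSubgroup

/-- The pieces span. -/
abbrev SpanA (A : G → Submodule K R) : Prop := ∀ r, r ∈ ⨆ g, A g

lemma IndA.of_inj {A : G → Submodule K R} {A' : G → Submodule K R'} (h : IndA A') (f : R →ₐ[K] R')
    (hf : Function.Injective f) (mem : ∀ g, ∀ r ∈ A g, f r ∈ A' g) : IndA A :=
  fun s v hv h0 i hi => hf ((h s (fun i => f (v i)) (fun i hi => mem i _ (hv i hi))
    (by rw [← map_sum, h0, map_zero]) i hi).trans (map_zero f).symm)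

lemma SpanA.ind {A : G → Submodule K R} (h : SpanA A) {P : R → Prop} (r : R)
    (mem : ∀ g, ∀ r ∈ A g, P r) (add : ∀ a b, P a → P b → P (a + b)) : P r :=
  Submodule.iSup_induction A (motive := P) (h r) mem (mem 0 0 (zero_mem _)) add

section reg
variable (i : G →+ G') (hi : Function.Injective i) (A : G → Submodule K R)

/-- The grading pushed forward along an injective map of groups. -/
def reg (g' : G') : Submodule K R where
  carrier := {r | r = 0 ∨ ∃ g, i g = g' ∧ r ∈ A g}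
  add_mem' := by
    rintro a b (rfl | ⟨g, rfl, ha⟩) (rfl | ⟨g', e, hb⟩)
    · simp
    · exact Or.inr ⟨g', e, by simpa⟩
    · exact Or.inr ⟨g, rfl, by simpa⟩
    · exact Or.inr ⟨g, rfl, add_mem ha (hi e ▸ hb)⟩
  zero_mem' := Or.inl rfl
  smul_mem' c r := by
    rintro (rfl | ⟨g, e, h⟩)
    · simp
    · exact Or.inr ⟨g, e, Submodule.smul_mem _ c h⟩

variable {i A}

lemma mem_reg {g : G} {r : R} : r ∈ reg i hi A (i g) ↔ r ∈ A g :=
  ⟨by rintro (rfl | ⟨g', e, h⟩); exacts [zero_mem _, hi e ▸ h], fun h => Or.inr ⟨g, rfl, h⟩⟩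

instance [SetLike.GradedMonoid A] : SetLike.GradedMonoid (reg i hi A) where
  one_mem := Or.inr ⟨0, map_zero i, SetLike.one_mem_graded A⟩
  mul_mem := by
    rintro _ _ a b (rfl | ⟨g, rfl, ha⟩) (rfl | ⟨g', rfl, hb⟩)
    · exact Or.inl (by simp)
    · exact Or.inl (by simp)
    · exact Or.inl (by simp)
    · exact Or.inr ⟨g + g', map_add i _ _, SetLike.mul_mem_graded ha hb⟩

lemma span_reg (h : SpanA A) : SpanA (reg i hi A) := fun r =>
  h.ind r (fun g _ hr => Submodule.mem_iSup_of_mem (i g) ((mem_reg hi).2 hr)) fun _ _ => add_mem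

lemma ind_reg (h : IndA A) : IndA (reg i hi A) := by
  classical
  intro s v hv h0 g' hg'
  rcases hv g' hg' with e | ⟨g, rfl, -⟩
  · exact e
  refine h (s.preimage i hi.injOn) (fun g => v (i g))
    (fun g hg => (mem_reg hi).1 (hv _ (Finset.mem_preimage.1 hg))) ?_ g
    (Finset.mem_preimage.2 hg')
  rw [Finset.sum_preimage i s hi.injOn v fun x hx hx' => ?_, h0]
  rcases hv x hx with e | ⟨g, e, -⟩
  exacts [e, absurd ⟨g, e⟩ hx']

end reg

section pol
variable {I : Type} (A : G → Submodule K R) (e : I → G)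

/-- The grading of the polynomial ring with `deg X i = e i`. -/
def pol (g : G) : Submodule K (MvPolynomial I R) where
  carrier := {P | ∀ m, coeff m P ∈ A (g - Finsupp.weight e m)}
  add_mem' h h' m := by rw [coeff_add]; exact add_mem (h m) (h' m)
  zero_mem' _ := zero_mem _
  smul_mem' c P h m := by rw [coeff_smul]; exact Submodule.smul_mem _ c (h m)

variable {A e}

lemma monomial_mem_pol {g : G} {m : I →₀ ℕ} {r : R} (h : r ∈ A (g - Finsupp.weight e m)) :
    monomial m r ∈ pol A e g := fun m' => by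
  classical
  rw [coeff_monomial]
  split_ifs with h'
  exacts [h' ▸ h, zero_mem _]

lemma C_mem_pol {g : G} {r : R} (h : r ∈ A g) : C r ∈ pol A e g :=
  monomial_mem_pol (by simpa using h)

lemma pol_ind {g : G} {P : MvPolynomial I R} (h : P ∈ pol A e g) {W : Type} [SetLike W (MvPolynomial I R)]
    [AddSubmonoidClass W (MvPolynomial I R)] (S : W)
    (mem : ∀ m, ∀ r ∈ A (g - Finsupp.weight e m), r ≠ 0 → monomial m r ∈ S) : P ∈ S := by
  rw [P.as_sum]
  exact sum_mem fun m hm => mem m _ (h m) (mem_support_iff.1 hm)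

lemma span_pol (h : SpanA A) : SpanA (pol A e) := fun P => by
  rw [P.as_sum]
  refine sum_mem fun m _ => h.ind (P := fun r => monomial m r ∈ ⨆ g, pol A e g) _
    (fun g r hr => Submodule.mem_iSup_of_mem (g + Finsupp.weight e m)
      (monomial_mem_pol (by simpa using hr))) fun a b ha hb => map_add (monomial m) a b ▸ add_mem ha hb

lemma ind_pol (h : IndA A) : IndA (pol A e) := fun s v hv h0 g hg => MvPolynomial.ext _ _ fun m =>
  h.reidx (σ := fun g => g - Finsupp.weight e m) sub_left_injective s (fun g => coeff m (v g))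
    (fun g hg => hv g hg m) (by rw [← coeff_sum, h0, coeff_zero]) g hg

variable [SetLike.GradedMonoid A]

lemma X_mem_pol (i : I) : X i ∈ pol A e (e i) :=
  monomial_mem_pol (by simpa [Finsupp.weight_single] using SetLike.one_mem_graded A)

instance : SetLike.GradedMonoid (pol A e) where
  one_mem := C_mem_pol (SetLike.one_mem_graded A)
  mul_mem g g' P Q hP hQ m := by
    classical
    rw [coeff_mul]
    refine sum_mem fun x hx => ?_
    have := SetLike.mul_mem_graded (hP x.1) (hQ x.2)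
    rwa [show g - Finsupp.weight e x.1 + (g' - Finsupp.weight e x.2) = g + g' - Finsupp.weight e m by
      rw [← Finset.HasAntidiagonal.mem_antidiagonal.1 hx, map_add]; abel] at this

/-- A family of subspaces that is stable under the variables is stable under monomials. -/
lemma mon_mul_mem {B : G → Submodule K R'} {y : I → R'}
    (hy : ∀ i g, ∀ r ∈ B g, y i * r ∈ B (e i + g)) (m : I →₀ ℕ) :
    ∀ g, ∀ r ∈ B g, (m.prod fun i k => y i ^ k) * r ∈ B (Finsupp.weight e m + g) := by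
  induction m using Finsupp.induction_linear with
  | zero => intro g r hr; simpa using hr
  | add m m' h h' =>
    intro g r hr
    rw [Finsupp.prod_add_index' (by simp) (fun _ _ _ => pow_add _ _ _), map_add, mul_assoc,
      add_assoc]
    exact h _ _ (h' g r hr)
  | single i k =>
    rw [Finsupp.prod_single_index (by simp), Finsupp.weight_single]
    induction k with
    | zero => intro g r hr; simpa using hr
    | succ k ih =>
      intro g r hr
      rw [pow_succ, mul_assoc, succ_nsmul, add_assoc]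
      exact ih _ _ (hy i g r hr)

lemma map_monomial' (f : MvPolynomial I R →ₐ[K] R') (m : I →₀ ℕ) (r : R) :
    f (monomial m r) = (m.prod fun i k => f (X i) ^ k) * f (C r) := by
  rw [monomial_eq, map_mul, mul_comm, map_finsuppProd]; simp

/-- An algebra map out of the polynomial ring into a family of subspaces. -/
lemma pol_map {B : G → Submodule K R'} (f : MvPolynomial I R →ₐ[K] R')
    (hC : ∀ g, ∀ r ∈ A g, f (C r) ∈ B g) (hX : ∀ i g, ∀ r ∈ B g, f (X i) * r ∈ B (e i + g))
    {g : G} {P : MvPolynomial I R} (h : P ∈ pol A e g) : f P ∈ B g :=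
  pol_ind h ((B g).comap f.toLinearMap) fun m r hr _ => by
    have := mon_mul_mem hX m _ _ (hC _ r hr)
    rwa [← map_monomial', add_sub_cancel] at this

lemma pol_map' {B : G → Submodule K R'} [SetLike.GradedMonoid B] (f : MvPolynomial I R →ₐ[K] R')
    (hC : ∀ g, ∀ r ∈ A g, f (C r) ∈ B g) (hX : ∀ i, f (X i) ∈ B (e i))
    {g : G} {P : MvPolynomial I R} (h : P ∈ pol A e g) : f P ∈ B g :=
  pol_map f hC (fun i _ _ hr => SetLike.mul_mem_graded (hX i) hr) h

lemma pol_zeta (ζ : G →+ ℤ) (hA : ∀ g, ∀ r ∈ A g, r ≠ 0 → ζ g = 0) {g : G} {P : MvPolynomial I R}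
    (h : P ∈ pol A e g) {m : I →₀ ℕ} (hm : coeff m P ≠ 0) :
    ζ g = m.sum fun i k => k * ζ (e i) := by
  have := hA _ _ (h m) hm
  rw [map_sub, sub_eq_zero, Finsupp.weight_apply, map_finsuppSum] at this
  simpa using this

end pol

section img
variable (f : R →ₐ[K] R') (A : G → Submodule K R)

/-- The image of a grading. -/
def img (g : G) : Submodule K R' := (A g).map f.toLinearMap

variable {f A}

lemma mem_img {g : G} {r : R} (h : r ∈ A g) : f r ∈ img f A g := ⟨r, h, rfl⟩

instance [SetLike.GradedMonoid A] : SetLike.GradedMonoid (img f A) where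
  one_mem := map_one f ▸ mem_img (SetLike.one_mem_graded A)
  mul_mem := by
    rintro _ _ _ _ ⟨a, ha, rfl⟩ ⟨b, hb, rfl⟩
    exact ⟨a * b, SetLike.mul_mem_graded ha hb, map_mul f a b⟩

lemma span_img (hf : Function.Surjective f) (h : SpanA A) : SpanA (img f A) := fun r => by
  obtain ⟨r, rfl⟩ := hf r
  exact h.ind (P := fun r => f r ∈ ⨆ g, img f A g) r
    (fun g _ hr => Submodule.mem_iSup_of_mem g (mem_img hr)) fun a b ha hb =>
      map_add f a b ▸ add_mem ha hb

end img

section lcz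
variable {A : G → Submodule K R} [SetLike.GradedMonoid A] (x : HE A) (f : R →ₐ[K] R')

/-- The grading of a localization. -/
def lcz (g : G) : Submodule K R' where
  carrier := {u | ∃ k : ℕ, ∃ m ∈ A (k • x.deg + g), f x.x ^ k * u = f m}
  add_mem' := by
    rintro u v ⟨k, m, hm, e⟩ ⟨l, n, hn, e'⟩
    refine ⟨k + l, x.x ^ l * m + x.x ^ k * n, add_mem ?_ ?_, ?_⟩
    · convert SetLike.mul_mem_graded (x.pow_mem l) hm using 2; rw [add_nsmul]; abel
    · convert SetLike.mul_mem_graded (x.pow_mem k) hn using 2; rw [add_nsmul]; abel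
    · simp only [map_add, map_mul, map_pow, ← e, ← e']; ring
  zero_mem' := ⟨0, 0, zero_mem _, by simp⟩
  smul_mem' c u := by
    rintro ⟨k, m, hm, e⟩
    exact ⟨k, c • m, Submodule.smul_mem _ c hm, by rw [map_smul, ← e, mul_smul_comm]⟩

variable {x f}

lemma mem_lcz {g : G} {r : R} (h : r ∈ A g) : f r ∈ lcz x f g := ⟨0, r, by simpa, by simp⟩

instance : SetLike.GradedMonoid (lcz x f) where
  one_mem := map_one f ▸ mem_lcz (SetLike.one_mem_graded A)
  mul_mem := by
    rintro g g' u v ⟨k, m, hm, e⟩ ⟨l, n, hn, e'⟩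
    refine ⟨k + l, m * n, ?_, by rw [map_mul, ← e, ← e']; ring⟩
    convert SetLike.mul_mem_graded hm hn using 2; rw [add_nsmul]; abel

lemma inv_mem_lcz {a w : R} {g : G} (ha : w ∈ A (x.deg - g)) (h : x.x = a * w) {v : R'}
    (hv : f a * v = 1) : v ∈ lcz x f (-g) :=
  ⟨1, w, by simpa [sub_eq_add_neg] using ha, by
    rw [pow_one, h, map_mul, mul_right_comm, hv, one_mul]⟩

lemma ind_lcz (h : IndA A) (hf : Function.Injective f) (hx : IsUnit (f x.x)) : IndA (lcz x f) := by
  intro s v hv h0 g hg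
  have : ∀ g, ∃ (k : ℕ) (m : R), g ∈ s → m ∈ A (k • x.deg + g) ∧ f x.x ^ k * v g = f m := fun g => by
    by_cases hg : g ∈ s
    · obtain ⟨k, m, h1, h2⟩ := hv g hg
      exact ⟨k, m, fun _ => ⟨h1, h2⟩⟩
    · exact ⟨0, 0, fun h => absurd h hg⟩
  choose k m hm using this
  have e : ∀ g ∈ s, f (x.x ^ (s.sup k - k g) * m g) = f x.x ^ s.sup k * v g := fun g hg => by
    rw [map_mul, map_pow, ← (hm g hg).2, ← mul_assoc, ← pow_add,
      Nat.sub_add_cancel (Finset.le_sup hg)]
  have := h.reidx (σ := fun g => s.sup k • x.deg + g) (add_right_injective _) s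
    (fun g => x.x ^ (s.sup k - k g) * m g) (fun g hg => by
      have := SetLike.mul_mem_graded (x.pow_mem (s.sup k - k g)) (hm g hg).1
      rwa [← add_assoc, ← add_nsmul, Nat.sub_add_cancel (Finset.le_sup hg)] at this)
    (hf (by rw [map_sum, Finset.sum_congr rfl e, ← Finset.mul_sum, h0, mul_zero, map_zero])) g hg
  exact ((hx.pow (s.sup k)).mul_right_eq_zero).1 (by rw [← e g hg, this, map_zero])

end lcz

section cyc
variable [CharP K 2] {A : G → Submodule K R} [SetLike.GradedMonoid A] {U : Set G}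

lemma mem_ring {g : G} {r : R} : r ∈ (ring A).gr g 0 ↔ r ∈ A g := Iff.rfl

lemma mem_ring_iff {g : G} {n : ℤ} {r : R} : r ∈ (ring A).gr g n ↔ r ∈ A g ∧ (n ≠ 0 → r = 0) := by
  by_cases h : n = 0
  · subst h; simp
  · refine ⟨fun hr => ?_, fun hr => hr.2 h ▸ zero_mem _⟩
    obtain rfl := eq_zero_of_mem_ring hr h
    exact ⟨zero_mem _, fun _ => rfl⟩

lemma acyc_of_zero {M : DG A} {g : G} (h : ∀ n, ∀ m ∈ M.gr g n, m = 0) : (M.cx g).Acyc :=
  fun n z hz _ => h n z hz ▸ Cx.Bd.zero n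

lemma mk_isHom (I : Ideal R) : IsHom (ring A) (cyc A I) I.mkQ :=
  ⟨fun h => ⟨_, h, rfl⟩, fun _ => rfl⟩

lemma factor_isHom {I J : Ideal R} (h : I ≤ J) : IsHom (cyc A I) (cyc A J) (Submodule.factor h) :=
  ⟨by rintro _ _ _ ⟨r, hr, rfl⟩; exact ⟨r, hr, rfl⟩, fun m => by
    obtain ⟨m, rfl⟩ := I.mkQ_surjective m
    rfl⟩

lemma mk_qisOn (I : Ideal R) (h : ∀ g ∈ U, ∀ r ∈ A g, r ∈ I → r = 0) :
    QisOn U (ring A) (cyc A I) I.mkQ :=
  ⟨mk_isHom I, fun g hg => Cx.Qis.of_bij ((mk_isHom I).cx g)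
    (fun _ v hv e => h g hg v (mem_ring_iff.1 hv).1 ((Submodule.Quotient.mk_eq_zero _).1 e))
    fun _ _ h => h⟩

/-- The sequence of a regular element on a cyclic module. -/
lemma cyc_ses {I J : Ideal R} (z : HE A) (hIJ : I ≤ J) (hz : z.x ∈ J)
    (inj : ∀ r, z.x * r ∈ I → r ∈ I)
    (ex : ∀ g, ∀ r ∈ A g, r ∈ J → ∃ u ∈ A (g - z.deg), r - z.x * u ∈ I) :
    SESOn U ((cyc A I).tg (-z.deg)) (cyc A I) (cyc A J) (z.x • LinearMap.id)
      (Submodule.factor hIJ) := by
  have hi : IsHom ((cyc A I).tg (-z.deg)) (cyc A I) (z.x • LinearMap.id) :=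
    ⟨fun h => DG.mem_cast ((cyc A I).smul_mem z.mem h) (by abel) rfl,
      fun m => (cyc A I).d.map_smul _ _⟩
  refine ⟨hi, factor_isHom hIJ, fun g _ => ⟨hi.cx g, (factor_isHom hIJ).cx g, ?_, ?_, ?_, ?_⟩⟩
  · rintro n _ ⟨r, -, rfl⟩ h
    exact (Submodule.Quotient.mk_eq_zero _).2 (inj r ((Submodule.Quotient.mk_eq_zero _).1 h))
  · rintro n _ ⟨r, -, rfl⟩
    exact (Submodule.Quotient.mk_eq_zero _).2 (J.mul_mem_right r hz)
  · rintro n _ ⟨r, hr, rfl⟩ h
    by_cases hn : n = 0
    · subst hn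
      obtain ⟨u, hu, e⟩ := ex g r hr ((Submodule.Quotient.mk_eq_zero _).1 h)
      exact ⟨I.mkQ u, ⟨u, sub_eq_add_neg g z.deg ▸ hu, rfl⟩,
        ((Submodule.Quotient.eq _).2 e).symm⟩
    · obtain rfl := eq_zero_of_mem_ring hr hn
      exact ⟨0, zero_mem _, (map_zero _).trans (map_zero _).symm⟩
  · rintro n _ ⟨r, hr, rfl⟩
    exact ⟨_, ⟨r, hr, rfl⟩, rfl⟩

variable {A' : G → Submodule K R'} [SetLike.GradedMonoid A'] (φ : GH A A')

/-- A graded algebra map as a map of modules. -/
def glin : (ring A).M →ₗ[R] (φ.res (ring A')).M :=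
  ⟨⟨φ.φ, map_add φ.φ⟩, map_mul φ.φ⟩

lemma glin_isHom : IsHom (ring A) (φ.res (ring A')) (glin φ) :=
  ⟨fun h => (mem_ring_iff (R := R')).2 ⟨φ.mem (mem_ring_iff.1 h).1,
    fun hn => (congrArg φ.φ ((mem_ring_iff.1 h).2 hn)).trans (map_zero _)⟩,
    fun _ => (map_zero φ.φ).symm⟩

lemma glin_qisOn (inj : ∀ g ∈ U, ∀ r ∈ A g, φ.φ r = 0 → r = 0)
    (surj : ∀ g ∈ U, ∀ r ∈ A' g, ∃ s ∈ A g, φ.φ s = r) :
    QisOn U (ring A) (φ.res (ring A')) (glin φ) :=
  ⟨glin_isHom φ, fun g hg => Cx.Qis.of_bij ((glin_isHom φ).cx g)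
    (fun _ v hv e => inj g hg v (mem_ring_iff.1 hv).1 e) fun n w hw => by
      by_cases hn : n = 0
      · subst hn; exact surj g hg w hw
      · exact ⟨0, zero_mem _, (map_zero φ.φ).trans (eq_zero_of_mem_ring (A := A') hw hn).symm⟩⟩

lemma glin_isLoc (x : HE A) {w : R'} (hw : w ∈ A' (-x.deg)) (e : φ.φ x.x * w = 1)
    (surj : ∀ g, ∀ v ∈ A' g, ∃ k : ℕ, ∃ m ∈ A (k • x.deg + g), φ.φ x.x ^ k * v = φ.φ m)
    (inj : Function.Injective φ.φ) : IsLoc x (ring A) (φ.res (ring A')) (glin φ) where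
  isHom := glin_isHom φ
  inv := ⟨fun {_ _ m} _ h => (IsUnit.of_mul_eq_one _ e).mul_right_eq_zero.1 h,
    fun {g n m} hm => ⟨w * (show R' from m),
      DG.mem_cast (M := ring A') ((ring A').smul_mem hw hm) (by abel) rfl, by
        change φ.φ x.x * (w * _) = _
        rw [← mul_assoc, e, one_mul]⟩⟩
  surj {g n u} hu := by
    by_cases hn : n = 0
    · subst hn
      obtain ⟨k, m, hm, h⟩ := surj g u hu
      exact ⟨k, m, hm, (φ.pow_smul (M := ring A') x k u).trans h⟩
    · obtain rfl := eq_zero_of_mem_ring (A := A') hu hn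
      exact ⟨0, 0, zero_mem _, (mul_zero (M₀ := R') _).trans (map_zero φ.φ).symm⟩
  ker _ h := ⟨0, by rw [inj (h.trans (map_zero φ.φ).symm), smul_zero]⟩

/-- A quotient ring as a cyclic module. -/
lemma cyc_res_qis (surj : ∀ g, ∀ r ∈ A' g, ∃ s ∈ A g, φ.φ s = r) {I : Ideal R}
    (hI : ∀ r, r ∈ I ↔ φ.φ r = 0) :
    Qis (cyc A I) (φ.res (ring A')) (I.liftQ (glin φ) fun r hr => (hI r).1 hr) := by
  have hh : IsHom (cyc A I) (φ.res (ring A')) (I.liftQ (glin φ) fun r hr => (hI r).1 hr) :=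
    ⟨by rintro _ _ _ ⟨r, hr, rfl⟩; exact (glin_isHom φ).mem hr, fun m => by
      obtain ⟨m, rfl⟩ := I.mkQ_surjective m
      exact (glin_isHom φ).comm m⟩
  refine ⟨hh, fun g _ => Cx.Qis.of_bij (hh.cx g) ?_ fun n w hw => ?_⟩
  · rintro n _ ⟨r, -, rfl⟩ h
    exact (Submodule.Quotient.mk_eq_zero _).2 ((hI r).2 h)
  · by_cases hn : n = 0
    · subst hn
      obtain ⟨s, hs, rfl⟩ := surj g w hw
      exact ⟨_, ⟨s, hs, rfl⟩, rfl⟩
    · exact ⟨0, zero_mem _, (map_zero _).trans (eq_zero_of_mem_ring (A := A') hw hn).symm⟩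

lemma van_res {xs : List (HE A)} {M : DG A'} : Van xs U (φ.res M) ↔ Van (xs.map φ.he) U M :=
  φ.acycOn_gam

/-- Local cohomology of a polynomial ring along a set `T` of variables. -/
theorem van_pol {I : Type} {e : I → G} (ζ : G →+ ℤ) (T : Finset I)
    (hA : ∀ g, ∀ r ∈ A g, r ≠ 0 → ζ g ≤ 0) (h1 : ∀ i ∈ T, ζ (e i) = 1)
    (h0 : ∀ i ∉ T, ζ (e i) ≤ 0) {xs : List (HE (pol A e))} (hx : ∀ x ∈ xs, 0 ≤ ζ x.deg)
    (hT : ∀ i ∈ T, ∃ x ∈ xs, x.x = X i ∧ x.deg = e i) :
    Van xs {g | 1 - (T.card : ℤ) ≤ ζ g} (ring (pol A e)) := by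
  classical
  have st : ∀ (c : ℤ) (a : G), 0 ≤ ζ a → Stab {g | c ≤ ζ g} a := fun c a ha g hg => by
    change c ≤ ζ (a + g)
    rw [map_add]; exact le_add_of_nonneg_of_le ha hg
  have key : ∀ D : Finset I, D ⊆ T → Van xs {g | 1 - (D.card : ℤ) ≤ ζ g}
      (cyc (pol A e) (Ideal.span (X '' ((T \ D : Finset I) : Set I)))) := by
    intro D
    induction D using Finset.induction_on with
    | empty =>
      refine fun _ => van_of_acyc (fun x h => st _ _ (hx x h)) fun g hg => acyc_of_zero ?_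
      rintro n _ ⟨P, hP, rfl⟩
      refine (Submodule.Quotient.mk_eq_zero _).2 (mem_ideal_span_X_image.2 fun m hm => ?_)
      by_contra hc
      have h2 := hA _ _ ((mem_ring_iff.1 hP).1 m) (mem_support_iff.1 hm)
      have h3 : ζ (Finsupp.weight e m) ≤ 0 := by
        rw [Finsupp.weight_apply, map_finsuppSum]
        refine Finset.sum_nonpos fun i hi => ?_
        change ζ (_ • _) ≤ 0
        rw [map_nsmul]
        exact nsmul_nonpos (h0 i fun h => hc ⟨i, by simpa using h, Finsupp.mem_support_iff.1 hi⟩) _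
      have h4 : 1 - ((∅ : Finset I).card : ℤ) ≤ ζ g := hg
      rw [map_sub] at h2
      simp at h4
      omega
    | insert i D hi ih =>
      intro hD
      have hiT := hD (Finset.mem_insert_self i D)
      obtain ⟨z, hz, e1, e2⟩ := hT i hiT
      refine reg_step hz (st _ _ (hx z hz)) (fun x h => st _ _ (hx x h)) (fun g hg => ?_)
        (cyc_ses z (Ideal.span_mono (Set.image_mono fun j => by simp; tauto)) ?_ ?_ ?_)
        (ih ((Finset.subset_insert i D).trans hD))
      · have h4 : 1 - ((insert i D).card : ℤ) ≤ ζ g := hg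
        change _ ≤ ζ _
        rw [map_add, e2, h1 i hiT]
        rw [Finset.card_insert_of_notMem hi] at h4
        push_cast at h4
        omega
      · exact e1 ▸ Ideal.subset_span ⟨i, by simp [hiT, hi], rfl⟩
      · intro r hr
        rw [e1, mem_ideal_span_X_image] at hr
        refine mem_ideal_span_X_image.2 fun m hm => ?_
        obtain ⟨j, hj, h⟩ := hr (Finsupp.single i 1 + m)
          (by rw [mem_support_iff, coeff_X_mul]; exact mem_support_iff.1 hm)
        have hji : j ≠ i := by rintro rfl; simp at hj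
        exact ⟨j, hj, by simpa [Finsupp.single_apply, hji.symm] using h⟩
      · intro g r hr hJ
        refine ⟨r.divMonomial (Finsupp.single i 1), fun m => ?_, ?_⟩
        · rw [coeff_divMonomial]
          convert hr _ using 2
          rw [map_add, Finsupp.weight_single, e2, one_smul]; abel
        · rw [e1, show r - X i * r.divMonomial (Finsupp.single i 1) =
            r.modMonomial (Finsupp.single i 1) by
              rw [sub_eq_iff_eq_add']; exact (divMonomial_add_modMonomial_single r i).symm]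
          refine mem_ideal_span_X_image.2 fun m hm => ?_
          have hle : ¬ Finsupp.single i 1 ≤ m := fun h =>
            mem_support_iff.1 hm (coeff_modMonomial_of_le _ h)
          obtain ⟨j, hj, h⟩ := mem_ideal_span_X_image.1 hJ m
            (by rw [mem_support_iff, ← coeff_modMonomial_of_not_le _ hle]; exact mem_support_iff.1 hm)
          have hji : j ≠ i := by
            rintro rfl
            exact hle (Finsupp.single_le_iff.2 (Nat.one_le_iff_ne_zero.2 h))
          exact ⟨j, by simp at hj ⊢; tauto, h⟩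
  exact Van.left (stabL_univ xs) (mk_qisOn _ fun _ _ r _ h => by simpa using h)
    (Set.subset_univ _) (key T subset_rfl)

end cyc

section PL
variable {y : R}

lemma PLAt.dom (h : PLAt K y) : IsDomain R :=
  let ⟨T, _, _, ψ, _, _, f, h1, _, _, h4, h5⟩ := h
  have : Nontrivial T := h4.nontrivial
  have : NoZeroDivisors T := ⟨fun {a b} e => by
    obtain ⟨p, w, hw, rfl'⟩ := h5 a
    obtain ⟨q, v, hv, rfl''⟩ := h5 b
    have : p * q = 0 := h4 (by
      rw [map_mul, ← rfl', ← rfl'', map_zero, mul_mul_mul_comm, e, zero_mul])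
    rcases mul_eq_zero.1 this with h | h
    · exact Or.inl (hw.mul_left_eq_zero.1 (by rw [rfl', h, map_zero]))
    · exact Or.inr (hv.mul_left_eq_zero.1 (by rw [rfl'', h, map_zero]))⟩
  have : IsDomain T := NoZeroDivisors.to_isDomain T
  h1.isDomain ψ

lemma plAt_mvPolynomial (τ : Type) [Finite τ] : PLAt K (1 : MvPolynomial τ K) :=
  ⟨_, _, _, AlgHom.id K _, τ, ‹_›, AlgHom.id K _, fun _ _ h => h, by simp,
    fun t => ⟨0, t, by simp⟩, fun _ _ h => h, fun t => ⟨t, 1, by simp, by simp⟩⟩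

/-- Transport along a localization. -/
lemma PLAt.of_loc (φ : R →ₐ[K] R') (inj : Function.Injective φ) {u : R} (hu : IsUnit (φ u))
    (surj : ∀ v, ∃ (k : ℕ) (r : R), v * φ u ^ k = φ r) (h : PLAt K (φ y)) : PLAt K (u * y) := by
  obtain ⟨T, _, _, ψ, τ, _, f, h1, h2, h3, h4, h5⟩ := h
  refine ⟨T, _, _, ψ.comp φ, τ, ‹_›, f, h1.comp inj, ?_, fun t => ?_, h4, h5⟩
  · rw [map_mul]; exact (hu.map ψ).mul h2
  · obtain ⟨k, v, e⟩ := h3 t
    obtain ⟨l, r, e'⟩ := surj v
    refine ⟨k + l, r * u ^ k * y ^ l, ?_⟩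
    simp only [AlgHom.comp_apply, map_mul, map_pow, ← e', ← e]
    ring

lemma PLAt.mul (h : PLAt K y) {c : R} (hc : c ≠ 0) : PLAt K (c * y) := by
  have hd := h
  obtain ⟨T, _, _, ψ, τ, _, f, h1, h2, h3, h4, h5⟩ := h
  have : IsDomain T := PLAt.dom (K := K) (y := (1 : T))
    ⟨T, _, _, AlgHom.id K T, τ, ‹_›, f, fun _ _ h => h, by simp, fun t => ⟨0, t, by simp⟩, h4, h5⟩
  have hc' : ψ c ≠ 0 := fun e => hc (h1 (e.trans (map_zero ψ).symm))
  let L := Localization.Away (ψ c)
  let a : T →ₐ[K] L := IsScalarTower.toAlgHom K T L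
  have ha : Function.Injective a :=
    IsLocalization.injective L (powers_le_nonZeroDivisors_of_noZeroDivisors hc')
  have hu : IsUnit (a (ψ c)) := IsLocalization.Away.algebraMap_isUnit _
  have hs : ∀ v : L, ∃ (k : ℕ) (t : T), v * a (ψ c) ^ k = a t := IsLocalization.Away.surj _
  refine ⟨L, _, _, a.comp ψ, τ, ‹_›, a.comp f, ha.comp h1, ?_, fun v => ?_, ha.comp h4, fun v => ?_⟩
  · rw [map_mul]; exact hu.mul (h2.map a)
  · obtain ⟨k, t, e⟩ := hs v
    obtain ⟨l, r, e'⟩ := h3 t
    refine ⟨k + l, r * c ^ l * y ^ k, ?_⟩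
    simp only [AlgHom.comp_apply, map_mul, map_pow, ← e', ← e]
    ring
  · obtain ⟨k, t, e⟩ := hs v
    obtain ⟨p, w, hw, e1⟩ := h5 t
    obtain ⟨q, z, hz, e2⟩ := h5 (ψ c)
    refine ⟨p * z ^ k, q ^ k * w, ?_, ?_⟩
    · simp only [AlgHom.comp_apply, map_mul, map_pow, ← e2]
      exact ((hu.mul (hz.map a)).pow k).mul (hw.map a)
    · simp only [AlgHom.comp_apply, map_mul, map_pow, ← e2, ← e1, ← e]
      ring

lemma PLAt.C (h : PLAt K y) (I : Type) [Finite I] : PLAt K (C y : MvPolynomial I R) := by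
  obtain ⟨T, _, _, ψ, τ, _, f, h1, h2, h3, h4, h5⟩ := h
  refine ⟨MvPolynomial I T, _, _, mapAlgHom ψ, I ⊕ τ, inferInstance,
    (mapAlgHom f).comp (sumAlgEquiv K I τ).toAlgHom, map_injective ψ.toRingHom h1, ?_, fun t => ?_,
    (map_injective f.toRingHom h4).comp (sumAlgEquiv K I τ).injective, fun t => ?_⟩
  · simpa using h2.map (MvPolynomial.C : T →+* MvPolynomial I T)
  · induction t using MvPolynomial.induction_on with
    | C t =>
      obtain ⟨k, r, e⟩ := h3 t
      exact ⟨k, MvPolynomial.C r, by simp [← e]⟩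
    | add p q hp hq =>
      obtain ⟨k, r, e⟩ := hp
      obtain ⟨l, s, e'⟩ := hq
      refine ⟨k + l, r * MvPolynomial.C y ^ l + s * MvPolynomial.C y ^ k, ?_⟩
      simp only [map_add, map_mul, map_pow, ← e, ← e']; ring
    | mul_X p i hp =>
      obtain ⟨k, r, e⟩ := hp
      exact ⟨k, r * X i, by rw [map_mul, ← e]; simp; ring⟩
  · suffices ∃ p w, IsUnit (mapAlgHom f w) ∧ t * mapAlgHom f w = mapAlgHom f p by
      obtain ⟨p, w, a1, a2⟩ := this
      exact ⟨(sumAlgEquiv K I τ).symm p, (sumAlgEquiv K I τ).symm w, by simpa using a1,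
        by simpa using a2⟩
    induction t using MvPolynomial.induction_on with
    | C t =>
      obtain ⟨p, w, hw, e⟩ := h5 t
      exact ⟨MvPolynomial.C p, MvPolynomial.C w,
        by simpa using hw.map (MvPolynomial.C : T →+* MvPolynomial I T), by simp [← e]⟩
    | add p q hp hq =>
      obtain ⟨a, w, hw, e⟩ := hp
      obtain ⟨b, v, hv, e'⟩ := hq
      refine ⟨a * v + b * w, w * v, map_mul (mapAlgHom f) w v ▸ hw.mul hv, ?_⟩
      simp only [map_add, map_mul, ← e, ← e']; ring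
    | mul_X p i hp =>
      obtain ⟨a, w, hw, e⟩ := hp
      exact ⟨a * X i, w, hw, by rw [map_mul, ← e]; simp; ring⟩

end PL

end FMX
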