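import Mathlib

/-! Finiteness of total Hom spaces in a linear triangulated category. -/

set_option backward.isDefEq.respectTransparency false

open CategoryTheory Limits Pretriangulated

namespace FMX

variable (K : Type*) [Field K] {T : Type*} [Category T] [Preadditive T] [Linear K T]

lemma fin_retract {X X' Y Y' : T} (i : X' ⟶ X) (r : X ⟶ X') (j : Y' ⟶ Y) (s : Y ⟶ Y')
    (hi : i ≫ r = 𝟙 _) (hj : j ≫ s = 𝟙 _) (h : Module.Finite K (X ⟶ Y)) :
    Module.Finite K (X' ⟶ Y') :=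
  Module.Finite.of_surjective ((Linear.rightComp K X' s).comp (Linear.leftComp K Y i))
    fun f => ⟨r ≫ f ≫ j, by simp [reassoc_of% hi, hj]⟩

lemma zero_retract {X X' Y Y' : T} (i : X' ⟶ X) (r : X ⟶ X') (j : Y' ⟶ Y) (s : Y ⟶ Y')
    (hi : i ≫ r = 𝟙 _) (hj : j ≫ s = 𝟙 _) (h : ∀ f : X ⟶ Y, f = 0) (f : X' ⟶ Y') : f = 0 := by
  have : f = i ≫ (r ≫ f ≫ j) ≫ s := by simp [reassoc_of% hi, hj]
  rw [this, h (r ≫ f ≫ j)]; simp

lemma fin_iso {X X' Y Y' : T} (e : X ≅ X') (e' : Y ≅ Y') (h : Module.Finite K (X ⟶ Y)) :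
    Module.Finite K (X' ⟶ Y') :=
  fin_retract K e.inv e.hom e'.inv e'.hom (by simp) (by simp) h

lemma zero_iso {X X' Y Y' : T} (e : X ≅ X') (e' : Y ≅ Y') (h : ∀ f : X ⟶ Y, f = 0)
    (f : X' ⟶ Y') : f = 0 :=
  zero_retract e.inv e.hom e'.inv e'.hom (by simp) (by simp) h f

lemma fin_of_zero {X Y : T} (h : ∀ f : X ⟶ Y, f = 0) : Module.Finite K (X ⟶ Y) :=
  have : Subsingleton (X ⟶ Y) := ⟨fun a b => (h a).trans (h b).symm⟩
  inferInstance

lemma fin_of_exact {U V W : Type*} [AddCommGroup U] [AddCommGroup V] [AddCommGroup W]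
    [Module K U] [Module K V] [Module K W] (f : U →ₗ[K] V) (g : V →ₗ[K] W)
    (h : ∀ v, g v = 0 → ∃ u, v = f u) [Module.Finite K U] [Module.Finite K W] :
    Module.Finite K V := by
  refine ⟨Submodule.fg_of_fg_map_of_fg_inf_ker g (IsNoetherian.noetherian _) ?_⟩
  have : ⊤ ⊓ LinearMap.ker g ≤ LinearMap.range f := fun v hv => by
    obtain ⟨u, rfl⟩ := h v hv.2
    exact ⟨u, rfl⟩
  exact (Module.Finite.iff_fg (N := ⊤ ⊓ LinearMap.ker g)).1
    (Submodule.finiteDimensional_of_le this)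

variable [HasShift T ℤ]

/-- The total Hom space `⨁ₙ Hom(X, Y[n])` is finite-dimensional. -/
def HFin (X Y : T) : Prop :=
  (∀ n : ℤ, Module.Finite K (X ⟶ Y⟦n⟧)) ∧ ∃ J : Finset ℤ, ∀ n ∉ J, ∀ f : X ⟶ Y⟦n⟧, f = 0

variable {K}

lemma HFin.retract {X X' Y Y' : T} (i : X' ⟶ X) (r : X ⟶ X') (j : Y' ⟶ Y) (s : Y ⟶ Y')
    (hi : i ≫ r = 𝟙 _) (hj : j ≫ s = 𝟙 _) (h : HFin K X Y) : HFin K X' Y' := by
  have hj' (n : ℤ) : j⟦n⟧' ≫ s⟦n⟧' = 𝟙 _ := by simp [← Functor.map_comp, hj]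
  obtain ⟨h1, J, h2⟩ := h
  exact ⟨fun n => fin_retract K i r _ _ hi (hj' n) (h1 n),
    J, fun n hn => zero_retract i r _ _ hi (hj' n) (h2 n hn)⟩

lemma HFin.iso {X X' Y Y' : T} (e : X ≅ X') (e' : Y ≅ Y') (h : HFin K X Y) : HFin K X' Y' :=
  h.retract e.inv e.hom e'.inv e'.hom (by simp) (by simp)

lemma HFin.shiftR {X Y : T} (h : HFin K X Y) (a : ℤ) : HFin K X (Y⟦a⟧) := by
  obtain ⟨h1, J, h2⟩ := h
  refine ⟨fun n => fin_iso K (Iso.refl _) ((shiftFunctorAdd T a n).app Y) (h1 _),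
    J.image (· - a), fun n hn => zero_iso (Iso.refl _) ((shiftFunctorAdd T a n).app Y) (h2 _ ?_)⟩
  exact fun h => hn (Finset.mem_image.2 ⟨_, h, by simp⟩)

variable [∀ n : ℤ, (shiftFunctor T n).Additive]

lemma zero_shift {X Y : T} (a : ℤ) (h : ∀ f : X ⟶ Y, f = 0) (f : X⟦a⟧ ⟶ Y⟦a⟧) : f = 0 := by
  obtain ⟨g, rfl⟩ := (shiftFunctor T a).map_surjective f
  simp [h g]

variable [∀ n : ℤ, (shiftFunctor T n).Linear K]

lemma fin_shift {X Y : T} (a : ℤ) (h : Module.Finite K (X ⟶ Y)) :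
    Module.Finite K (X⟦a⟧ ⟶ Y⟦a⟧) :=
  Module.Finite.of_surjective ((shiftFunctor T a).mapLinearMap K)
    (shiftFunctor T a).map_surjective

lemma HFin.shiftL {X Y : T} (h : HFin K X Y) (a : ℤ) : HFin K (X⟦a⟧) Y := by
  obtain ⟨h1, J, h2⟩ := h
  have e (n : ℤ) := ((shiftFunctorAdd' T (n - a) a n (by simp)).app Y).symm
  refine ⟨fun n => fin_iso K (Iso.refl _) (e n) (fin_shift a (h1 _)),
    J.image (· + a), fun n hn => zero_iso (Iso.refl _) (e n) (zero_shift a (h2 _ ?_))⟩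
  exact fun h => hn (Finset.mem_image.2 ⟨_, h, by simp⟩)

/-- The form used to kill maps out of shifts of `X`. -/
lemma HFin.out {X Y : T} (h : HFin K X Y) :
    (∀ n : ℤ, Module.Finite K (X⟦n⟧ ⟶ Y)) ∧
      ∃ J : Finset ℤ, ∀ n ∉ J, ∀ f : X⟦n⟧ ⟶ Y, f = 0 := by
  obtain ⟨h1, J, h2⟩ := h
  have e (n : ℤ) := (shiftFunctorCompIsoId T (-n) n (by simp)).app Y
  refine ⟨fun n => fin_iso K (Iso.refl _) (e n) (fin_shift n (h1 _)),
    J.image (- ·), fun n hn => zero_iso (Iso.refl _) (e n) (zero_shift n (h2 _ ?_))⟩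
  exact fun h => hn (Finset.mem_image.2 ⟨_, h, by simp⟩)

variable [HasZeroObject T] [Pretriangulated T]

omit [∀ n : ℤ, (shiftFunctor T n).Linear K] in
lemma HFin.extL {D : Triangle T} (hD : D ∈ distTriang T) {Y : T} (h₁ : HFin K D.obj₁ Y)
    (h₃ : HFin K D.obj₃ Y) : HFin K D.obj₂ Y := by
  obtain ⟨a1, J1, b1⟩ := h₁
  obtain ⟨a3, J3, b3⟩ := h₃
  refine ⟨fun n => fin_of_exact K (Linear.leftComp K _ D.mor₂) (Linear.leftComp K _ D.mor₁)
    (fun v hv => D.yoneda_exact₂ hD v hv), J1 ∪ J3, fun n hn f => ?_⟩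
  simp only [Finset.mem_union, not_or] at hn
  obtain ⟨g, rfl⟩ := D.yoneda_exact₂ hD f (b1 n hn.1 _)
  simp [b3 n hn.2 g]

omit [∀ n : ℤ, (shiftFunctor T n).Linear K] in
lemma HFin.extR {D : Triangle T} (hD : D ∈ distTriang T) {X : T} (h₁ : HFin K X D.obj₁)
    (h₃ : HFin K X D.obj₃) : HFin K X D.obj₂ := by
  obtain ⟨a1, J1, b1⟩ := h₁
  obtain ⟨a3, J3, b3⟩ := h₃
  have hD' (n : ℤ) := D.shift_distinguished hD n
  refine ⟨fun n => ?_, J1 ∪ J3, fun n hn f => ?_⟩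
  · exact @fin_of_exact K _ _ _ _ _ _ _ _ _ _
      (Linear.rightComp K X ((Triangle.shiftFunctor T n).obj D).mor₁)
      (Linear.rightComp K X ((Triangle.shiftFunctor T n).obj D).mor₂)
      (fun v hv => Triangle.coyoneda_exact₂ _ (hD' n) v hv) (a1 n) (a3 n)
  simp only [Finset.mem_union, not_or] at hn
  obtain ⟨g, hg⟩ := Triangle.coyoneda_exact₂ _ (hD' n) f (b3 n hn.2 _)
  rw [hg, b1 n hn.1 g, zero_comp]

variable (K) in
/-- Objects `X` with `HFin X Y` for all `Y` in `P`. -/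
def finL (P : ObjectProperty T) : ObjectProperty T := fun X => ∀ Y, P Y → HFin K X Y

variable (K) in
/-- Objects `Y` with `HFin X Y` for all `X` in `P`. -/
def finR (P : ObjectProperty T) : ObjectProperty T := fun Y => ∀ X, P X → HFin K X Y

instance (P : ObjectProperty T) : (finL K P).IsStableUnderRetracts where
  of_retract e h Y hY := (h Y hY).retract e.i e.r (𝟙 _) (𝟙 _) e.retract (by simp)

instance (P : ObjectProperty T) : (finR K P).IsStableUnderRetracts where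
  of_retract e h X hX := (h X hX).retract (𝟙 _) (𝟙 _) e.i e.r (by simp) e.retract

instance (P : ObjectProperty T) : (finL K P).IsTriangulated where
  exists_zero := by
    obtain ⟨Z, hZ⟩ := HasZeroObject.zero (C := T)
    exact ⟨Z, hZ, fun Y _ => ⟨fun n => fin_of_zero K fun f => hZ.eq_of_src _ _,
      ∅, fun n _ f => hZ.eq_of_src _ _⟩⟩
  isStableUnderShiftBy n := ⟨fun X hX Y hY => (hX Y hY).shiftL n⟩
  toIsTriangulatedClosed₂ := .mk' fun D hD h₁ h₃ Y hY => (h₁ Y hY).extL hD (h₃ Y hY)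

instance (P : ObjectProperty T) : (finR K P).IsTriangulated where
  exists_zero := by
    obtain ⟨Z, hZ⟩ := HasZeroObject.zero (C := T)
    have (n : ℤ) := (shiftFunctor T n).map_isZero hZ
    exact ⟨Z, hZ, fun Y _ => ⟨fun n => fin_of_zero K fun f => (this n).eq_of_tgt _ _,
      ∅, fun n _ f => (this n).eq_of_tgt _ _⟩⟩
  isStableUnderShiftBy n := ⟨fun X hX Y hY => (hX Y hY).shiftR n⟩
  toIsTriangulatedClosed₂ := .mk' fun D hD h₁ h₃ Y hY => (h₁ Y hY).extR hD (h₃ Y hY)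

/-- `B` lies in every thick subcategory containing `S`. -/
def ThickGen (S B : ObjectProperty T) : Prop :=
  ∀ Q : ObjectProperty T, Q.IsTriangulated → Q.IsStableUnderRetracts → S ≤ Q → B ≤ Q

/-- Finiteness of total Homs passes from generators to the thick closure. -/
theorem hfin_of_gen {S S' B B' : ObjectProperty T} (h : ThickGen S B) (h' : ThickGen S' B')
    (hS : ∀ X Y, S X → S' Y → HFin K X Y) {X Y : T} (hX : B X) (hY : B' Y) : HFin K X Y :=
  h' (finR K B) inferInstance inferInstance (fun Y hY X hX =>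
    h (finL K S') inferInstance inferInstance (fun X hX Y hY => hS X Y hX hY) X hX Y hY) Y hY X hX

end FMX
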