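import Pool.Agent.MP_0e6a9f_ag.H32.Grd

/-! Iterated Koszul complexes of pairs and the maps out of them. -/

set_option autoImplicit false
set_option linter.unusedSectionVars false

open FMD FMD.DG

noncomputable section
namespace FMX

variable {K G R : Type} [Field K] [AddCommGroup G] [CommRing R] [Algebra K R] [CharP K 2]
  {A : G → Submodule K R} [SetLike.GradedMonoid A] {U : Set G} {M N Y : DG A}

lemma shift_qis {C C' : Cx} {f : C.V →+ C'.V} (h : Cx.Qis C C' f) (k : ℤ) :
    Cx.Qis (C.shift k) (C'.shift k) f where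
  mem := h.mem
  comm := h.comm
  surj n w hw h0 := by
    obtain ⟨y, hy, h1, u, hu, e⟩ := h.surj (n + k) w hw h0
    exact ⟨y, hy, h1, u, Cx.mem_cast (C := C') hu (by ring), e⟩
  inj n z hz h0 := by
    rintro ⟨u, hu, e⟩
    obtain ⟨v, hv, e'⟩ := h.inj (n + k) z hz h0 ⟨u, Cx.mem_cast (C := C') hu (by ring), e⟩
    exact ⟨v, Cx.mem_cast (C := C) hv (by ring), e'⟩

lemma acyc_of_shift {C : Cx} {k : ℤ} (h : (C.shift k).Acyc) : C.Acyc := fun n => by
  have := (C.shift_acycAt k (n - k)).1 (h _)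
  rwa [sub_add_cancel] at this

lemma regrade_qis (P Z : DG A) (a : G) (k : ℤ) {γ γ' : G} {m m' : ℤ} (h : γ' + a = γ)
    (h' : m' + k = m) : Cx.Qis (((homO P Z).cx γ').shift m')
      (((homO ((P.tg a).sh k) Z).cx γ).shift m) (AddMonoidHom.id _) := by
  subst h h'
  exact Cx.Qis.of_bij ⟨fun h _ _ x hx => DG.mem_cast (h _ _ x hx) (by abel) (by ring), fun _ => rfl⟩
    (fun _ _ _ h => h) fun _ w hw => ⟨w, fun g n x hx => DG.mem_cast
      (hw (g - a) (n - k) x (DG.mem_cast (M := P) hx (by abel) (by ring))) (by abel) (by ring), rfl⟩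

lemma shift_zero_qis (C : Cx) {k : ℤ} (h : k = 0) : Cx.Qis (C.shift k) C (AddMonoidHom.id _) := by
  subst h
  exact Cx.Qis.of_bij ⟨fun h => Cx.mem_cast (C := C) h (add_zero _), fun _ => rfl⟩
    (fun _ _ _ h => h) fun _ w hw => ⟨w, Cx.mem_cast (C := C) hw (add_zero _).symm, rfl⟩

variable (A) in
/-- Two elements of the same degree. -/
structure Pr where
  s : R
  t : R
  h : G
  hs : s ∈ A h
  ht : t ∈ A h

namespace Pr
variable (p : Pr A)

/-- One of the two elements. -/
def he (b : Bool) : HE A := ⟨cond b p.s p.t, p.h, by cases b; exacts [p.ht, p.hs]⟩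

/-- The pair as a list. -/
def xs : List (HE A) := [p.he true, p.he false]

lemma mem_xs {x : HE A} : x ∈ p.xs ↔ ∃ b, p.he b = x := by simp [xs, or_comm, eq_comm]

lemma isTw (M : DG A) : IsTw ((M.tg (-(p.h + p.h))).sh 1) (prod (M.tg (-p.h)) (M.tg (-p.h)))
    ((p.t • LinearMap.id).prod (p.s • LinearMap.id)) :=
  ⟨fun {g n m} (h : m ∈ M.gr (g + -(p.h + p.h)) (n + 1)) =>
    ⟨DG.mem_cast (M := M) (M.smul_mem p.ht h) (by abel) rfl,
    DG.mem_cast (M := M) (M.smul_mem p.hs h) (by abel) rfl⟩, fun m => Prod.ext (M.d.map_smul _ _) (by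
      change 0 + M.d (p.s • m) = p.s • M.d m
      simp)⟩

/-- The complex `M w → M u ⊕ M v`. -/
abbrev kk (M : DG A) : DG A := ext (p.isTw M)

lemma kk_d (v : M.M × M.M × M.M) :
    (p.kk M).d v = (M.d v.1, p.t • v.1 + M.d v.2.1, p.s • v.1 + M.d v.2.2) :=
  Prod.ext rfl (Prod.ext rfl (congrArg (p.s • v.1 + ·) (zero_add _)))

/-- The map with given values on `w, u, v`. -/
def ev (M : DG A) : (R × R × R) →ₗ[R] ((p.kk M).M →ₗ[R] M.M) where
  toFun c := c.1 • LinearMap.fst R _ _ + c.2.1 • (LinearMap.fst R _ _ ∘ₗ LinearMap.snd R _ _) +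
    c.2.2 • (LinearMap.snd R _ _ ∘ₗ LinearMap.snd R _ _)
  map_add' c c' := by simp only [Prod.fst_add, Prod.snd_add, add_smul]; abel
  map_smul' r c := by simp [mul_smul]

lemma ev_apply (c : R × R × R) (v : M.M × M.M × M.M) :
    p.ev M c v = c.1 • v.1 + c.2.1 • v.2.1 + c.2.2 • v.2.2 := rfl

/-- The differential on the triples. -/
def del (c : R × R × R) : R × R × R := (p.t * c.2.1 + p.s * c.2.2, 0, 0)

lemma homD_ev (c : R × R × R) : homD (p.kk M) M (p.ev M c) = p.ev M (p.del c) :=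
  LinearMap.ext fun v => by
    have a1 := M.two (c.1 • M.d v.1)
    have a2 := M.two (c.2.1 • M.d v.2.1)
    have a3 := M.two (c.2.2 • M.d v.2.2)
    rw [homD_apply, kk_d, ev_apply, ev_apply, ev_apply]
    simp only [del, map_add, map_smul, smul_add, add_smul, smul_smul, zero_smul, mul_comm]
    linear_combination (norm := abel) a1 + a2 + a3

lemma res_deg : p.ev M (1, 0, 0) ∈ deg (p.kk M) M (-(p.h + p.h)) 1 := fun g n v hv => by
  rw [ev_apply]
  simpa using DG.mem_cast (M := M) hv.1 (add_comm _ _) rfl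

lemma mid_deg {a : G} {r r' : R} (h : r ∈ A (a + p.h)) (h' : r' ∈ A (a + p.h)) :
    p.ev M (0, r, r') ∈ deg (p.kk M) M a 0 := fun g n v hv => by
  rw [ev_apply, zero_smul, zero_add]
  exact add_mem (DG.mem_cast (M.smul_mem h hv.2.1) (by abel) (by ring))
    (DG.mem_cast (M.smul_mem h' hv.2.2) (by abel) (by ring))

lemma del_aug : p.del (0, p.s, p.t) = 0 :=
  Prod.ext (by simpa [del, mul_comm] using two_mod K R (p.s * p.t)) rfl

lemma del_res : p.del (1, 0, 0) = 0 := by simp [del]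

lemma aug_isHom (M : DG A) : IsHom (p.kk M) M (p.ev M (0, p.s, p.t)) :=
  isHom_of (p.mid_deg (by simpa using p.hs) (by simpa using p.ht))
    (by rw [homD_ev, del_aug, map_zero])

lemma aug_inv (M : DG A) (b : Bool) : ∃ σ ∈ deg M (p.kk M) p.h 0,
    ∃ κ ∈ deg (p.kk M) (p.kk M) p.h (-1), homD M (p.kk M) σ = 0 ∧
      σ ∘ₗ p.ev M (0, p.s, p.t) = (p.he b).x • LinearMap.id + homD _ _ κ ∧
      ∀ c, p.ev M c ∘ₗ σ = cond b c.2.1 c.2.2 • LinearMap.id := by
  cases b
  · refine ⟨LinearMap.inr R _ _ ∘ₗ LinearMap.inr R _ _, fun g n m hm => ⟨zero_mem _, zero_mem _,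
      DG.mem_cast (M := M) hm (by abel) (by ring)⟩,
      LinearMap.inl R _ _ ∘ₗ LinearMap.fst R _ _ ∘ₗ LinearMap.snd R _ _, fun g n v hv =>
        ⟨DG.mem_cast (M := M) hv.2.1 (by abel) (by ring), zero_mem _, zero_mem _⟩,
      LinearMap.ext fun m => ?_, LinearMap.ext fun v => ?_, fun c => LinearMap.ext fun m => ?_⟩
    · change (p.kk M).d (0, 0, m) + (0, 0, M.d m) = 0
      simp [M.two]
    · change (0, 0, p.ev M _ v) = p.t • v + ((p.kk M).d (v.2.1, 0, 0) + (((p.kk M).d v).2.1, 0, 0))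
      rw [kk_d, kk_d, ev_apply]
      refine Prod.ext ?_ (Prod.ext (by simp [M.two]) (by simp [add_comm]))
      have a1 := M.two (p.t • v.1)
      have a2 := M.two (M.d v.2.1)
      change (0 : M.M) = p.t • v.1 + (M.d v.2.1 + (p.t • v.1 + M.d v.2.1))
      linear_combination (norm := abel) -a1 - a2
    · change p.ev M _ (0, 0, m) = _
      rw [ev_apply]; simp
  · refine ⟨LinearMap.inr R _ _ ∘ₗ LinearMap.inl R _ _, fun g n m hm => ⟨zero_mem _,
      DG.mem_cast (M := M) hm (by abel) (by ring), zero_mem _⟩,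
      LinearMap.inl R _ _ ∘ₗ LinearMap.snd R _ _ ∘ₗ LinearMap.snd R _ _, fun g n v hv =>
        ⟨DG.mem_cast (M := M) hv.2.2 (by abel) (by ring), zero_mem _, zero_mem _⟩,
      LinearMap.ext fun m => ?_, LinearMap.ext fun v => ?_, fun c => LinearMap.ext fun m => ?_⟩
    · change (p.kk M).d (0, m, 0) + (0, M.d m, 0) = 0
      simp [M.two]
    · change (0, p.ev M _ v, 0) = p.s • v + ((p.kk M).d (v.2.2, 0, 0) + (((p.kk M).d v).2.2, 0, 0))
      rw [kk_d, kk_d, ev_apply]
      refine Prod.ext ?_ (Prod.ext (by simp) (by simp [M.two]))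
      have a1 := M.two (p.s • v.1)
      have a2 := M.two (M.d v.2.2)
      change (0 : M.M) = p.s • v.1 + (M.d v.2.2 + (p.s • v.1 + M.d v.2.2))
      linear_combination (norm := abel) -a1 - a2
    · change p.ev M _ (0, m, 0) = _
      rw [ev_apply]; simp

lemma aug_isW (M : DG A) : IsW p.xs (p.kk M) M (p.ev M (0, p.s, p.t)) :=
  (isW_iff (p.aug_isHom M)).2 fun x hx => by
    obtain ⟨b, rfl⟩ := p.mem_xs.1 hx
    obtain ⟨σ, h1, κ, h2, h3, h4, h5⟩ := p.aug_inv M b
    exact tors_cone_of_inv _ h1 h3 h2 (zero_mem _) h4 (by rw [h5, map_zero, add_zero]; rfl)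

lemma pre_aug_isW (M Y : DG A) :
    IsW p.xs (homO M Y) (homO (p.kk M) Y) (pre Y (p.ev M (0, p.s, p.t))) :=
  (isW_iff ((p.aug_isHom M).preO Y)).2 fun x hx => by
    obtain ⟨b, rfl⟩ := p.mem_xs.1 hx
    obtain ⟨σ, h1, κ, h2, h3, h4, h5⟩ := p.aug_inv M b
    refine tors_cone_of_inv _ (pre_deg h1) (by rw [homD_pre, h3]; exact map_zero _) (zero_mem _)
      (pre_deg h2) (LinearMap.ext fun v => ?_) (LinearMap.ext fun v => ?_)
    · change v ∘ₗ (p.ev M _ ∘ₗ σ) = _
      rw [h5, map_zero, add_zero, LinearMap.comp_smul]; rfl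
    · rw [homD_pre]
      change v ∘ₗ (σ ∘ₗ p.ev M _) = _
      rw [h4, LinearMap.comp_add, LinearMap.comp_smul]; rfl

lemma freeIn_kk {D : AddSubgroup G} (h : p.h ∈ D) (hM : FreeIn D M) : FreeIn D (p.kk M) :=
  FreeIn.ext _ ((hM.tg _ fun _ hg => sub_mem hg (neg_mem (add_mem h h))).sh 1)
    (FreeIn.ext _ (hM.tg _ fun _ hg => sub_mem hg (neg_mem h))
      (hM.tg _ fun _ hg => sub_mem hg (neg_mem h)))

end Pr

variable {J : Type} [DecidableEq J] (p : J → Pr A)

/-- The iterated complex. -/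
def KL : List J → DG A
  | [] => ring A
  | j :: L => (p j).kk (KL L)

/-- The map with given values in each factor. -/
def evL (c : J → R × R × R) : ∀ L : List J, (KL p L).M →ₗ[R] R
  | [] => LinearMap.id
  | j :: L => evL c L ∘ₗ (p j).ev (KL p L) (c j)

lemma evL_cons (c : J → R × R × R) (j : J) (L : List J) :
    evL p c (j :: L) = evL p c L ∘ₗ (p j).ev (KL p L) (c j) := rfl

lemma freeIn_KL {D : AddSubgroup G} (h : ∀ j, (p j).h ∈ D) : ∀ L, FreeIn D (KL p L)
  | [] => freeIn_ring D.zero_mem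
  | j :: L => (p j).freeIn_kk (h j) (freeIn_KL h L)

lemma evL_congr {c c' : J → R × R × R} : ∀ L : List J, (∀ j ∈ L, c j = c' j) →
    evL p c L = evL p c' L
  | [], _ => rfl
  | j :: L, h => by
    rw [evL_cons, evL_cons, h j (by simp), evL_congr L fun i hi => h i (by simp [hi])]

lemma evL_lin (c : J → R × R × R) (j : J) : ∀ L : List J, L.Nodup → j ∈ L →
    ∃ f : (R × R × R) →ₗ[R] ((KL p L).M →ₗ[R] R), ∀ x, evL p (Function.update c j x) L = f x
  | i :: L, hn, hj => by
    obtain ⟨hi, hn⟩ := List.nodup_cons.1 hn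
    by_cases e : j = i
    · subst e
      refine ⟨LinearMap.llcomp R _ _ _ (evL p c L) ∘ₗ (p j).ev (KL p L), fun x => ?_⟩
      rw [evL_cons, Function.update_self, evL_congr p (c' := c) L fun k hk =>
        Function.update_of_ne (by rintro rfl; exact hi hk) _ _]
      rfl
    · obtain ⟨f, hf⟩ := evL_lin c j L hn ((List.mem_cons.1 hj).resolve_left e)
      refine ⟨(LinearMap.llcomp R _ _ _).flip ((p i).ev (KL p L) (c i)) ∘ₗ f, fun x => ?_⟩
      rw [evL_cons, Function.update_of_ne (Ne.symm e), hf]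
      rfl

lemma homD_evL_cons (c : J → R × R × R) (j : J) (L : List J) :
    homD (KL p (j :: L)) (ring A) (evL p c (j :: L)) =
      homD (KL p L) (ring A) (evL p c L) ∘ₗ (p j).ev (KL p L) (c j) +
        evL p c L ∘ₗ (p j).ev (KL p L) ((p j).del (c j)) := by
  rw [← Pr.homD_ev]
  exact homD_comp (P := ring A) (evL p c L) _

lemma homD_evL_zero (c : J → R × R × R) : ∀ L : List J, (∀ j ∈ L, (p j).del (c j) = 0) →
    homD (KL p L) (ring A) (evL p c L) = 0
  | [], _ => (IsHom.id (ring A)).homD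
  | j :: L, h => by
    rw [homD_evL_cons, homD_evL_zero c L fun i hi => h i (by simp [hi]), h j (by simp), map_zero,
      LinearMap.comp_zero, LinearMap.zero_comp, add_zero]
    rfl

lemma homD_evL (c : J → R × R × R) (j : J) (h : ∀ i, i ≠ j → (p i).del (c i) = 0) :
    ∀ L : List J, L.Nodup → j ∈ L →
    homD (KL p L) (ring A) (evL p c L) = evL p (Function.update c j ((p j).del (c j))) L
  | i :: L, hn, hj => by
    obtain ⟨hi, hn⟩ := List.nodup_cons.1 hn
    rw [homD_evL_cons, evL_cons]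
    by_cases e : j = i
    · subst e
      have e : ∀ k ∈ L, k ≠ j := by rintro k hk rfl; exact hi hk
      rw [homD_evL_zero p c L fun k hk => h k (e k hk), LinearMap.zero_comp, zero_add,
        Function.update_self,
        evL_congr p (c := Function.update c j _) L fun k hk => Function.update_of_ne (e k hk) _ _]
    · rw [homD_evL c j h L hn ((List.mem_cons.1 hj).resolve_left e), h i (Ne.symm e), map_zero,
        LinearMap.comp_zero, add_zero, Function.update_of_ne (Ne.symm e)]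

lemma evL_deg {c : J → R × R × R} {a : J → G} {k : J → ℤ}
    (h : ∀ j M, (p j).ev M (c j) ∈ deg ((p j).kk M) M (a j) (k j)) :
    ∀ L : List J, evL p c L ∈ deg (KL p L) (ring A) (L.map a).sum (L.map k).sum
  | [] => (IsHom.id (ring A)).deg
  | j :: L => deg_cast (comp_deg (P := ring A) (evL_deg h L) (h j _)) (by simp [add_comm])
      (by simp [add_comm])

lemma evL_isW {xs : List (HE A)} (h : ∀ j, ∀ T : DG A, TorsL (p j).xs T → TorsL xs T) :
    ∀ L : List J, IsW xs (KL p L) (ring A) (evL p (fun j => (0, (p j).s, (p j).t)) L)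
  | [] => IsW.id _
  | j :: L => (evL_isW h L).comp (isW_of_dom (h j) ((p j).aug_isW _))

/-- The classes given by residues and augmentations generate the maps to a local module. -/
lemma evL_qis (Q : J → Prop) [DecidablePred Q] (lam : J → G →+ ℤ)
    (h1 : ∀ j, lam j (p j).h = 1) (h0 : ∀ i j, i ≠ j → lam i (p j).h = 0)
    (hU : ∀ j, ∀ g ∈ U, lam j g = 0 → g - (p j).h ∈ U)
    (hA : ∀ j, ∀ g ∈ U, lam j g = -1 → ∀ r ∈ A g, r = 0) (hY : ∀ j, IsLocal (p j).xs Y)
    {u : R →ₗ[R] Y.M} (hu : QisOn U (ring A) Y u) :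
    ∀ L : List J, L.Nodup → ∀ g ∈ U, (∀ j ∈ L, lam j g = 0) → ∀ γ k,
      γ = g + (L.map fun j => if Q j then -((p j).h + (p j).h) else 0).sum →
      k = (L.map fun j => if Q j then (1 : ℤ) else 0).sum →
      Cx.Qis ((ring A).cx g) (((homO (KL p L) Y).cx γ).shift k)
        (LinearMap.toSpanSingleton R _ (u ∘ₗ evL p
          (fun j => if Q j then (1, 0, 0) else (0, (p j).s, (p j).t)) L)).toAddMonoidHom
  | [], _, g, hg, _, γ, k, e, e' => by
    obtain rfl : γ = g := by simpa using e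
    obtain rfl : k = 0 := by simpa using e'
    refine (((ev_ring_qis Y).qis γ trivial).comp (shift_zero_qis _ rfl)).of_comp_left
      ⟨fun {n r} hr => ?_, fun {n r} hr => ?_⟩ ((hu.qis γ hg).congr fun n r _ => ?_)
    · exact DG.mem_cast (M := homO (ring A) Y)
        (ring_smul_mem (Z := homO (ring A) Y) hr hu.isHom.deg) (by abel) rfl
    · change homD (ring A) Y (r • u) = (0 : R) • u
      rw [map_smul, hu.isHom.homD, smul_zero, zero_smul]
    · change r • u 1 = u r
      rw [← map_smul, smul_eq_mul, mul_one]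
  | j :: L, hn, g, hg, hl, γ, k, e, e' => by
    obtain ⟨hj, hn⟩ := List.nodup_cons.1 hn
    have ih := evL_qis Q lam h1 h0 hU hA hY hu L hn
    have hl' : ∀ i ∈ L, lam i g = 0 := fun i hi => hl i (by simp [hi])
    have hF := (freeIn_KL p (D := ⊤) fun _ => trivial)
    rw [List.map_cons, List.sum_cons] at e e'
    by_cases hQ : Q j
    · rw [if_pos hQ] at e e'
      have a1 : ((homO ((KL p L).tg (-(p j).h)) Y).cx γ).Acyc := by
        have hg' := hU j g hg (hl j (by simp))
        refine (homO_tg_left _ _).2 (acyc_of_shift fun n => (ih _ hg' (fun i hi => ?_) _ _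
          (by rw [e]; abel) rfl).acyc_right (acyc_of_zero (M := ring A) (fun _ r hr =>
            hA j _ hg' ?_ r (mem_ring_iff.1 hr).1) n))
        · rw [map_sub, hl' i hi, h0 i j (by rintro rfl; exact hj hi), sub_zero]
        · rw [map_sub, hl j (by simp), h1, zero_sub]
      have a2 := ((pre_ext_ses (U := {γ}) ((p j).isTw (KL p L)) Y).ses γ rfl).qis_i fun n =>
        ((pre_ext_ses (U := {γ}) _ Y).ses γ rfl).acyc₂ (a1 n) (a1 n)
      refine (((shift_qis a2 k).comp (regrade_qis (KL p L) Y _ 1 (by rw [e]; abel)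
        (by rw [e', add_comm]))).comp (ih g hg hl' _ _ rfl rfl)).congr fun n r _ => ?_
      refine LinearMap.ext fun v => ?_
      change r • u (evL p _ L ((p j).ev _ (if Q j then _ else _) v)) = r • u (evL p _ L v.1)
      rw [if_pos hQ, Pr.ev_apply]; simp
    · rw [if_neg hQ, zero_add] at e e'
      have a2 := ((p j).pre_aug_isW (KL p L) Y).qis_of_local ((hF L).isFree.isLocal_homO (hY j))
        ((hF (j :: L)).isFree.isLocal_homO (hY j))
      refine ((shift_qis (a2.qis γ trivial) k).comp (ih g hg hl' _ _ e e')).congr fun n r _ => ?_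
      refine LinearMap.ext fun v => ?_
      change r • u (evL p _ L ((p j).ev _ (if Q j then _ else _) v)) = r • u (evL p _ L _)
      rw [if_neg hQ]

end FMX
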