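import Pool.Agent.MP_0e6a9f_ag.H32.Kos

/-! The ladder over an abstract graded ring: the maps `φ g` and the ideals of the filtration. -/

set_option autoImplicit false
set_option linter.unusedSectionVars false

open FMD FMD.DG

noncomputable section
namespace FMX

variable {K G R : Type} [Field K] [AddCommGroup G] [CommRing R] [Algebra K R] [CharP K 2]
  {A : G → Submodule K R} [SetLike.GradedMonoid A] {U : Set G} {M N Y : DG A}

lemma good_hom {P : DG A} (h : IsFree P) : (homF P).Good Set.univ := by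
  refine ⟨fun {L M N i p} S => ⟨(homF P).isHom S.hi, (homF P).isHom S.hp, fun g _ => ?_⟩,
    fun hM g _ => h.freeIn.homO_acyc DGF.good_id fun _ _ => hM _ trivial⟩
  obtain ⟨J, _, _, a, n, π, s, H⟩ := h
  have ext : ∀ {Z : DG A} {f f' : P.M →ₗ[R] Z.M}, (∀ j, f (s j) = f' (s j)) → f = f' :=
    fun {Z f f'} e => LinearMap.ext fun m => by rw [← H.tot m]; simp [e]
  have mk : ∀ (Z : DG A) k (m : J → Z.M), (∀ j, m j ∈ Z.gr (g + a j) (n j + k)) →
      ∃ f ∈ deg P Z g k, ∀ j, f (s j) = m j := fun Z k m hm =>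
    ⟨∑ j, (π j).smulRight (m j), sum_mem fun j _ _ _ _ hx =>
      DG.mem_cast (ring_smul_mem (H.hp j hx) (hm j)) (by abel) (by ring), fun j => by simp [H.ps]⟩
  refine ⟨((homF P).isHom S.hi).cx g, ((homF P).isHom S.hp).cx g, fun k v hv e => ext fun j => ?_,
    fun k v hv => ext fun j => ?_, fun k v hv e => ?_, fun k w hw => ?_⟩
  · exact (S.ses _ trivial).inj _ _ (hv _ _ _ (H.hs j)) (LinearMap.congr_fun e (s j))
  · exact (S.ses _ trivial).zero _ _ (hv _ _ _ (H.hs j))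
  · choose m h1 h2 using fun j => (S.ses _ trivial).ex _ _ (hv _ _ _ (H.hs j))
      (LinearMap.congr_fun e (s j))
    obtain ⟨f, hf, e'⟩ := mk L k m h1
    exact ⟨f, hf, ext fun j => (congrArg i (e' j)).trans (h2 j)⟩
  · choose m h1 h2 using fun j => (S.ses _ trivial).surj _ _ (hw _ _ _ (H.hs j))
    obtain ⟨f, hf, e'⟩ := mk M k m h1
    exact ⟨f, hf, ext fun j => (congrArg p (e' j)).trans (h2 j)⟩

lemma tg_qis (F : DGF A) (N : DG A) (a : G) {g g' : G} (e : g + a = g') :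
    Cx.Qis ((F.obj (N.tg a)).cx g) ((F.obj N).cx g')
      (F.map (N.tg a) N LinearMap.id).toAddMonoidHom := by
  subst e
  have a1 : (LinearMap.id : N.M →ₗ[R] N.M) ∈ deg (N.tg a) N a 0 :=
    fun _ _ _ h => DG.mem_cast (M := N) h (by abel) (by ring)
  have a2 : (LinearMap.id : N.M →ₗ[R] N.M) ∈ deg N (N.tg a) (-a) 0 :=
    fun _ _ _ h => DG.mem_cast (M := N) h (by abel) (by ring)
  have d1 : homD (N.tg a) N LinearMap.id = 0 := (IsHom.id N).homD
  refine Cx.Qis.of_bij ⟨fun h => DG.mem_cast (F.map_deg a1 _ _ _ h) (by abel) (by ring),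
    fun _ => comm_of_homD (by rw [F.map_d, d1, map_zero]) _⟩ (fun _ v _ h => ?_) fun _ w hw =>
    ⟨_, DG.mem_cast (F.map_deg a2 _ _ _ hw) (by abel) (by ring),
      (F.comp_apply _ _ w).trans (F.id_apply w)⟩
  exact ((F.comp_apply (M := N.tg a) (N := N) (P := N.tg a) LinearMap.id LinearMap.id v).trans
    (F.id_apply v)).symm.trans ((congrArg _ h).trans (map_zero _))

lemma unshift {C C' : Cx} {f : C.V →+ C'.V} {k : ℤ} (h : Cx.Qis C (C'.shift k) f) :
    Cx.Qis (C.shift (-k)) C' f :=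
  (Cx.Qis.of_bij (C := (C'.shift k).shift (-k)) (C' := C') (f := AddMonoidHom.id _)
    ⟨fun h => Cx.mem_cast (C := C') h (by ring), fun _ => rfl⟩ (fun _ _ _ h => h)
    fun _ w hw => ⟨w, Cx.mem_cast (C := C') hw (by ring), rfl⟩).comp (shift_qis h (-k))

lemma span_isMap {w : M.M} {γ γ' g : G} {k : ℤ} (hw : w ∈ M.gr γ k) (h : M.d w = 0)
    (e : γ + g = γ') : Cx.IsMap ((ring A).cx g) ((M.cx γ').shift k)
      (LinearMap.toSpanSingleton R M.M w).toAddMonoidHom :=
  ⟨fun hr => DG.mem_cast (ring_smul_mem hr hw) e rfl, fun {_ r} _ => by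
    change M.d (r • w) = (0 : R) • w
    rw [map_smul, h, smul_zero, zero_smul]⟩

lemma torsOn_cone_single {x : HE A} {f : M.M →ₗ[R] N.M} (hf : IsHom M N f) (hM : ∀ m, M.d m = 0)
    (hN : ∀ m, N.d m = 0)
    (ker : ∀ g ∈ U, ∀ n, ∀ m ∈ M.gr g n, f m = 0 → ∃ k : ℕ, x.x ^ k • m = 0)
    (surj : ∀ g ∈ U, ∀ n, ∀ v ∈ N.gr g n, ∃ k : ℕ, ∃ m ∈ M.gr (k • x.deg + g) n,
      f m = x.x ^ k • v) : TorsOn U x (cone hf) := by
  rintro g hg n ⟨m, v⟩ ⟨hm, hv⟩ h0
  have h2 : f m + N.d v = 0 := (Prod.ext_iff.1 h0).2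
  rw [hN, add_zero] at h2
  obtain ⟨k, hk⟩ := ker g hg _ m hm h2
  obtain ⟨l, w, hw, e⟩ := surj g hg _ v hv
  have b : x.x ^ k • w ∈ M.gr ((k + l) • x.deg + g) (n - 1 + 1) :=
    DG.mem_cast (pow_smul_mem x k hw) (by rw [add_nsmul, add_assoc]) (by ring)
  refine ⟨k + l, (x.x ^ k • w, 0), ⟨b, zero_mem _⟩, Prod.ext ?_ ?_⟩
  · change M.d (x.x ^ k • w) = x.x ^ (k + l) • (show M.M from m)
    rw [hM, add_comm, pow_add, mul_smul, hk, smul_zero]
  · change f (x.x ^ k • w) + N.d 0 = x.x ^ (k + l) • v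
    rw [hN, add_zero, map_smul, e, pow_add, mul_smul]

variable (A) in
/-- The data of a ladder. -/
structure Lad (l : ℕ) (I : Type) where
  p : Fin l → Pr A
  lev : I → Fin l
  b : I → G
  z : G
  δ : Matrix I I R
  σ : I → Bool → R
  ζ : G →+ ℤ
  lam : Fin l → G →+ ℤ

namespace Lad
variable {l : ℕ} {I : Type} [Fintype I] [DecidableEq I] (L : Lad A l I)

/-- The twist of the level `k`. -/
def a (k : ℕ) : G := ∑ j : Fin l, if j.val < k then (L.p j).h + (L.p j).h else 0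

/-- The degree of the local generator. -/
def e (g : I) : G := L.z + L.b g + L.a (L.lev g)

/-- The differential of the local generator. -/
def D (g : I) : R := (L.p (L.lev g)).t * L.σ g true + (L.p (L.lev g)).s * L.σ g false

/-- The charts of the ladder. -/
def u (c : Fin l → Bool) : HE A :=
  ⟨∏ j, ((L.p j).he (c j)).x, ∑ j, (L.p j).h,
    SetLike.prod_mem_graded _ _ _ fun j _ => ((L.p j).he (c j)).mem⟩

/-- The list of the charts. -/
def us : List (HE A) := lst L.u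

/-- The basis on a chart. -/
def sc (c : Fin l → Bool) (g : I) : R := L.σ g (c (L.lev g))

/-- The degrees of the base. -/
def U0 : Set G := {g | L.ζ g = 0 ∧ ∀ j, L.lam j g = 0}

/-- The degrees without cohomology along the ladder. -/
def U1 : Set G := {g | L.ζ g = 0 ∧ ∀ j, -1 ≤ L.lam j g}

/-- The conditions on the data. -/
structure OK : Prop where
  h1 : ∀ g g', L.δ g g' ∈ A (L.b g - L.b g')
  h2 : ∀ g g', L.δ g g' ≠ 0 → (L.lev g').val = L.lev g + 1
  h3 : L.δ * L.δ = 0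
  hσ : ∀ g c, L.σ g c ∈ A (L.e g + (L.p (L.lev g)).h)
  rS : ∀ g (k : Fin l) c, k.val = L.lev g + 1 →
    ((L.p k).he c).x * L.D g = ∑ g', L.δ g g' * L.σ g' c
  rT : ∀ g, (L.lev g).val + 1 = l → L.D g = 0
  lam1 : ∀ j, L.lam j (L.p j).h = 1
  lam0 : ∀ i j, i ≠ j → L.lam i (L.p j).h = 0
  ζh : ∀ j, L.ζ (L.p j).h = 0
  ζz : L.ζ L.z = 1
  hb : ∀ g, L.b g ∈ L.U0
  van : Van L.us L.U1 (ring A)
  zero : ∀ j, ∀ g ∈ L.U1, L.lam j g = -1 → ∀ r ∈ A g, r = 0
  neg : ∀ g, L.ζ g = -1 → ∀ r ∈ A g, r = 0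
  surj : ∀ c γ, L.ζ γ = 1 → ∀ r ∈ A γ, ∃ (m : ℕ) (n : I → R),
    (∀ g, n g ∈ A (m • (L.u c).deg + γ - (L.e g + (L.p (L.lev g)).h))) ∧
      (L.u c).x ^ m * r = ∑ g, n g * L.sc c g
  ind : ∀ c g γ, L.ζ γ = 0 → ∀ r ∈ A γ, r * L.sc c g ∈ Ideal.span (L.sc c '' {g}ᶜ) → r = 0
  nz : ∀ c r, (L.u c).x * r = 0 → r = 0

/-- The charts `zs` are the products of a base chart, a fibre chart and a ladder chart. -/
structure Ext (xs fib zs : List (HE A)) : Prop where
  hx : ∀ x ∈ xs, x.deg ∈ L.U0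
  fibre : ∀ c, TorsOn {g | -1 ≤ L.ζ g} (L.u c) ((gamF fib).obj (ring A))
  mem : ∀ w, w ∈ zs ↔ ∃ x ∈ xs, ∃ y ∈ fib, ∃ c, w = x.mul (y.mul (L.u c))

/-- The Koszul resolution. -/
def P : DG A := KL L.p (List.finRange l)

/-- Residues below `k`, augmentations from `k` on. -/
def c0 (k : ℕ) (j : Fin l) : R × R × R :=
  if j.val < k then (1, 0, 0) else (0, (L.p j).s, (L.p j).t)

/-- The closed maps. -/
def ω (k : ℕ) : L.P.M →ₗ[R] R := evL L.p (L.c0 k) _

/-- The maps with a free value at the place `k`. -/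
def om (k : Fin l) (x : R × R × R) : L.P.M →ₗ[R] R := evL L.p (Function.update (L.c0 k) k x) _

/-- The map of a generator. -/
def φ (g : I) : L.P.M →ₗ[R] R := L.om (L.lev g) (0, L.σ g true, L.σ g false)

lemma om_lin (k : Fin l) : ∃ f : (R × R × R) →ₗ[R] (L.P.M →ₗ[R] R), ∀ x, L.om k x = f x :=
  evL_lin L.p _ k _ (List.nodup_finRange l) (List.mem_finRange k)

lemma om_res (k : Fin l) : L.om k (1, 0, 0) = L.ω (k + 1) :=
  evL_congr _ _ fun j _ => by
    by_cases h : j = k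
    · subst h; simp [c0]
    · have : j.val ≠ k.val := fun e => h (Fin.ext e)
      rw [Function.update_of_ne h, c0, c0]
      exact if_congr (by omega) rfl rfl

lemma om_aug (k : Fin l) : L.om k (0, (L.p k).s, (L.p k).t) = L.ω k :=
  evL_congr _ _ fun j _ => by
    by_cases h : j = k
    · subst h; simp [c0]
    · rw [Function.update_of_ne h]

lemma del_c0 (k : ℕ) (j : Fin l) : (L.p j).del (L.c0 k j) = 0 := by
  unfold c0
  split_ifs
  exacts [Pr.del_res _, Pr.del_aug _]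

lemma homD_ω (k : ℕ) : homD L.P (ring A) (L.ω k) = 0 :=
  homD_evL_zero _ _ _ fun j _ => L.del_c0 k j

lemma homD_om (k : Fin l) (x : R × R × R) :
    homD L.P (ring A) (L.om k x) = L.om k ((L.p k).del x) :=
  (homD_evL L.p _ k (fun i hi => by rw [Function.update_of_ne hi, del_c0]) _
    (List.nodup_finRange l) (List.mem_finRange k)).trans
    (by rw [Function.update_idem, Function.update_self]; rfl)

lemma sum_neg_a (k : ℕ) : ((List.finRange l).map fun j : Fin l =>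
    if j.val < k then -((L.p j).h + (L.p j).h) else 0).sum = -L.a k := by
  rw [← Fin.sum_univ_def, a, ← Finset.sum_neg_distrib]
  exact Finset.sum_congr rfl fun j _ => by split_ifs <;> simp

omit L in
lemma sum_one (k : Fin l) : ((List.finRange l).map fun j : Fin l =>
    if j.val < k.val then (1 : ℤ) else 0).sum = k.val := by
  rw [← Fin.sum_univ_def, Finset.sum_boole]
  simp only [← Fin.lt_def, Finset.filter_gt_eq_Iio, Fin.card_Iio]

lemma om_deg (k : Fin l) {x : R × R × R} {a' : G} {n : ℤ}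
    (h : ∀ M, (L.p k).ev M x ∈ deg ((L.p k).kk M) M a' n) :
    L.om k x ∈ deg L.P (ring A) (a' - L.a k) (n + k.val) := by
  refine deg_cast (evL_deg L.p
    (a := fun j => (if j = k then a' else 0) +
      if j.val < k.val then -((L.p j).h + (L.p j).h) else 0)
    (k := fun j => (if j = k then n else 0) + if j.val < k.val then 1 else 0)
    (fun j M => ?_) _) ?_ ?_
  · by_cases e : j = k
    · subst e; simpa using h M
    · rw [Function.update_of_ne e, c0, if_neg e, if_neg e, zero_add, zero_add]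
      split_ifs
      exacts [Pr.res_deg _, ((L.p j).aug_isHom M).deg]
  · rw [List.sum_map_add, sum_neg_a, ← Fin.sum_univ_def]; simp [sub_eq_add_neg]
  · rw [List.sum_map_add, sum_one, ← Fin.sum_univ_def]; simp

/-- The map to the Koszul complex of the place `k`. -/
def ρ (k : Fin l) : L.P.M →ₗ[R] ((L.p k).kk (ring A)).M :=
  (L.om k (1, 0, 0)).prod ((L.om k (0, 1, 0)).prod (L.om k (0, 0, 1)))

lemma ev_ρ (k : Fin l) (x : R × R × R) : (L.p k).ev (ring A) x ∘ₗ L.ρ k = L.om k x := by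
  obtain ⟨f, hf⟩ := L.om_lin k
  have : x = x.1 • (1, 0, 0) + x.2.1 • (0, 1, 0) + x.2.2 • (0, 0, 1) := by simp
  rw [hf, this, map_add f, map_add f, map_smul f, map_smul f, map_smul f, ← hf, ← hf, ← hf, ← this]
  rfl

lemma ρ_deg (k : Fin l) : L.ρ k ∈ deg L.P ((L.p k).kk (ring A)) (-L.a k) k.val := by
  have h1 : (1 : R) ∈ A (-(L.p k).h + (L.p k).h) := by simpa using SetLike.one_mem_graded A
  exact fun g n x hx => ⟨DG.mem_cast (M := ring A)
    (L.om_deg k (fun M => Pr.res_deg _) _ _ _ hx) (by abel) (by ring),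
    DG.mem_cast (M := ring A) (L.om_deg k (fun M => Pr.mid_deg _ h1 (zero_mem _)) _ _ _ hx)
      (by abel) (by ring),
    DG.mem_cast (M := ring A) (L.om_deg k (fun M => Pr.mid_deg _ (zero_mem _) h1) _ _ _ hx)
      (by abel) (by ring)⟩

lemma om_smul_res (k : Fin l) (r : R) : L.om k (r, 0, 0) = r • L.om k (1, 0, 0) := by
  obtain ⟨f, hf⟩ := L.om_lin k
  rw [hf, hf, ← map_smul]; simp

lemma homD_ρ (k : Fin l) : homD L.P ((L.p k).kk (ring A)) (L.ρ k) = 0 := by
  have h : ∀ x v, L.om k x (L.P.d v) = ((L.p k).t * x.2.1 + (L.p k).s * x.2.2) *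
      L.om k (1, 0, 0) v := fun x v =>
    (zero_add _).symm.trans ((LinearMap.congr_fun (L.homD_om k x) v).trans
      (LinearMap.congr_fun (L.om_smul_res k _) v))
  refine LinearMap.ext fun v => ?_
  rw [homD_apply, Pr.kk_d]
  refine Prod.ext ?_ (Prod.ext ?_ ?_)
  · change 0 + L.om k _ (L.P.d v) = 0
    simp [h]
  · change (L.p k).t * L.om k (1, 0, 0) v + 0 + L.om k _ (L.P.d v) = 0
    simp [h, two_mod K R]
  · change (L.p k).s * L.om k (1, 0, 0) v + 0 + L.om k _ (L.P.d v) = 0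
    simp [h, two_mod K R]

lemma exists_cof (c : Fin l → Bool) (k : Fin l) :
    ∃ m ∈ A ((L.u c).deg - (L.p k).h), (L.u c).x = ((L.p k).he (c k)).x * m :=
  ⟨∏ j ∈ Finset.univ.erase k, ((L.p j).he (c j)).x, by
    convert SetLike.prod_mem_graded A (fun j => (L.p j).h) _
      fun j (_ : j ∈ Finset.univ.erase k) => ((L.p j).he (c j)).mem using 2
    exact sub_eq_of_eq_add (Finset.sum_erase_add _ _ (Finset.mem_univ k)).symm,
  (Finset.mul_prod_erase _ _ (Finset.mem_univ k)).symm⟩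

lemma tors_u (c : Fin l → Bool) (k : Fin l) (h : TorsOn U ((L.p k).he (c k)) M) :
    TorsOn U (L.u c) M :=
  let ⟨_, hm, e⟩ := L.exists_cof c k
  torsOn_of_pow 1 (by rw [one_nsmul]; exact hm) (by rw [pow_one]; exact e) h

lemma dom (k : Fin l) (T : DG A) (h : TorsL (L.p k).xs T) : TorsL L.us T := fun x hx => by
  obtain ⟨c, rfl⟩ := mem_lst.1 hx
  exact L.tors_u c k (h _ ((L.p k).mem_xs.2 ⟨_, rfl⟩))

lemma isLocal_pair (k : Fin l) (M : DG A) : IsLocal (L.p k).xs ((cechF L.us).obj M) :=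
  isLocal_of_dom (L.dom k) (isLocal_cech _ _)

/-- The ideal of the generators outside `S`, saturated along the charts. -/
def id (S : Finset I) : Ideal R where
  carrier := {r | ∀ c, ∃ m : ℕ, (L.u c).x ^ m * r ∈ Ideal.span (L.sc c '' (↑S)ᶜ)}
  add_mem' {r s} hr hs c := by
    obtain ⟨m, h⟩ := hr c
    obtain ⟨n, h'⟩ := hs c
    refine ⟨m + n, ?_⟩
    convert add_mem (Ideal.mul_mem_left _ ((L.u c).x ^ n) h)
      (Ideal.mul_mem_left _ ((L.u c).x ^ m) h') using 1
    ring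
  zero_mem' _ := ⟨0, by simp⟩
  smul_mem' a r hr c := by
    obtain ⟨m, h⟩ := hr c
    exact ⟨m, by rw [smul_eq_mul, mul_left_comm]; exact Ideal.mul_mem_left _ _ h⟩

lemma id_mono {S S' : Finset I} (h : S' ⊆ S) : L.id S ≤ L.id S' := fun _ hr c =>
  (hr c).imp fun _ h' => Ideal.span_mono (Set.image_mono (Set.compl_subset_compl.2 h)) h'

/-- Closed under predecessors. -/
def DC (S : Finset I) : Prop := ∀ g g', g' ∈ S → L.δ g g' ≠ 0 → g ∈ S

variable {L} (H : L.OK)
include H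

lemma OK.ζa (k : ℕ) : L.ζ (L.a k) = 0 := by
  rw [a, map_sum]
  exact Finset.sum_eq_zero fun j _ => by split_ifs <;> simp [H.ζh]

lemma OK.ζe (g : I) : L.ζ (L.e g) = 1 := by simp [e, H.ζa, H.ζz, (H.hb g).1]

lemma OK.ζu (c : Fin l → Bool) : L.ζ (L.u c).deg = 0 := by simp [u, H.ζh]

lemma OK.stab (n : ℤ) : StabL {g | L.ζ g = n} L.us := fun x hx g hg => by
  obtain ⟨c, rfl⟩ := mem_lst.1 hx
  change L.ζ _ = n
  rw [map_add, H.ζu, zero_add]; exact hg

lemma OK.free : FreeIn L.ζ.ker L.P := freeIn_KL _ H.ζh _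

lemma OK.φ_deg (g : I) : L.φ g ∈ deg L.P (ring A) (L.z + L.b g) (L.lev g).val :=
  deg_cast (L.om_deg _ fun _ => Pr.mid_deg _ (H.hσ g true) (H.hσ g false)) (by simp [e])
    (zero_add _)

lemma OK.homD_φ (g : I) : homD L.P (ring A) (L.φ g) = ∑ g', L.δ g g' • L.φ g' := by
  rw [φ, homD_om, Pr.del, om_smul_res, om_res]
  change L.D g • _ = _
  by_cases h : (L.lev g).val + 1 = l
  · rw [H.rT g h, zero_smul]
    refine (Finset.sum_eq_zero fun g' _ => ?_).symm
    rw [show L.δ g g' = 0 by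
      by_contra h'
      have := H.h2 g g' h'
      omega, zero_smul]
  · let k : Fin l := ⟨(L.lev g).val + 1, by omega⟩
    obtain ⟨f, hf⟩ := L.om_lin k
    have e : ∀ g', L.δ g g' • L.φ g' = f (L.δ g g' • (0, L.σ g' true, L.σ g' false)) := fun g' => by
      by_cases h' : L.δ g g' = 0
      · simp [h']
      · rw [map_smul, ← hf, φ, show L.lev g' = k from Fin.ext (H.h2 g g' h')]
    rw [Finset.sum_congr rfl fun g' _ => e g', ← map_sum, ← L.om_aug k, hf, ← map_smul]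
    refine congrArg f (Prod.ext (by simp [Prod.fst_sum]) (Prod.ext ?_ ?_))
    · simpa [Prod.fst_sum, Prod.snd_sum, mul_comm, Pr.he] using H.rS g k true rfl
    · simpa [Prod.fst_sum, Prod.snd_sum, mul_comm, Pr.he] using H.rS g k false rfl

lemma OK.D_mem {S : Finset I} {g : I} (h : ∀ g', L.δ g g' ≠ 0 → g' ∉ S) : L.D g ∈ L.id S := by
  by_cases h0 : (L.lev g).val + 1 = l
  · rw [H.rT g h0]; exact zero_mem _
  · intro c
    let k : Fin l := ⟨(L.lev g).val + 1, by omega⟩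
    obtain ⟨m, -, e⟩ := L.exists_cof c k
    refine ⟨1, ?_⟩
    rw [pow_one, e, mul_right_comm, H.rS g k _ rfl]
    refine Ideal.mul_mem_right _ _ (sum_mem fun g' _ => ?_)
    by_cases h' : L.δ g g' = 0
    · simp [h']
    · exact Ideal.mul_mem_left _ _ (Ideal.subset_span ⟨g', h g' h', by
        rw [sc, show L.lev g' = k from Fin.ext (H.h2 g g' h')]⟩)

lemma OK.σ_mem {S : Finset I} (hS : L.DC S) {g : I} (hg : g ∉ S) (b : Bool) : L.σ g b ∈ L.id S := by
  intro c
  have h0 : L.sc c g ∈ Ideal.span (L.sc c '' (↑S)ᶜ) := Ideal.subset_span ⟨g, hg, rfl⟩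
  by_cases h : b = c (L.lev g)
  · exact ⟨0, by rw [pow_zero, one_mul, h]; exact h0⟩
  · obtain ⟨n, hn⟩ := H.D_mem (fun g' h' hg' => hg (hS g g' hg' h')) c
    obtain ⟨m, -, e⟩ := L.exists_cof c (L.lev g)
    have e' : ((L.p (L.lev g)).he (c (L.lev g))).x * L.σ g b =
        L.D g - ((L.p (L.lev g)).he b).x * L.sc c g := by
      rw [sc, D]
      revert h
      cases b <;> cases c (L.lev g) <;> simp [Pr.he]
    refine ⟨n + 1, ?_⟩
    rw [pow_succ, mul_assoc, show (L.u c).x * L.σ g b = m * (L.D g - _ * L.sc c g) by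
      rw [← e', e]; ring, mul_left_comm, mul_sub]
    exact Ideal.mul_mem_left _ _ (sub_mem hn (Ideal.mul_mem_left _ _ (Ideal.mul_mem_left _ _ h0)))

lemma OK.φ_mem {S : Finset I} (hS : L.DC S) {g : I} (hg : g ∉ S) (x : L.P.M) :
    L.φ g x ∈ L.id S := by
  rw [φ, ← ev_ρ, LinearMap.comp_apply, Pr.ev_apply, zero_smul, zero_add]
  exact add_mem (Ideal.mul_mem_right _ _ (H.σ_mem hS hg _)) (Ideal.mul_mem_right _ _ (H.σ_mem hS hg _))

lemma OK.pow_nz (c : Fin l → Bool) (m : ℕ) : ∀ r, (L.u c).x ^ m * r = 0 → r = 0 := by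
  induction m with
  | zero => simp
  | succ m ih => exact fun r h => H.nz c r (ih _ (by rw [← mul_assoc, ← pow_succ, h]))

/-- The closed maps generate the maps into the Cech complex of the ladder. -/
lemma OK.ω_qis (k : Fin l) {g γ : G} (hg : g ∈ L.U0) (e : γ = g - L.a k) :
    Cx.Qis ((ring A).cx g) (((homO L.P ((cechF L.us).obj (ring A))).cx γ).shift k.val)
      (LinearMap.toSpanSingleton R _ ((cechEta L.us).app (ring A) ∘ₗ L.ω k)).toAddMonoidHom :=
  evL_qis (U := L.U1) L.p (fun j => j.val < k.val) L.lam H.lam1 H.lam0 (fun j g hg h => ⟨by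
      rw [map_sub, hg.1, H.ζh, sub_zero], fun i => by
      rw [map_sub]
      by_cases e : i = j
      · rw [e, h, H.lam1]; rfl
      · rw [H.lam0 i j e, sub_zero]; exact hg.2 i⟩) H.zero (fun j => L.isLocal_pair j _) H.van.eta
    _ (List.nodup_finRange l) g ⟨hg.1, fun j => by rw [hg.2 j]; omega⟩ (fun j _ => hg.2 j) _ _
    (by rw [sum_neg_a, e, sub_eq_add_neg]) (sum_one k).symm

end Lad

variable (K) in
/-- row CON: the ladder over a tower exists -/
def ConStmt : Prop :=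
  ∀ (T : Tower K), T.OK → ∀ (I : Type) [Fintype I] [DecidableEq I] (b : I → T.G) (lev : I → ℕ)
    (δ : Matrix I I T.R), (∀ g g', δ g g' ∈ T.A (b g - b g')) →
    (∀ g g', δ g g' ≠ 0 → lev g' = lev g + 1) → δ * δ = 0 → 2 ≤ Fintype.card I →
    ∃ (T' : Tower K) (i : T.G →+ T'.G) (β : T.R →ₐ[K] T'.R)
      (hβ : ∀ g, ∀ r ∈ T.A g, β r ∈ T'.A (i g)) (l : ℕ) (L : Lad T'.A l I) (fib : List (HE T'.A)),
      T'.OK ∧ L.OK ∧ L.Ext (T.xs.map fun x => ⟨β x.x, i x.deg, hβ _ _ x.mem⟩) fib T'.xs ∧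
      (∀ g, L.b g = i (b g)) ∧ (∀ g, (L.lev g).val = lev g) ∧ (∀ g g', L.δ g g' = β (δ g g')) ∧
      (∀ g, i g ∈ L.U0) ∧ Function.Injective β ∧ ∀ g, ∀ r ∈ T'.A (i g), ∃ s ∈ T.A g, β s = r

end FMX
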