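import Pool.Agent.MP_0e6a9f_ag.H32.Bun
import Pool.Agent.MP_0e6a9f_ag.H70.Prod

/-! The tower of the projective bundle over the ladder. -/

set_option autoImplicit false
set_option linter.unusedSectionVars false

open FMD FMD.DG MvPolynomial Sum

noncomputable section
namespace FMX
namespace LC

variable {K : Type} [Field K] [CharP K 2] (T : Tower K) (l : ℕ)

lemma prod_mul_mem {G R J : Type} [AddCommGroup G] [CommRing R] [Algebra K R]
    {B : G → Submodule K R} (s : Finset J) {f : J → R} {e : J → G}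
    (h : ∀ j g, ∀ r ∈ B g, f j * r ∈ B (e j + g)) {g : G} {r : R} (hr : r ∈ B g) :
    (∏ j ∈ s, f j) * r ∈ B (∑ j ∈ s, e j + g) := by
  classical
  induction s using Finset.induction_on with
  | empty => simpa using hr
  | insert i s hi ih =>
    rw [Finset.prod_insert hi, Finset.sum_insert hi, mul_assoc, add_assoc]
    exact h _ _ _ ih

/-- The new grading group. -/
abbrev G' : Type := T.ι ⊕ Option (Fin l) → ℤ

/-- The inclusion of the old grading group. -/
def i : T.G →+ G' T l where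
  toFun g := Sum.elim g 0
  map_zero' := by funext j; cases j <;> rfl
  map_add' _ _ := by funext j; cases j <;> rfl

lemma i_inj : Function.Injective (i T l) := fun _ _ h => funext fun j => congrFun h (inl j)

/-- A coordinate. -/
abbrev ev (o : Option (Fin l)) : G' T l →+ ℤ := Pi.evalAddMonoidHom (fun _ => ℤ) (inr o)

/-- The grading of the ladder. -/
abbrev B : G' T l → Submodule K (MvPolynomial (Fin l × Bool) T.R) :=
  pol (reg (i T l) (i_inj T l) T.A) fun v => Pi.single (inr (some v.1)) 1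

variable {T l}

lemma ev_reg (o : Option (Fin l)) (g : G' T l) : ∀ r ∈ reg (i T l) (i_inj T l) T.A g, r ≠ 0 →
    ev T l o g = 0 := by
  rintro r (rfl | ⟨g, rfl, -⟩) h
  exacts [absurd rfl h, rfl]

lemma ev_B (o : Option (Fin l)) {g : G' T l} {r} (hr : r ∈ B T l g) (h : r ≠ 0) :
    ∃ m : Fin l × Bool →₀ ℕ, ev T l o g = m.sum fun v k => if o = some v.1 then (k : ℤ) else 0 := by
  obtain ⟨m, hm⟩ := ne_zero_iff.1 h
  exact ⟨m, (pol_zeta (ev T l o) (ev_reg o) hr hm).trans (by simp [Pi.single_apply])⟩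

lemma B_i {g : T.G} {s} (hs : s ∈ B T l (i T l g)) : ∃ r ∈ T.A g, C r = s :=
  pol_ind hs (img (IsScalarTower.toAlgHom K T.R _) T.A g) fun m r hr h => by
    have e := zeta_weight (∑ k, ev T l (some k)) (e := fun v : Fin l × Bool =>
      Pi.single (inr (some v.1)) 1) (fun v => by simp [Pi.single_apply]) m
    rw [AddMonoidHom.finsetSum_apply, Finset.sum_eq_zero fun k _ =>
      (sub_eq_zero.1 ((map_sub _ _ _).symm.trans (ev_reg (some k) _ r hr h))).symm] at e
    obtain rfl : m = 0 := (Finsupp.degree_eq_zero_iff m).1 (by omega)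
    exact ⟨r, (mem_reg (i_inj T l)).1 (by simpa using hr), rfl⟩

variable {I : Type} [Fintype I] [DecidableEq I] (b : I → T.G) (lev : I → Fin l)
  (δ : Matrix I I T.R) (z : G' T l)

/-- The data on the ladder. -/
@[reducible] def L0 : Lad (B T l) l I where
  p k := ⟨X (k, true), X (k, false), Pi.single (inr (some k)) 1, X_mem_pol (k, true),
    X_mem_pol (k, false)⟩
  lev := lev
  b g := i T l (b g)
  z := z
  δ := δ.map C
  σ := 0
  ζ := ev T l none
  lam k := ev T l (some k)

lemma he_x (k : Fin l) (c : Bool) : (((L0 b lev δ z).p k).he c).x = X (k, c) := by cases c <;> rfl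

lemma u_x (c : Fin l → Bool) : ((L0 b lev δ z).u c).x = ∏ k, X (k, c k) :=
  Finset.prod_congr (s₁ := Finset.univ) rfl fun k _ => he_x b lev δ z k (c k)

lemma exists_z : ∃ (z : G' T l) (n : I → T.ι ⊕ Option (Fin l) → ℕ), z (inr none) = 1 ∧
    (∀ g, n g (inr none) = 0) ∧
    ∀ g, Pi.single (inr none) 1 - (fun j => (n g j : ℤ)) = (L0 b lev δ z).eσ g := by
  let w := (L0 b lev δ 0).eσ
  have h0 : ∀ g, w g (inr none) = 0 := fun g => by
    simp [w, Lad.e, Lad.a, i, apply_ite fun x : G' T l => x (inr none)]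
  refine ⟨Pi.single (inr none) 1 - fun j => ∑ g, |w g j|,
    fun g j => (∑ g, |w g j| - w g j).toNat, by simp [h0], fun g => by simp [h0], fun g => ?_⟩
  have : (fun j => (((∑ g, |w g j| - w g j).toNat : ℕ) : ℤ)) = (fun j => ∑ g, |w g j|) - w g :=
    funext fun j => Int.toNat_of_nonneg (sub_nonneg.2 ((le_abs_self _).trans
      (Finset.single_le_sum (fun g _ => abs_nonneg (w g j)) (Finset.mem_univ g))))
  rw [this]
  change _ = _ + i T l (b g) + (L0 b lev δ 0).a (lev g) + Pi.single (inr (some (lev g))) 1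
  simp only [w, Lad.eσ, Lad.e]
  abel

variable {b lev δ z}

lemma pre (ok : T.OK) (h1 : ∀ g g', δ g g' ∈ T.A (b g - b g'))
    (h2 : ∀ g g', δ g g' ≠ 0 → (lev g').val = lev g + 1) (h3 : δ * δ = 0)
    (hI : 2 ≤ Fintype.card I) (hz : z (inr none) = 1) : (L0 b lev δ z).Pre where
  h1 g g' := C_mem_pol (map_sub (i T l) _ _ ▸ (mem_reg (i_inj T l)).2 (h1 g g'))
  h2 g g' h := h2 g g' fun e => h ((congrArg C e).trans (map_zero _))
  h3 := (Matrix.map_mul (f := C)).symm.trans (by rw [h3]; exact Matrix.map_zero _ (map_zero _))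
  lam1 j := by simp
  lam0 i j h := by simp [h]
  ζh j := by simp
  ζz := hz
  hb g := ⟨rfl, fun _ => rfl⟩
  van := by
    refine (van_family (fun k => ((L0 b lev δ z).p k).xs) (fun k => {g | -1 ≤ g (inr (some k))})
      (fun j k h x hx g hg => ?_) (fun k => ?_) (L0 b lev δ z).dom
      fun d hd w e e' M hM => ?_).mono fun g hg => hg.2
    · obtain ⟨c, rfl⟩ := (Pr.mem_xs _).1 hx
      simpa [Pr.he, h] using hg
    · refine (van_pol (ev T l (some k)) {(k, true), (k, false)}
        (fun g r hr h => (ev_reg _ g r hr h).le) (by simp) (fun v _ => ?_) (fun x hx => ?_)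
        fun v hv => ?_).mono fun g hg => by simpa using hg
      · by_cases e : k = v.1
        · obtain ⟨j, _ | _⟩ := v <;> simp_all
        · simp [e]
      · obtain ⟨c, rfl⟩ := (Pr.mem_xs _).1 hx
        simp [Pr.he]
      · obtain ⟨j, c⟩ := v
        obtain rfl : j = k := by simp at hv; tauto
        exact ⟨_, (Pr.mem_xs _).2 ⟨c, rfl⟩, he_x b lev δ z j c, rfl⟩
    · choose c hc using fun k => (Pr.mem_xs _).1 (hd k)
      obtain rfl : _ = d := funext hc
      exact hM w (mem_lst.2 ⟨c, he_ext e.symm e'.symm⟩)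
  zero j g _ e r hr := by
    by_contra h
    obtain ⟨m, hm⟩ := ev_B (some j) hr h
    have : 0 ≤ ev T l (some j) g :=
      hm ▸ Finset.sum_nonneg fun v _ => by dsimp only; split_ifs <;> omega
    have : ev T l (some j) g = -1 := e
    omega
  hζ g r hr h := by
    obtain ⟨m, hm⟩ := ev_B none hr h
    simpa using hm
  dom := have := ok.dom; inferInstance
  nz c := by
    have := ok.dom
    rw [u_x]
    exact Finset.prod_ne_zero_iff.2 fun k _ => X_ne_zero _
  card := hI

variable (D : (L0 b lev δ z).Bun) {n : I → T.ι ⊕ Option (Fin l) → ℕ}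
  (hn : ∀ g, Pi.single (inr none) 1 - (fun j => (n g j : ℤ)) = (L0 b lev δ z).eσ g)

/-- The structure map. -/
def β : T.R →ₐ[K] D.R' := D.φ.φ.comp (IsScalarTower.toAlgHom K T.R _)

lemma β_mem (g : T.G) : ∀ r ∈ T.A g, β D r ∈ D.A' (i T l g) := fun _ hr =>
  D.φ.mem (C_mem_pol ((mem_reg (i_inj T l)).2 hr))

lemma degL (v : T.Y) : (Pi.single (inl (T.blk v)) 1 -
    fun j => ((Sum.elim (T.n v) (0 : Option (Fin l) → ℕ) j : ℕ) : ℤ)) = i T l (T.deg v) := by
  funext j; cases j <;> simp [i, Tower.deg, Pi.single_apply]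

/-- The new tower. -/
@[reducible] def T' : Tower K where
  ι := T.ι ⊕ Option (Fin l)
  Y := T.Y ⊕ (Fin l × Bool) ⊕ I × Bool
  ht := Sum.elim T.ht fun o => o.elim (Finset.univ.sup T.ht + 1) 0
  blk := Sum.elim (fun v => inl (T.blk v)) (Sum.elim (fun v => inr (some v.1)) fun _ => inr none)
  n := Sum.elim (fun v => Sum.elim (T.n v) 0) (Sum.elim 0 fun v => n v.1)
  R := D.R'
  A := D.A'
  y := Sum.elim (fun v => β D (T.y v)) (Sum.elim (fun v => D.φ.φ (X v)) fun v => D.σ v.1 v.2)
  mem := by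
    rintro (v | v | v)
    · exact (degL v).symm ▸ β_mem D _ _ (T.mem v)
    · exact (sub_zero (G := G' T l) _).symm ▸ D.φ.mem (X_mem_pol v)
    · exact (hn v.1).symm ▸ D.ok.hσ v.1 v.2

lemma degM (v : Fin l × Bool) : (T' D hn).deg (inr (inl v)) = Pi.single (inr (some v.1)) 1 :=
  sub_zero (G := G' T l) _

/-- The charts of the new tower. -/
def mk (d : T.Chart) (c : Fin l → Bool) (v : I × Bool) : (T' D hn).Chart :=
  ⟨Sum.elim (fun j => inl (d.1 j)) fun o => o.elim (inr (inr v)) fun k => inr (inl (k, c k)), by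
    rintro (j | _ | k)
    exacts [congrArg inl (d.2 j), rfl, rfl]⟩

lemma mk_surj (d : (T' D hn).Chart) : ∃ d' c v, d = mk D hn d' c v := by
  have h1 : ∀ j, ∃ v, d.1 (inl j) = inl v ∧ T.blk v = j := fun j => by
    have := d.2 (inl j)
    rcases h : d.1 (inl j) with v | v | v <;> rw [h] at this <;> cases this
    exact ⟨v, rfl, rfl⟩
  have h2 : ∀ k, ∃ c, d.1 (inr (some k)) = inr (inl (k, c)) := fun k => by
    have := d.2 (inr (some k))
    rcases h : d.1 (inr (some k)) with v | v | v <;> rw [h] at this <;> cases this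
    exact ⟨v.2, rfl⟩
  have h3 : ∃ v, d.1 (inr none) = inr (inr v) := by
    have := d.2 (inr none)
    rcases h : d.1 (inr none) with v | v | v <;> rw [h] at this <;> cases this
    exact ⟨v, rfl⟩
  choose d' a1 a2 using h1
  choose c b1 using h2
  obtain ⟨v, hv⟩ := h3
  refine ⟨⟨d', a2⟩, c, v, Subtype.ext (funext ?_)⟩
  rintro (j | _ | k)
  exacts [a1 j, hv, b1 k]

lemma mk_x (d : T.Chart) (c : Fin l → Bool) (v : I × Bool) : ((T' D hn).ch (mk D hn d c v)).x =
    β D (T.ch d).x * (D.σ v.1 v.2 * D.φ.φ ((L0 b lev δ z).u c).x) := by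
  rw [u_x, map_prod, Tower.ch, Tower.ch, map_prod]
  exact (Fintype.prod_sum_type _).trans (congrArg _ (Fintype.prod_option _))

lemma mk_deg (d : T.Chart) (c : Fin l → Bool) (v : I × Bool) : ((T' D hn).ch (mk D hn d c v)).deg =
    i T l (T.ch d).deg + ((L0 b lev δ z).eσ v.1 + ((L0 b lev δ z).u c).deg) := by
  rw [Tower.ch, Tower.ch, map_sum]
  exact (Fintype.sum_sum_type _).trans (congrArg₂ _ (Finset.sum_congr rfl fun j _ => degL _)
    ((Fintype.sum_option _).trans (congrArg₂ _ (hn _)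
      (Finset.sum_congr rfl fun k _ => degM D hn (k, c k)))))

lemma ok' (ok : T.OK) (h0 : ∀ g, n g (inr none) = 0) (g₀ : I) : (T' D hn).OK where
  hn := by
    rintro (v | v | v) (j | _ | j) h
    exacts [ok.hn v j h, absurd rfl h, absurd rfl h, absurd rfl h, absurd rfl h, absurd rfl h,
      Nat.lt_succ_of_le (Finset.le_sup (Finset.mem_univ j)), absurd (h0 _) h, Nat.succ_pos _]
  dom := D.dom
  span := D.span (span_pol (span_reg _ ok.span))
  ind := D.ind (ind_pol (ind_reg _ ok.ind))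
  gen B h1 hB d g r hr := by
    let W : G' T l → Submodule K D.R' := fun g =>
      { carrier := {r | ∃ k : ℕ, ((T' D hn).ch d).x ^ k * r ∈ B (k • ((T' D hn).ch d).deg + g)}
        add_mem' := by
          rintro u v ⟨k, hk⟩ ⟨l, hl⟩
          exact ⟨l + k, by
            rw [mul_add]
            exact add_mem (PR.raise hB d l hk) (add_comm k l ▸ PR.raise hB d k hl)⟩
        zero_mem' := ⟨0, by rw [mul_zero]; exact zero_mem _⟩
        smul_mem' := by
          rintro c u ⟨k, hk⟩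
          exact ⟨k, by rw [mul_smul_comm]; exact (B _).smul_mem c hk⟩ }
    have hW : ∀ v g, ∀ r ∈ W g, (T' D hn).y v * r ∈ W ((T' D hn).deg v + g) := by
      rintro v g r ⟨k, hk⟩
      exact ⟨k, by rw [mul_left_comm, add_left_comm]; exact hB _ _ _ hk⟩
    refine D.gen W (fun γ s hs => pol_map D.φ.φ ?_ (fun v => degM D hn v ▸ hW (inr (inl v))) hs)
      (fun g c γ r hr => (congrArg (fun a => _ ∈ W (a + γ)) (hn g)).mp
        (hW (inr (inr (g, c))) γ r hr)) g hr
    rintro _ r (rfl | ⟨g, rfl, hr⟩)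
    · rw [map_zero, map_zero]; exact zero_mem _
    obtain ⟨d, c, v, rfl⟩ := mk_surj D hn d
    obtain ⟨k, hk⟩ := PR.gen_side hB ok (β D) (i T l) inl (fun _ => rfl) degL d hr
    have h2 := hk 0 _ _ (prod_mul_mem (Finset.range k)
      (f := fun _ => D.σ v.1 v.2 * ∏ j, D.φ.φ (X (j, c j)))
      (e := fun _ => (L0 b lev δ z).eσ v.1 + ((L0 b lev δ z).u c).deg) (fun _ g r hr => by
        rw [mul_assoc, add_assoc, ← hn]
        exact hB (inr (inr v)) _ _ (prod_mul_mem Finset.univ
          (f := fun j => D.φ.φ (X (j, c j))) (e := fun j => Pi.single (inr (some j)) 1)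
          (fun j => degM D hn (j, c j) ▸ hB (inr (inl (j, c j)))) hr)) h1)
    refine ⟨k, ?_⟩
    convert h2 using 1
    · rw [mk_deg, zero_add, Finset.sum_const, Finset.card_range, map_add, map_nsmul, smul_add]
      congr 1
      abel
    · rw [mk_x, u_x, map_prod, Finset.prod_const, Finset.card_range, map_mul, map_pow, zero_add]
      change _ * β D r = _
      ring
  nice := by
    obtain ⟨S, a1, a2⟩ := ok.nice
    refine ⟨{d | ∃ d' ∈ S, ∃ c g, d = mk D hn d' c (g, c (lev g))}, ?_, fun d => ?_⟩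
    · rintro _ ⟨d, hd, c, g, rfl⟩
      rw [mk_x]
      exact D.pl c g _ ((a1 d hd).C _)
    · obtain ⟨d, c, v, rfl⟩ := mk_surj D hn d
      obtain ⟨m, hm⟩ := a2 d
      refine ⟨m + 3, ?_⟩
      set u := D.φ.φ ((L0 b lev δ z).u c).x with hu
      generalize hJ : (Ideal.span _ : Ideal D.R') = J
      have : β D ((T.ch d).x ^ m) * (u * (u ^ 2 * D.σ v.1 v.2)) ∈ J :=
        (Ideal.span_le (I := Ideal.comap (β D) (Submodule.comap (LinearMap.mulRight D.R' _) J))).2 (by
          rintro _ ⟨d', hd', rfl⟩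
          change β D _ * (u * _) ∈ J
          rw [← mul_assoc]
          refine (Ideal.span_le (I := Submodule.comap (LinearMap.mulLeft D.R' _) J)).2 ?_ (D.sp c v.1 v.2)
          rintro _ ⟨g, rfl⟩
          refine hJ ▸ Ideal.subset_span ⟨mk D hn d' c (g, c (lev g)), ⟨d', hd', c, g, rfl⟩, ?_⟩
          exact (mk_x D hn d' c _).trans (by simp only [LinearMap.mulLeft_apply]; ring)) hm
      convert J.mul_mem_left (β D (T.ch d).x ^ 3 * D.σ v.1 v.2 ^ (m + 2) * u ^ m) this using 1
      rw [mk_x, map_pow]; ring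
  pt := by
    obtain ⟨π, d, hd⟩ := ok.pt
    obtain ⟨π', a1, a2⟩ := D.pt (fun _ => true) (π.comp ((aeval 1).restrictScalars K))
    refine ⟨π', mk D hn d (fun _ => true) (g₀, true), ?_⟩
    rw [mk_x, map_mul, map_mul, a2 g₀, a1, β, AlgHom.comp_apply, a1, u_x]
    simpa using hd

end LC
open LC

theorem con (K : Type) [Field K] [CharP K 2] : ConStmt K := by
  intro T ok I _ _ b lev δ h1 h2 h3 hI
  obtain ⟨g₀⟩ : Nonempty I := Fintype.card_pos_iff.1 (by omega)
  let lv : I → Fin (Finset.univ.sup lev + 1) := fun g =>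
    ⟨lev g, Nat.lt_succ_of_le (Finset.le_sup (Finset.mem_univ g))⟩
  obtain ⟨z, n, hz, h0, hn⟩ := exists_z b lv δ
  let D := (pre (lev := lv) ok h1 h2 h3 hI hz).bun
  refine ⟨T' D hn, i T _, β D, β_mem D, _, _, _, ok' D hn ok h0 g₀, D.ok, ⟨?_, D.fibre, fun w => ?_⟩,
    fun _ => rfl, fun _ => rfl, fun _ _ => rfl, fun _ => ⟨rfl, fun _ => rfl⟩,
    D.inj.comp (C_injective _ _), fun g r hr => ?_⟩
  · intro x hx
    obtain ⟨x, -, rfl⟩ := List.mem_map.1 hx
    exact ⟨rfl, fun _ => rfl⟩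
  · simp only [Tower.xs, mem_lst, List.mem_map, Lad.map_u]
    constructor
    · rintro ⟨d, rfl⟩
      obtain ⟨d, c, v, rfl⟩ := mk_surj D hn d
      exact ⟨_, ⟨_, ⟨d, rfl⟩, rfl⟩, _, ⟨v, rfl⟩, c, he_ext (mk_x ..) (mk_deg ..)⟩
    · rintro ⟨_, ⟨_, ⟨d, rfl⟩, rfl⟩, _, ⟨v, rfl⟩, c, rfl⟩
      exact ⟨mk D hn d c v, he_ext (mk_x ..) (mk_deg ..)⟩
  · obtain ⟨s, hs, rfl⟩ := D.deg0 _ rfl r hr
    obtain ⟨r, hr', rfl⟩ := B_i hs
    exact ⟨r, hr', rfl⟩

end FMX
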