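import Mathlib

/-! Hilbert's syzygy theorem for localized polynomial rings. -/

set_option backward.isDefEq.respectTransparency false

open CategoryTheory TensorProduct Polynomial

noncomputable section
namespace FMX

/-- Projective dimension at most `n`. -/
def PD (R : Type) [CommRing R] (n : ℕ) (M : Type) [AddCommGroup M] [Module R M] : Prop :=
  HasProjectiveDimensionLE (ModuleCat.of R M) n

variable {R : Type} [CommRing R] {n : ℕ} {L M N : Type} [AddCommGroup L] [AddCommGroup M]
  [AddCommGroup N] [Module R L] [Module R M] [Module R N]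

lemma pd_zero : PD R 0 M ↔ Module.Projective R M := by
  rw [PD, ← projective_iff_hasProjectiveDimensionLE_zero, ← IsProjective.iff_projective]

lemma PD.equiv (h : PD R n M) (e : M ≃ₗ[R] N) : PD R n N :=
  @hasProjectiveDimensionLT_of_iso _ _ _ _ _ e.toModuleIso _ h

lemma PD.succ (h : PD R n M) : PD R (n + 1) M :=
  @hasProjectiveDimensionLT_of_ge _ _ _ _ (n + 1) _ (by omega) h

lemma ses {f : L →ₗ[R] M} {g : M →ₗ[R] N} (h : Function.Exact f g) (hf : Function.Injective f)
    (hg : Function.Surjective g) :
    (ModuleCat.shortComplexOfCompEqZero f g h.linearMap_comp_eq_zero).ShortExact :=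
  ModuleCat.shortComplex_shortExact _ h hf hg

lemma pd_coker {f : L →ₗ[R] M} {g : M →ₗ[R] N} (h : Function.Exact f g)
    (hf : Function.Injective f) (hg : Function.Surjective g) (hL : PD R n L)
    (hM : PD R (n + 1) M) : PD R (n + 1) N :=
  (ses h hf hg).hasProjectiveDimensionLT_X₃ (n + 1) hL hM

lemma pd_syz {f : L →ₗ[R] M} {g : M →ₗ[R] N} (h : Function.Exact f g)
    (hf : Function.Injective f) (hg : Function.Surjective g) [Module.Projective R M]
    (hN : PD R (n + 1) N) : PD R n L :=
  ((ses h hf hg).hasProjectiveDimensionLT_X₃_iff n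
    ((IsProjective.iff_projective (R := R) (P := M)).1 inferInstance)).1 hN

lemma pd_of_projective [Module.Projective R M] : PD R n M := by
  induction n with
  | zero => exact pd_zero.2 inferInstance
  | succ n ih => exact ih.succ

lemma PD.baseChange (S : Type) [CommRing S] [Algebra R S] [Module.Flat R S] (h : PD R n M) :
    PD S n (S ⊗[R] M) := by
  induction n generalizing M with
  | zero => have := pd_zero.1 h; exact pd_zero.2 inferInstance
  | succ n ih =>
    obtain ⟨P, _, _, _, g, hg⟩ : ∃ (P : Type) (_ : AddCommGroup P) (_ : Module R P)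
        (_ : Module.Projective R P) (g : P →ₗ[R] M), Function.Surjective g :=
      ⟨M →₀ R, _, _, inferInstance, _, Finsupp.linearCombination_id_surjective R M⟩
    have he : Function.Exact (LinearMap.ker g).subtype g := g.exact_subtype_ker_map
    have hf := (LinearMap.ker g).injective_subtype
    exact pd_coker (f := (LinearMap.ker g).subtype.baseChange S) (g := g.baseChange S)
      (Module.Flat.lTensor_exact S he)
      (Module.Flat.lTensor_preserves_injective_linearMap _ hf) (LinearMap.lTensor_surjective S hg)
      (ih (pd_syz he hf hg h)) pd_of_projective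

/-- Global dimension at most `n`. -/
def GD (R : Type) [CommRing R] (n : ℕ) : Prop :=
  ∀ (M : Type) [AddCommGroup M] [Module R M], PD R n M

lemma GD.polynomial (h : GD R n) : GD R[X] (n + 1) := by
  intro M _ _
  let := Module.compHom M (algebraMap R R[X])
  have : IsScalarTower R R[X] M := IsScalarTower.of_algebraMap_smul fun _ _ => rfl
  let φ : M →ₗ[R] M := (LinearMap.lsmul R[X] M X).restrictScalars R
  let ψ : R[X] ⊗[R] M →ₗ[R[X]] R[X] ⊗[R] M := (X : R[X]) • LinearMap.id - φ.baseChange R[X]
  let ev : R[X] ⊗[R] M →ₗ[R[X]] M := LinearMap.liftBaseChange R[X] LinearMap.id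
  have h1 (t : R[X] ⊗[R] M) : t - 1 ⊗ₜ ev t ∈ LinearMap.range ψ := by
    induction t with
    | zero => simp
    | add x y hx hy =>
      rw [map_add, tmul_add, add_sub_add_comm]; exact add_mem hx hy
    | tmul p m =>
      induction p using Polynomial.induction_on generalizing m with
      | C a =>
        have : ev (C a ⊗ₜ m) = a • m := rfl
        rw [this, ← smul_tmul, ← Algebra.algebraMap_eq_smul_one, ← C_eq_algebraMap, sub_self]
        exact zero_mem _
      | add p q hp hq =>
        rw [add_tmul, map_add, tmul_add, add_sub_add_comm]; exact add_mem (hp m) (hq m)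
      | monomial k a ih =>
        have := add_mem (LinearMap.mem_range_self ψ ((C a * X ^ k) ⊗ₜ m)) (ih (φ m))
        convert this using 1
        have e1 : ψ ((C a * X ^ k) ⊗ₜ m) = (C a * X ^ (k + 1)) ⊗ₜ m - (C a * X ^ k) ⊗ₜ φ m := by
          simp only [ψ, LinearMap.sub_apply, LinearMap.smul_apply, LinearMap.id_apply,
            LinearMap.baseChange_tmul, smul_tmul', smul_eq_mul]
          congr 2; ring
        have e2 : ev ((C a * X ^ (k + 1)) ⊗ₜ m) = ev ((C a * X ^ k) ⊗ₜ φ m) := by
          change (C a * X ^ (k + 1) : R[X]) • m = (C a * X ^ k : R[X]) • (X : R[X]) • m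
          rw [← mul_smul, mul_assoc, pow_succ]
        rw [e1, e2]; abel
  have h2 (t : R[X] ⊗[R] M) : ev (ψ t) = 0 := by
    induction t with
    | zero => simp
    | add x y hx hy => simp [hx, hy]
    | tmul p m => simp [ψ, φ, ev, smul_comm p X m]
  refine pd_coker (f := ψ) (g := ev) (fun t => ⟨fun ht => by simpa [ht] using h1 t, ?_⟩) ?_
    (fun m => ⟨1 ⊗ₜ m, by simp [ev]⟩) ((h M).baseChange _) ((h M).baseChange _).succ
  · rintro ⟨t, rfl⟩; exact h2 t
  let e := PolynomialModule.polynomialTensorProductLEquivPolynomialModule R M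
  have he (p : R[X]) (m : M) (k : ℕ) : (e (p ⊗ₜ m)).coeff k = p.coeff k • m := by
    change (p • PolynomialModule.single R 0 m).coeff k = _
    simp
  have h3 (t : R[X] ⊗[R] M) (k : ℕ) : (e (φ.baseChange R[X] t)).coeff k = φ ((e t).coeff k) := by
    induction t with
    | zero => simp
    | add x y hx hy => simp [hx, hy]
    | tmul p m => simp [he]
  refine (injective_iff_map_eq_zero _).2 fun t ht => ?_
  have h4 (k : ℕ) : (e t).coeff k = φ ((e t).coeff (k + 1)) := by
    rw [← h3, ← (sub_eq_zero.1 ht :), LinearMap.smul_apply, map_smul, ← monomial_one_one_eq_X,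
      PolynomialModule.monomial_smul_apply]
    simp
  rw [← e.map_eq_zero_iff, ← PolynomialModule.coeff_eq_zero, ← Finsupp.support_eq_empty]
  by_contra hne
  have hne := Finset.nonempty_iff_ne_empty.2 hne
  have := Finset.max'_mem _ hne
  rw [Finsupp.mem_support_iff, h4] at this
  refine this ?_
  rw [Finsupp.notMem_support_iff.1 fun hk => by simpa using Finset.le_max' _ _ hk, map_zero]

lemma GD.localization (h : GD R n) (W : Submonoid R) (S : Type) [CommRing S] [Algebra R S]
    [IsLocalization W S] : GD S n := by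
  intro M _ _
  have := IsLocalization.flat S W
  let := Module.compHom M (algebraMap R S)
  have : IsScalarTower R S M := IsScalarTower.of_algebraMap_smul fun _ _ => rfl
  exact ((h M).baseChange S).equiv (IsLocalization.moduleLid W S M)

lemma GD.equiv (h : GD R n) {S : Type} [CommRing S] (e : R ≃+* S) : GD S n :=
  let := e.toRingHom.toAlgebra
  have := IsLocalization.of_le_isUnit_of_bijective (R := R) (M := ⊥) (S := S)
    (by rintro _ ⟨x, rfl, rfl⟩; simp) e.bijective
  h.localization ⊥ S

lemma gd_mvPolynomial (K : Type) [Field K] (τ : Type) [Finite τ] :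
    ∃ n, GD (MvPolynomial τ K) n := by
  induction τ using Finite.induction_empty_option with
  | of_equiv e H => exact H.imp fun n h => h.equiv (MvPolynomial.renameEquiv _ e).toRingEquiv
  | h_empty => exact ⟨0, GD.equiv (fun M _ _ => pd_of_projective)
      (MvPolynomial.isEmptyRingEquiv K _).symm⟩
  | h_option H =>
    obtain ⟨n, h⟩ := H
    exact ⟨n + 1, h.polynomial.equiv (MvPolynomial.optionEquivLeft _ _).toRingEquiv.symm⟩

section
variable (W : Submonoid R) (S : Type) [CommRing S] [Algebra R S] [IsLocalization W S]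
include W

lemma lpd_syz {f : L →ₗ[R] M} {g : M →ₗ[R] N} (h : Function.Exact f g)
    (hf : Function.Injective f) (hg : Function.Surjective g) [Module.Projective R M]
    (hN : PD S (n + 1) (S ⊗[R] N)) : PD S n (S ⊗[R] L) :=
  have := IsLocalization.flat S W
  pd_syz (f := f.baseChange S) (g := g.baseChange S) (Module.Flat.lTensor_exact S h)
    (Module.Flat.lTensor_preserves_injective_linearMap _ hf) (LinearMap.lTensor_surjective S hg) hN

lemma lpd_split [Module.FinitePresentation R N] {g : M →ₗ[R] N} (hg : Function.Surjective g)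
    (hN : PD S 0 (S ⊗[R] N)) : ∃ (s : N →ₗ[R] M) (w : W), ∀ x, g (s x) = (w : R) • x := by
  have := pd_zero.1 hN
  obtain ⟨σ, hσ⟩ := Module.projective_lifting_property (g.baseChange S) LinearMap.id
    (LinearMap.lTensor_surjective S hg)
  obtain ⟨h, s, e⟩ := Module.FinitePresentation.exists_lift_of_isLocalizedModule W
    (TensorProduct.mk R S M 1) (σ.restrictScalars R ∘ₗ TensorProduct.mk R S N 1)
  obtain ⟨t, ht⟩ := Module.Finite.exists_smul_of_comp_eq_of_isLocalizedModule W
    (TensorProduct.mk R S N 1) (g ∘ₗ h) (s • LinearMap.id) (LinearMap.ext fun x => by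
      have h1 : (1 : S) ⊗ₜ[R] h x = (s : R) • σ (1 ⊗ₜ x) := congr($e x)
      have h2 : g.baseChange S (σ (1 ⊗ₜ x)) = 1 ⊗ₜ x := congr($hσ (1 ⊗ₜ x))
      change g.baseChange S (1 ⊗ₜ h x) = (1 : S) ⊗ₜ[R] ((s : R) • x)
      rw [h1, LinearMap.map_smul_of_tower, h2, tmul_smul])
  refine ⟨(t : R) • h, t * s, fun x => ?_⟩
  have : (t : R) • g (h x) = (t : R) • (s : R) • x := congr($ht x)
  simp [this, mul_smul]

end

end FMX
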