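import Pool.Agent.MP_0e6a9f_ag.H32.Free

/-! Serre vanishing and Serre finiteness in the Verdier quotient. -/

set_option backward.isDefEq.respectTransparency false
set_option linter.unusedSectionVars false

open CategoryTheory Limits DirectSum FMD Pretriangulated

noncomputable section
namespace FMX

lemma sg_hom_zero {𝒜 : Type*} [Category 𝒜] [Preadditive 𝒜] [HasZeroObject 𝒜] {X M : 𝒜} (n : ℤ)
    (hn : n ≠ 0 ∨ ∀ f : X ⟶ M, f = 0) (f : (sg 𝒜 0).obj X ⟶ ((sg 𝒜 0).obj M)⟦n⟧) : f = 0 := by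
  by_cases h0 : n = 0
  · subst h0
    refine zero_iso (Iso.refl _) ((shiftFunctorZero _ ℤ).app _).symm (fun f => ?_) f
    obtain ⟨f, rfl⟩ := (sg 𝒜 0).map_surjective f
    rw [hn.resolve_left (by simp) f, Functor.map_zero]
  have e : (sg 𝒜 (-n)).obj M ≅ ((sg 𝒜 0).obj M)⟦n⟧ :=
    (((qq 𝒜).commShiftIso n).symm.app _ ≪≫ (qq 𝒜).mapIso
      (((CochainComplex.singleFunctors 𝒜).shiftIso n (-n) 0 (by simp)).app M)).symm
  refine zero_iso (Iso.refl _) e (fun f => ?_) f
  obtain ⟨f, rfl⟩ := (qq 𝒜).map_surjective f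
  rw [HomologicalComplex.from_single_hom_ext (f := f) (g := 0)
    ((HomologicalComplex.isZero_single_obj_X _ _ _ _ (by omega)).eq_of_tgt _ _), Functor.map_zero]

lemma hfin_sg (K : Type*) [Field K] {𝒜 : Type*} [Category 𝒜] [Preadditive 𝒜] [Linear K 𝒜]
    [HasZeroObject 𝒜] {X M : 𝒜} (h : Module.Finite K (X ⟶ M)) :
    HFin K ((sg 𝒜 0).obj X) ((sg 𝒜 0).obj M) := by
  refine ⟨fun n => ?_, {0}, fun n hn => sg_hom_zero n (.inl (by simpa using hn))⟩
  by_cases hn : n = 0
  · subst hn
    exact fin_iso K (Iso.refl _) ((shiftFunctorZero _ ℤ).app _).symm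
      (Module.Finite.of_surjective ((sg 𝒜 0).mapLinearMap K) (sg 𝒜 0).map_surjective)
  · exact fin_of_zero K (sg_hom_zero n (.inl hn))

variable {K R ι σ C : Type} [Field K] [CommRing R] [Algebra K R] [Fintype ι] [DecidableEq ι]
  [Fintype σ] [DecidableEq σ] {A : (ι → ℤ) → Submodule K R} [GradedAlgebra A]
  {I : HomogeneousIdeal A}

variable (A) in
/-- `R` is generated by blocks of variables; the charts are products of one variable per block. -/
structure Blocks (blk : σ → ι) (y : σ → R) (x : C → R) : Prop where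
  mem : ∀ v, y v ∈ A (Pi.single (blk v) 1)
  gen : Algebra.adjoin K (Set.range y) = ⊤
  dvd : ∀ c i, ∃ v, blk v = i ∧ y v ∣ x c
  chart : ∀ ch : ι → σ, (∀ i, blk (ch i) = i) → ∃ c, x c = ∏ i, y (ch i)

/-- The elementwise description of the torsion complexes. -/
def IsTors (x : C → R) (N : ObjectProperty (KK (GrMod A I))) : Prop :=
  ∀ Y, N Y ↔ ∀ c n z, (Y.as.d n (n + 1)).hom.1 z = 0 →
    ∃ (k : ℕ) (w : _), (Y.as.d (n - 1) n).hom.1 w = x c ^ k • z

variable {blk : σ → ι} {y : σ → R} {x : C → R} (B : Blocks A blk y x)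
include B

lemma Blocks.noeth : IsNoetherianRing R :=
  have : Algebra.FiniteType K R := ⟨(Set.finite_range y).toFinset, by simpa using B.gen⟩
  Algebra.FiniteType.isNoetherianRing K R

lemma Blocks.finite (a : ι → ℤ) : Module.Finite K (A a) := by
  let β : σ →₀ ℕ := Finsupp.equivFunOnFinite.symm fun v => (a (blk v)).toNat
  let S := Submodule.span K ((fun α : σ →₀ ℕ => ∏ v, y v ^ α v) '' Set.Iic β)
  have : Module.Finite K S := Module.Finite.span_of_finite K ((Set.finite_Iic β).image _)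
  refine Submodule.finiteDimensional_of_le (S₂ := S) fun r hr => ?_
  rw [← decompose_of_mem_same A hr]
  obtain ⟨p, rfl⟩ : r ∈ (MvPolynomial.aeval (R := K) y).range := by
    rw [← Algebra.adjoin_range_eq_range_aeval, B.gen]; trivial
  clear hr
  induction p using MvPolynomial.induction_on' with
  | add p q hp hq => simpa using add_mem hp hq
  | monomial α c =>
    have h := SetLike.prod_pow_mem_graded A (fun v => Pi.single (blk v) (1 : ℤ)) y α
      (F := Finset.univ) fun v _ => B.mem v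
    have e : (MvPolynomial.aeval y).toRingHom (MvPolynomial.monomial α c) =
        c • ∏ v, y v ^ α v := by
      simp [MvPolynomial.aeval_monomial, Algebra.smul_def, Finsupp.prod_fintype]
    rw [e, decompose_smul, DirectSum.smul_apply, Submodule.coe_smul]
    refine S.smul_mem c ?_
    by_cases ha : ∑ v, α v • Pi.single (blk v) (1 : ℤ) = a
    · rw [decompose_of_mem_same A (ha ▸ h)]
      refine Submodule.subset_span ⟨α, fun v => ?_, rfl⟩
      have := Finset.single_le_sum (f := fun w => (α w • Pi.single (M := fun _ => ℤ) (blk w) 1)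
        (blk v)) (fun w _ => by simp [Pi.single_apply]; positivity) (Finset.mem_univ v)
      rw [← Finset.sum_apply, ha] at this
      simp [β] at this ⊢
      omega
    · rw [decompose_of_mem_ne A h ha]; exact zero_mem _

lemma Blocks.hom_finite (d : ι → ℤ) (M : GrMod A I) [Module.Finite R M.obj.M] :
    Module.Finite K (fr A I d ⟶ M) := by
  have h1 (d' : ι → ℤ) : Module.Finite K (fr A I d ⟶ fr A I d') := by
    have := B.finite (d - d')
    have key (r : A (d - d')) : (frMul (I := I) r.2 (sub_add_cancel d d')).hom.1 (one d) =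
      r.1 • one d' := ofEl_one _
    let φ : A (d - d') →ₗ[K] (fr A I d ⟶ fr A I d') :=
      { toFun r := frMul r.2 (sub_add_cancel d d')
        map_add' r s := fr_ext ((key _).trans ((add_smul _ _ _).trans
          (congrArg₂ _ (key r) (key s)).symm))
        map_smul' c r := fr_ext ((key _).trans (Eq.trans (by
          rw [← mul_smul, ← Algebra.smul_def]; rfl)
          (congrArg (algebraMap K R c • ·) (key r)).symm)) }
    refine Module.Finite.of_surjective φ fun f => ?_
    obtain ⟨r, hr, e⟩ := f.hom.2 _ _ (one_mem d)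
    refine ⟨⟨r, hr⟩, fr_ext ((key _).trans (Eq.trans ?_ e))⟩
    exact ((congrArg I.toIdeal.mkQ (mul_one r).symm).trans (I.toIdeal.mkQ.map_smul r 1)).symm
  obtain ⟨J, _, e, p, _⟩ := exists_cover M
  have : Module.Finite K (fr A I d ⟶ ⨁ fun j => fr A I (e j)) :=
    Module.Finite.of_injective (LinearMap.pi fun j =>
      Linear.rightComp K (fr A I d) (biproduct.π (fun j => fr A I (e j)) j))
      fun f g h => biproduct.hom_ext _ _ fun j => congrFun h j
  exact Module.Finite.of_surjective (Linear.rightComp K _ p) fun f =>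
    ⟨Projective.factorThru f p, Projective.factorThru_comp f p⟩

lemma Blocks.bound (M : GrMod A I) [h : Module.Finite R M.obj.M] (i : ι)
    (hi : ∀ v, blk v = i → ∀ m : M.obj.M, y v • m = 0) :
    ∃ b : ℤ, ∀ d, b ≤ d i → ∀ m ∈ M.obj.gr d, m = 0 := by
  obtain ⟨s, hs⟩ := h.1
  choose t ht using fun m : M.obj.M => exists_supp m
  obtain ⟨b, hb⟩ := ((s.biUnion t).image (· i)).exists_le
  refine ⟨b + 1, fun d hd m hm => ?_⟩
  suffices ∀ m : M.obj.M, ∀ d, b + 1 ≤ d i → pr M d m = 0 by rw [← this m d hd, prj_same _ hm]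
  clear hm hd m d
  intro m
  induction (hs ▸ Submodule.mem_top : m ∈ Submodule.span R s) using Submodule.span_induction with
  | zero => simp
  | add u v _ _ hu hv => intro d hd; simp [hu d hd, hv d hd]
  | mem m hm =>
    exact fun d hd => ht m d fun h => by
      have := hb _ (Finset.mem_image_of_mem _ (Finset.mem_biUnion.2 ⟨m, hm, h⟩))
      omega
  | smul r m h' hm =>
    clear h'
    induction (B.gen ▸ Algebra.mem_top : r ∈ Algebra.adjoin K (Set.range y))
      using Algebra.adjoin_induction generalizing m with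
    | add r s _ _ hr hs => intro d hd; simp [add_smul, hr m hm d hd, hs m hm d hd]
    | mul r s _ _ hr hs => rw [mul_smul]; exact hr _ (hs m hm)
    | algebraMap c =>
      intro d hd
      rw [← zero_add d, smul_pr (SetLike.algebraMap_mem_graded A c), hm d hd, smul_zero]
    | mem r hr =>
      obtain ⟨v, rfl⟩ := hr
      intro d hd
      by_cases hv : blk v = i
      · rw [hi v hv, map_zero]
      · rw [← add_sub_cancel (Pi.single (blk v) 1) d, smul_pr (B.mem v),
          hm _ (by simpa [Pi.single_apply, Ne.symm hv] using hd), smul_zero]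

omit B

variable (y) in
/-- Finitely generated and killed by the variables outside `s`. -/
structure Kil (s : Finset σ) (M : GrMod A I) : Prop where
  fin : Module.Finite R M.obj.M
  kil : ∀ v ∉ s, ∀ m : M.obj.M, y v • m = 0

lemma Kil.tw {s : Finset σ} {M : GrMod A I} (h : Kil y s M) (a : ι → ℤ) :
    Kil y s ((tw A I a).obj M) := ⟨h.1, h.2⟩

lemma Kil.ker {s : Finset σ} {M : GrMod A I} (h : Kil y s M) (B : Blocks A blk y x) (v : σ) :
    Kil y (s.erase v) (kernel (mu (B.mem v) M)) := by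
  have := B.noeth
  have := h.fin
  have hi := (mono_iff (kernel.ι (mu (B.mem v) M))).1 inferInstance
  refine ⟨Module.Finite.of_injective (N := M.obj.M) _ hi, fun w hw m => hi ?_⟩
  rw [map_smul, map_zero]
  by_cases hv : w = v
  · subst hv; exact congr(($(kernel.condition (mu (B.mem w) M))).hom.1 m)
  · exact h.kil w (by simpa [hv] using hw) _

lemma Kil.coker {s : Finset σ} {M : GrMod A I} (h : Kil y s M) (B : Blocks A blk y x) (v : σ) :
    Kil y (s.erase v) (cokernel (mu (B.mem v) M)) := by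
  have := h.fin
  have hi := (epi_iff (cokernel.π (mu (B.mem v) M))).1 inferInstance
  refine ⟨Module.Finite.of_surjective _ hi, fun w hw m => ?_⟩
  obtain ⟨m, rfl⟩ := hi m
  rw [← map_smul]
  by_cases hv : w = v
  · subst hv; exact congr(($(cokernel.condition (mu (B.mem w) M))).hom.1 m)
  · rw [h.kil w (by simpa [hv] using hw), map_zero]

variable {N : ObjectProperty (KK (GrMod A I))} (hN : IsTors x N)
include hN

lemma IsTors.tw (a : ι → ℤ) (Y : KK (GrMod A I)) : N ((TK A I a).obj Y) ↔ N Y :=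
  (hN _).trans (hN Y).symm

lemma IsTors.acyc : HomotopyCategory.subcategoryAcyclic (GrMod A I) ≤ N := by
  rintro ⟨Y⟩ hY
  refine (hN _).2 fun c n z hz => ⟨0, ?_⟩
  have := (HomotopyCategory.quotient_obj_mem_subcategoryAcyclic_iff_exactAt Y).1 hY n
  rw [Y.exactAt_iff' (n - 1) n (n + 1) (by simp) (by simp), exact_iff] at this
  exact (this z hz).imp fun w hw => by rwa [pow_zero, one_smul]

lemma IsTors.sg {M : GrMod A I} (h : ∀ c (m : M.obj.M), ∃ k : ℕ, x c ^ k • m = 0) :
    N ((sg _ 0).obj M) := by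
  refine (hN _).2 fun c n z _ => ?_
  by_cases hn : n = 0
  · subst hn
    let e := HomologicalComplex.singleObjXSelf (.up ℤ) 0 M
    obtain ⟨k, hk⟩ := h c (e.hom.hom.1 z)
    refine ⟨k, 0, (map_zero _).trans (Eq.symm ((mono_iff e.hom).1 inferInstance ?_))⟩
    exact (map_smul _ _ _).trans (hk.trans (map_zero _).symm)
  · have := (HomologicalComplex.isZero_single_obj_X (.up ℤ) 0 M n hn).eq_of_src (𝟙 _) 0
    have hz : z = 0 := congr(($this).hom.1 z)
    exact ⟨0, 0, by rw [hz, smul_zero]; exact map_zero _⟩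

variable {D : Type*} [Category D] [Preadditive D] [HasZeroObject D] [HasShift D ℤ]
  [∀ n : ℤ, (shiftFunctor D n).Additive] [Pretriangulated D] (L : KK (GrMod A I) ⥤ D)
  [L.CommShift ℤ] [L.IsTriangulated] [N.IsTriangulated] [N.IsClosedUnderIsomorphisms]
  [L.IsLocalization N.trW]

lemma IsTors.good_acyc (d : ι → ℤ) :
    HomotopyCategory.subcategoryAcyclic (GrMod A I) ≤ good L ((FMX.sg _ 0).obj (fr A I d)) := by
  intro Y hY n
  have hY' := (HomotopyCategory.subcategoryAcyclic _).le_shift n _ hY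
  refine ⟨fun g => ⟨0, (isZero_of_mem L N (hN.acyc _ hY')).eq_of_tgt _ _⟩, fun u _ => ?_⟩
  obtain ⟨k, hk⟩ := tors_null (Y⟦n⟧) 1 (fun z hz => ⟨0, by
    have := (HomotopyCategory.quotient_obj_mem_subcategoryAcyclic_iff_exactAt _).1 hY' 0
    rw [HomologicalComplex.exactAt_iff' _ (-1) 0 1 (by simp) (by simp), exact_iff] at this
    exact (this z hz).imp fun w hw => by rwa [pow_zero, one_smul]⟩) u
  have := hk 0 d (by simpa using SetLike.one_mem_graded A) (zero_add d)
  simpa only [one_pow, frMul_one, CategoryTheory.Functor.map_id, Category.id_comp] using this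

omit hN in
lemma good.isoP {P P' Y : KK (GrMod A I)} (h : good L P Y) (e : P ≅ P') : good L P' Y :=
  fun n => ⟨(h n).1.iso e (Iso.refl _), (h n).2.iso e (Iso.refl _)⟩

omit hN in
lemma prod_ind {Φ : R → (ι → ℤ) → Prop} (one : Φ 1 0)
    (mul : ∀ r s a b, Φ r a → Φ s b → Φ (r * s) (a + b)) (z : ι → R) (h : ∀ i, ∃ a, Φ (z i) a)
    (k : ℕ) : ∃ a, Φ ((∏ i, z i) ^ k) a := by
  let S : Submonoid R :=
    { carrier := {r | ∃ a, Φ r a}
      one_mem' := ⟨0, one⟩
      mul_mem' := fun ⟨a, ha⟩ ⟨b, hb⟩ => ⟨a + b, mul _ _ _ _ ha hb⟩ }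
  exact S.pow_mem (S.prod_mem fun i _ => h i) k

include B

/-- Serre vanishing. -/
theorem IsTors.vanish (s : Finset σ) : ∀ M : GrMod A I, Kil y s M →
    ∃ d₀, ∀ d, d₀ ≤ d → good L ((FMX.sg _ 0).obj (fr A I d)) ((FMX.sg _ 0).obj M) := by
  induction s using Finset.strongInduction with | H s ih =>
  intro M hM
  have := hM.fin
  by_cases hs : ∀ i, ∃ v ∈ s, blk v = i
  swap
  · push Not at hs
    obtain ⟨i, hi⟩ := hs
    have hi' (v) (hv : blk v = i) := hM.kil v fun h => hi v h hv
    obtain ⟨b, hb⟩ := B.bound M i hi'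
    have hZ : N ((FMX.sg _ 0).obj M) := hN.sg fun c m => by
      obtain ⟨v, hv, r, hr⟩ := B.dvd c i
      exact ⟨1, by rw [pow_one, hr, mul_comm, mul_smul, hi' v hv, smul_zero]⟩
    refine ⟨fun _ => b, fun d hd n => ⟨fun g =>
      ⟨0, (isZero_of_mem L N (N.le_shift n _ hZ)).eq_of_tgt _ _⟩, fun u _ => ?_⟩⟩
    exact sg_hom_zero n (.inr fun f => fr_ext (hb d (hd i) _ (f.hom.2 _ _ (one_mem d)))) u
  choose ch hch hblk using hs
  obtain ⟨c, hc⟩ := B.chart ch hblk
  choose d₁ h₁ using fun i => ih _ (Finset.erase_ssubset (hch i)) _ (hM.ker B (ch i))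
  choose d₂ h₂ using fun i => ih _ (Finset.erase_ssubset (hch i)) _ (hM.coker B (ch i))
  obtain ⟨d₀, h₀⟩ := (Set.finite_range fun i => d₁ i ⊔ d₂ i).bddAbove
  have h₀ (i) : d₁ i ⊔ d₂ i ≤ d₀ := h₀ ⟨i, rfl⟩
  have hpos (v : σ) : (0 : ι → ℤ) ≤ Pi.single (blk v) 1 := Pi.single_nonneg.2 zero_le_one
  have hF (i d) (hd : d₀ ≤ d) : (good L ((TK A I (Pi.single (blk (ch i)) 1)).obj
      ((FMX.sg _ 0).obj (fr A I d)))).trW ((muK (B.mem (ch i))).app ((FMX.sg _ 0).obj M)) := by
    obtain ⟨e, -⟩ := muK_fr (I := I) (B.mem (ch i)) (d := d) rfl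
    obtain ⟨e', he'⟩ := muK_sg (B.mem (ch i)) M
    have hd' := hd.trans (le_add_of_nonneg_left (hpos (ch i)))
    rw [he']
    refine (MorphismProperty.cancel_left_of_respectsIso _ _ _).2 ?_
    exact sg_trW _ (fun Y hY => (hN.good_acyc L _ Y hY).isoP L e.symm) _
      ((h₁ i _ ((le_sup_left.trans (h₀ i)).trans hd')).isoP L e.symm)
      ((h₂ i _ ((le_sup_right.trans (h₀ i)).trans hd')).isoP L e.symm)
  have hS (d) (hd : d₀ ≤ d) (n : ℤ) :
      Srj L ((FMX.sg _ 0).obj (fr A I d)) (((FMX.sg _ 0).obj M)⟦n⟧) := fun g => by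
    obtain ⟨Z, u, hZ, hu⟩ := lift_fraction L N g
    obtain ⟨k, hk⟩ := tors_null Z (x c) ((hN Z).1 hZ c 0) u
    obtain ⟨a, hr, -, h⟩ := prod_ind (Φ := fun r a => ∃ hr : r ∈ A a, 0 ≤ a ∧ ∀ d d', d₀ ≤ d →
        ∀ (h : a + d = d') (g : L.obj ((FMX.sg _ 0).obj (fr A I d)) ⟶
          L.obj (((FMX.sg _ 0).obj M)⟦n⟧)),
        (∃ u, L.map ((FMX.sg _ 0).map (frMul hr h)) ≫ g = L.map u) → ∃ v, g = L.map v)
      ⟨SetLike.one_mem_graded A, le_rfl, fun d d' _ h g hg => by
        obtain rfl : d = d' := (zero_add d).symm.trans h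
        simpa only [frMul_one, CategoryTheory.Functor.map_id, Category.id_comp] using hg⟩
      (fun r s a b ⟨hr, ha, h⟩ ⟨hs, hb, h'⟩ => ⟨SetLike.mul_mem_graded hr hs, add_nonneg ha hb,
        fun d d' hd e g hg => h' d _ hd rfl g (h _ d' (hd.trans (le_add_of_nonneg_left hb))
          (by rw [← e, add_assoc]) _ (by
            rwa [← Category.assoc, ← L.map_comp, ← Functor.map_comp, ← frMul_mul]))⟩)
      (fun i => y (ch i)) (fun i => ⟨_, B.mem (ch i), hpos _, fun d d' hd h g ⟨u, hu⟩ => by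
        obtain ⟨e, he⟩ := muK_fr (I := I) (B.mem (ch i)) h
        exact step_srj N (hN.tw _) _ (hF i d hd) n g (e.hom ≫ u)
          (by rw [he, L.map_comp, Category.assoc, hu, L.map_comp])⟩) k
    exact h d _ hd rfl g (hu _ (by have := hk a _ (hc ▸ hr) rfl; simpa only [hc] using this))
  refine ⟨d₀, fun d hd n => ⟨hS d hd n, fun u hu => ?_⟩⟩
  obtain ⟨Z, w, w', hZ, rfl⟩ := factor_of_map_eq_zero L N u hu
  obtain ⟨k, hk⟩ := tors_null Z (x c) ((hN Z).1 hZ c 0) w
  obtain ⟨a, hr, -, h⟩ := prod_ind (Φ := fun r a => ∃ hr : r ∈ A a, 0 ≤ a ∧ ∀ d d', d₀ ≤ d →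
      ∀ (h : a + d = d') (u : (FMX.sg _ 0).obj (fr A I d) ⟶ ((FMX.sg _ 0).obj M)⟦n⟧),
      L.map u = 0 → (FMX.sg _ 0).map (frMul hr h) ≫ u = 0 → u = 0)
    ⟨SetLike.one_mem_graded A, le_rfl, fun d d' _ h u _ hg => by
      obtain rfl : d = d' := (zero_add d).symm.trans h
      simpa only [frMul_one, CategoryTheory.Functor.map_id, Category.id_comp] using hg⟩
    (fun r s a b ⟨hr, ha, h⟩ ⟨hs, hb, h'⟩ => ⟨SetLike.mul_mem_graded hr hs, add_nonneg ha hb,
      fun d d' hd e u hu hg => h' d _ hd rfl u hu (h _ d' (hd.trans (le_add_of_nonneg_left hb))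
        (by rw [← e, add_assoc]) _ (by rw [L.map_comp, hu, comp_zero]) (by
          rwa [← Category.assoc, ← Functor.map_comp, ← frMul_mul]))⟩)
    (fun i => y (ch i)) (fun i => ⟨_, B.mem (ch i), hpos _, fun d d' hd h u hu hg => by
      obtain ⟨e, he⟩ := muK_fr (I := I) (B.mem (ch i)) h
      exact step_inj N (hN.tw _) _ (hF i d hd) n
        ((hS d' (h ▸ hd.trans (le_add_of_nonneg_left (hpos _))) _).iso e.symm (Iso.refl _)) u hu
        (by rw [he, Category.assoc, hg, comp_zero])⟩) k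
  refine h d _ hd rfl _ hu ?_
  have := hk a _ (hc ▸ hr) rfl
  simp only [hc] at this
  rw [← Category.assoc, this, zero_comp]

variable [Linear K D] [L.Linear K] [∀ n : ℤ, (shiftFunctor D n).Linear K]

omit hN B in
variable (K) in
/-- Complexes with finite total Hom from a fixed object. -/
abbrev finQ (X : D) : ObjectProperty (KK (GrMod A I)) := (finR K (· = X)).inverseImage L

omit B in
lemma IsTors.le_finQ (X : D) : N ≤ finQ K L X := fun _ hY =>
  (finR K (· = X)).prop_of_isZero (isZero_of_mem L N hY)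

/-- Serre finiteness. -/
theorem IsTors.serre (d : ι → ℤ) (s : Finset σ) : ∀ M : GrMod A I, Kil y s M →
    finQ K L (L.obj ((FMX.sg _ 0).obj (fr A I d))) ((FMX.sg _ 0).obj M) := by
  induction s using Finset.strongInduction with | H s ih =>
  intro M hM
  have := hM.fin
  by_cases hs : ∀ i, ∃ v ∈ s, blk v = i
  swap
  · push Not at hs
    obtain ⟨i, hi⟩ := hs
    refine hN.le_finQ L _ _ (hN.sg fun c m => ?_)
    obtain ⟨v, hv, r, hr⟩ := B.dvd c i
    exact ⟨1, by rw [pow_one, hr, mul_comm, mul_smul, hM.kil v fun h => hi v h hv, smul_zero]⟩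
  choose ch hch hblk using hs
  let Q := finQ K L (L.obj ((FMX.sg _ 0).obj (fr A I d)))
  let F (a : ι → ℤ) : Prop := Q ((FMX.sg _ 0).obj ((FMX.tw A I a).obj M))
  let S : AddSubgroup (ι → ℤ) :=
    { carrier := {c | ∀ a, F (a + c) ↔ F a}
      zero_mem' a := by rw [add_zero]
      add_mem' {b c} hb hc a := by rw [← add_assoc, hc, hb]
      neg_mem' {b} hb a := by rw [← hb, neg_add_cancel_right] }
  have h1 (i) : Pi.single i 1 ∈ S := fun a => by
    have h := mem_iff_of_trW Q (sg_trW Q (hN.acyc.trans (hN.le_finQ L _))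
      (mu (B.mem (ch i)) ((FMX.tw A I a).obj M))
      (ih _ (Finset.erase_ssubset (hch i)) _ ((hM.tw a).ker B (ch i)))
      (ih _ (Finset.erase_ssubset (hch i)) _ ((hM.tw a).coker B (ch i))))
    rw [hblk] at h
    exact (Q.prop_iff_of_iso ((FMX.sg _ 0).mapIso ((twComp rfl).app M))).symm.trans h
  have h2 (c) : c ∈ S := by
    rw [← Finset.univ_sum_single c]
    exact S.sum_mem fun i _ => by
      simpa [← Pi.single_smul] using S.zsmul_mem (h1 i) (c i)
  obtain ⟨d₀, h₀⟩ := hN.vanish B L s M hM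
  obtain ⟨e, -⟩ := muK_fr (I := I) (zero_mem (A (d - d₀))) (sub_add_cancel d d₀)
  obtain ⟨e', -⟩ := muK_sg (zero_mem (A (d - d₀))) M
  have h3 : F (0 + (d - d₀)) := by
    rw [zero_add]
    rintro _ rfl
    have : Module.Finite R ((FMX.tw A I (d - d₀)).obj M).obj.M := hM.fin
    exact ((good L _).prop_of_iso e' (((h₀ d₀ le_rfl).tw N (hN.tw _)).isoP L e)).hfin K
      (hfin_sg K (B.hom_finite d _))
  exact Q.prop_of_iso ((FMX.sg _ 0).mapIso (twZero.app M)) ((h2 _ 0).1 h3)

end FMX
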