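import Pool.Agent.MP_0e6a9f_ag.H32.Serre
import Pool.Agent.MP_0e6a9f_ag.H32.PD
import Pool.Agent.MP_0e6a9f_ag.H68.Der

/-! On a variety with regular charts the twists of the structure sheaf generate. -/

set_option backward.isDefEq.respectTransparency false
set_option linter.unusedSectionVars false

open CategoryTheory Limits DirectSum FMD Pretriangulated TensorProduct

noncomputable section
namespace FMX

section
variable {K G R : Type} [Field K] [AddCommGroup G] [DecidableEq G] [CommRing R] [Algebra K R]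
  {A : G → Submodule K R} [GradedAlgebra A] {I : HomogeneousIdeal A} {M N : GrMod A I}

lemma exists_component (s : M.obj.M →ₗ[R] N.obj.M) (a : G) : ∃ t : (tw A I a).obj M ⟶ N,
    ∀ d, ∀ m ∈ M.obj.gr d, t.hom.1 m = pr N (a + d) (s m) := by
  let e := LinearEquiv.ofBijective (eps M.obj).1 M.property
  let φ := M.obj.desc (N := N.obj.M)
    (fun d => (pr N (a + d)).comp (s.toAddMonoidHom.comp (M.obj.gr d).subtype))
    fun b d r hr m => by
      change pr N _ (s (r • m.1)) = r • pr N _ (s m.1)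
      rw [map_smul, ← smul_pr hr, add_left_comm]
  have h (d) (m) (hm : m ∈ M.obj.gr d) : φ (e.symm m) = pr N (a + d) (s m) := by
    rw [show e.symm m = of (fun d => M.obj.gr d) d ⟨m, hm⟩ from
      e.symm_apply_eq.2 (eps_of _ d ⟨m, hm⟩).symm]
    exact M.obj.desc_of _ _ _ _
  exact ⟨mkHom (φ ∘ₗ e.symm.toLinearMap) fun d m hm => (h _ m hm).symm ▸
    mem_cast (prj_mem N.property _ _) (by abel), h⟩

instance (M : Pre A I) : IsScalarTower R (R ⧸ I.toIdeal) M.M :=
  Module.IsTorsionBySet.isScalarTower _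

/-- The underlying map is linear over the quotient ring. -/
def lin (f : M ⟶ N) : M.obj.M →ₗ[R ⧸ I.toIdeal] N.obj.M :=
  f.hom.1.extendScalarsOfSurjective Ideal.Quotient.mk_surjective

lemma split_frs {J : Type} [Fintype J] (d : J → G) :
    ∃ (i : (⨁ fun j => fr A I (d j)).obj.M →ₗ[R] (J → R ⧸ I.toIdeal))
      (s : (J → R ⧸ I.toIdeal) →ₗ[R] (⨁ fun j => fr A I (d j)).obj.M), ∀ m, s (i m) = m := by
  classical
  refine ⟨LinearMap.pi fun j => (biproduct.π (fun j => fr A I (d j)) j).hom.1,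
    ∑ j, (biproduct.ι (fun j => fr A I (d j)) j).hom.1 ∘ₗ LinearMap.proj j, fun m => ?_⟩
  have := (U A I).congr_map (biproduct.total (f := fun j => fr A I (d j)))
  rw [Functor.map_sum] at this
  have := congr(($this).hom m)
  rw [ModuleCat.hom_sum, LinearMap.sum_apply] at this
  exact (LinearMap.sum_apply _ _ _).trans this

lemma proj_frs {J : Type} [Fintype J] (d : J → G) :
    Module.Projective (R ⧸ I.toIdeal) (⨁ fun j => fr A I (d j)).obj.M := by
  obtain ⟨i, s, h⟩ := split_frs (I := I) d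
  exact Module.Projective.of_split (i.extendScalarsOfSurjective Ideal.Quotient.mk_surjective)
    (s.extendScalarsOfSurjective Ideal.Quotient.mk_surjective) (LinearMap.ext h)

lemma fin_frs {J : Type} [Fintype J] (d : J → G) :
    Module.Finite R (⨁ fun j => fr A I (d j)).obj.M := by
  obtain ⟨i, s, h⟩ := split_frs (I := I) d
  exact Module.Finite.of_surjective s fun m => ⟨_, h m⟩

lemma acyc_iff (Y : KK (GrMod A I)) : HomotopyCategory.subcategoryAcyclic _ Y ↔
    ∀ n z, (Y.as.d n (n + 1)).hom.1 z = 0 → ∃ w, (Y.as.d (n - 1) n).hom.1 w = z :=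
  (HomotopyCategory.quotient_obj_mem_subcategoryAcyclic_iff_exactAt Y.as).trans
    (forall_congr' fun n => (Y.as.exactAt_iff' (n - 1) n (n + 1) (by simp) (by simp)).trans
      (exact_iff _))

end

lemma sg_biproduct {𝒜 : Type*} [Category 𝒜] [Abelian 𝒜] [HasFiniteBiproducts 𝒜]
    (Q : ObjectProperty (KK 𝒜))
    [Q.IsTriangulated] [Q.IsClosedUnderIsomorphisms] {J : Type} [Fintype J] (X : J → 𝒜)
    (h : ∀ j, Q ((sg 𝒜 0).obj (X j))) : Q ((sg 𝒜 0).obj (⨁ X)) :=
  Q.prop_of_iso ((sg 𝒜 0).mapBiproduct X ≪≫ biproduct.isoProduct _).symm (Q.prop_pi _ h)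

variable {K R ι C : Type} [Field K] [CommRing R] [Algebra K R] [Fintype ι] [DecidableEq ι]
  {A : (ι → ℤ) → Submodule K R} [GradedAlgebra A] {I : HomogeneousIdeal A} [IsNoetherianRing R]
  (Q : ObjectProperty (KK (GrMod A I))) [Q.IsTriangulated] [Q.IsStableUnderRetracts]
  (hac : HomotopyCategory.subcategoryAcyclic (GrMod A I) ≤ Q)
  (hfr : ∀ d, Q ((sg _ 0).obj (fr A I d)))
include hac hfr

lemma mem_of_pd {f : R} {a : ι → ℤ} (hf : f ∈ A a) (n : ℕ) : ∀ (M : GrMod A I)
    [Module.Finite R M.obj.M], PD (Localization.Away (Ideal.Quotient.mk I.toIdeal f)) n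
      (Localization.Away (Ideal.Quotient.mk I.toIdeal f) ⊗[R ⧸ I.toIdeal] M.obj.M) →
    (∀ k : ℕ, isoMu Q.trW.Q (muK (SetLike.pow_mem_graded k hf)) ((sg _ 0).obj M)) →
      Q ((sg _ 0).obj M) := by
  have hz {X} (h : Q X) := isZero_of_mem Q.trW.Q Q h
  induction n with
  | zero =>
    intro M _ hM h
    obtain ⟨J, _, d, p, hp⟩ := exists_cover M
    have := Module.Finite.of_restrictScalars_finite R (R ⧸ I.toIdeal) M.obj.M
    have := Module.finitePresentation_of_finite (R ⧸ I.toIdeal) M.obj.M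
    obtain ⟨s, ⟨_, k, rfl⟩, hs⟩ := lpd_split (.powers (Ideal.Quotient.mk I.toIdeal f)) _
      (g := lin p) ((epi_iff p).1 hp) hM
    obtain ⟨t, ht⟩ := exists_component (s.restrictScalars R) (k • a)
    have hr := SetLike.pow_mem_graded k hf
    have e : t ≫ p = mu hr M := hom_ext fun m => by
      induction m using gr_ind M.property with
      | zero => simp
      | add u v hu hv => rw [map_add, map_add, hu, hv]
      | hom e m hm =>
        change p.hom.1 (t.hom.1 m) = f ^ k • m
        have : p.hom.1 (s m) = f ^ k • m := (hs m).trans (by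
          change (Ideal.Quotient.mk I.toIdeal f ^ k) • m = _
          rw [← map_pow]; rfl)
        rw [ht e m hm, ← hom_pr]
        exact (congrArg _ this).trans (prj_same _ (M.obj.smul_mem hr hm))
    obtain ⟨e', he⟩ := muK_sg hr M
    have h0 : IsIso (Q.trW.Q.map _) := h k
    refine mem_of_isZero Q.trW.Q Q (IsZero.of_epi_eq_zero (Q.trW.Q.map ((muK hr).app _)) ?_)
    rw [he, ← e, Functor.map_comp, Functor.map_comp, Functor.map_comp,
      (hz (sg_biproduct Q _ fun j => hfr _)).eq_of_src (Q.trW.Q.map ((sg _ 0).map p)) 0]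
    simp
  | succ n ih =>
    intro M _ hM h
    obtain ⟨J, _, d, p, hp⟩ := exists_cover M
    have hS : (ShortComplex.mk (kernel.ι p) p (kernel.condition p)).ShortExact :=
      { exact := ShortComplex.exact_kernel p }
    have hi := (mono_iff (kernel.ι p)).1 inferInstance
    have := fin_frs (I := I) d
    have := Module.Finite.of_injective _ hi
    have := proj_frs (I := I) d
    refine sg_mem₃ Q hac hS (ih (kernel p) (lpd_syz (.powers (Ideal.Quotient.mk I.toIdeal f)) _
      (f := lin (kernel.ι p)) (g := lin p) (fun m => ⟨(exact_iff _).1 hS.exact m, ?_⟩) hi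
      ((epi_iff p).1 hp) hM) fun k => ?_) (sg_biproduct Q _ fun j => hfr _)
    · rintro ⟨m, rfl⟩
      exact congr(($(kernel.condition p)).hom.1 m)
    refine sg_mem₁ (isoMu Q.trW.Q (muK (SetLike.pow_mem_graded k hf)))
      (fun Y hY => (hz (hac _ ?_)).isIso (hz (hac _ hY)) _) hS (sg_biproduct _ _ fun j => ?_) (h k)
    · exact (acyc_iff _).2 ((acyc_iff Y).1 hY)
    · obtain ⟨e, -⟩ := muK_fr (I := I) (SetLike.pow_mem_graded k hf) (d := d j) rfl
      exact (hz (Q.prop_of_iso e.symm (hfr _))).isIso (hz (hfr _)) _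

omit hac
variable {x : C → R} {N : ObjectProperty (KK (GrMod A I))} (hN : IsTors x N) (hQ : N ≤ Q)
  {J : Type} [Fintype J] {f : J → R} (hf : ∀ j, ∃ a, f j ∈ A a)
  (hgd : ∀ j, ∃ n, GD (Localization.Away (Ideal.Quotient.mk I.toIdeal (f j))) n)
  (hc : ∀ c, x c ∈ (I.toIdeal ⊔ Ideal.span (Set.range f)).radical)
include hN hQ hf hgd hc

theorem mem_of_tors (s : Finset J) : ∀ (M : GrMod A I) [Module.Finite R M.obj.M],
    (∀ j ∉ s, ∀ m : M.obj.M, ∃ k : ℕ, f j ^ k • m = 0) → Q ((sg _ 0).obj M) := by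
  classical
  have hac := hN.acyc.trans hQ
  induction s using Finset.induction_on with
  | empty =>
    refine fun M _ h => hQ _ (hN.sg fun c m => ?_)
    have : (I.toIdeal ⊔ Ideal.span (Set.range f)).radical ≤ (Ideal.torsionOf R _ m).radical := by
      rw [Ideal.radical_le_radical_iff, sup_le_iff, Ideal.span_le]
      exact ⟨fun r hr => Ideal.le_radical (M.obj.kill r hr m), by
        rintro _ ⟨j, rfl⟩; exact h j (by simp) m⟩
    exact this (hc c)
  | insert j s hj ih =>
    intro M _ h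
    obtain ⟨a, ha⟩ := hf j
    obtain ⟨n, hn⟩ := hgd j
    refine mem_of_pd Q hac hfr ha n M (hn _) fun k => ?_
    have hr := SetLike.pow_mem_graded k ha
    obtain ⟨e, he⟩ := muK_sg hr M
    have hi := (mono_iff (kernel.ι (mu hr M))).1 inferInstance
    have hp := (epi_iff (cokernel.π (mu hr M))).1 inferInstance
    have := Module.Finite.of_injective (N := M.obj.M) _ hi
    have := Module.Finite.of_surjective _ hp
    have := Localization.inverts Q.trW.Q Q.trW _ (sg_trW Q hac (mu hr M)
      (ih _ fun i hi' m => ?_) (ih _ fun i hi' m => ?_))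
    · change IsIso (Q.trW.Q.map _)
      rw [he, Functor.map_comp]; infer_instance
    · by_cases hij : i = j
      · subst hij
        exact ⟨k, hi ((map_smul _ _ _).trans (Eq.trans
          congr(($(kernel.condition (mu hr M))).hom.1 m) (map_zero _).symm))⟩
      · obtain ⟨l, hl⟩ := h i (by simp [hij, hi']) ((kernel.ι (mu hr M)).hom.1 m)
        exact ⟨l, hi ((map_smul _ _ _).trans (hl.trans (map_zero _).symm))⟩
    · obtain ⟨m, rfl⟩ := hp m
      by_cases hij : i = j
      · subst hij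
        exact ⟨k, (map_smul _ _ _).symm.trans congr(($(cokernel.condition (mu hr M))).hom.1 m)⟩
      · obtain ⟨l, hl⟩ := h i (by simp [hij, hi']) m
        exact ⟨l, by rw [← map_smul, hl, map_zero]⟩

omit hfr hQ Q

variable {D : Type*} [Category D] [Preadditive D] [HasZeroObject D] [HasShift D ℤ]
  [∀ n : ℤ, (shiftFunctor D n).Additive] [Pretriangulated D] (L : KK (GrMod A I) ⥤ D)
  [L.CommShift ℤ] [L.IsTriangulated] [N.IsTriangulated] [N.IsClosedUnderIsomorphisms]
  [L.IsLocalization N.trW]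

omit hf hgd hc in
lemma IsTors.bdd (Q : ObjectProperty D) [Q.IsTriangulated] [Q.IsClosedUnderIsomorphisms]
    (h : ∀ (M : GrMod A I) [Module.Finite R M.obj.M], Q (L.obj ((FMX.sg _ 0).obj M)))
    (P : CochainComplex (GrMod A I) ℤ) (hP : Bdd P) (hP' : ∀ n, Module.Finite R (P.X n).obj.M) :
    Q (L.obj ((qq _).obj P)) := by
  obtain ⟨a, ha⟩ := hP.bddBelow
  obtain ⟨b, hb⟩ := hP.bddAbove
  refine bdd_mem (Q.inverseImage L)
    (fun Y hY => Q.prop_of_isZero (isZero_of_mem L N (hN.acyc _ hY)))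
    (fun M => Module.Finite R M.obj.M)
    (fun g _ _ => Module.Finite.of_surjective _ ((epi_iff g).1 inferInstance))
    (fun M _ => h M) a (b + 1 - a).toNat P hP' fun n hn => by_contra fun h0 => ?_
  have := ha h0
  have := hb h0
  omega

/-- The twists of the structure sheaf generate. -/
theorem IsTors.thickGen : ThickGen (fun X => ∃ d, X = L.obj ((FMX.sg _ 0).obj (fr A I d)))
    fun Y => ∃ P, Bdd P ∧ (∀ n, Module.Finite R (P.X n).obj.M) ∧
      Nonempty (L.obj ((qq _).obj P) ≅ Y) := by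
  rintro Q _ _ hQ Y ⟨P, h1, h2, ⟨e⟩⟩
  have : (Q.inverseImage L).IsStableUnderRetracts :=
    ⟨fun e h => Q.prop_of_retract (e.map L) h⟩
  refine Q.prop_of_iso e (hN.bdd L Q (fun M _ => ?_) P h1 h2)
  exact mem_of_tors (Q.inverseImage L) (fun d => hQ _ ⟨d, rfl⟩) hN
    (fun Y hY => Q.prop_of_isZero (isZero_of_mem L N hY)) hf hgd hc Finset.univ M (by simp)

end FMX
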