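import Pool.Agent.MP_0e6a9f_ag.H32.GeoSpec

/-! Vanishing of local cohomology: towers of blocks, free modules, change of the grading group. -/

set_option autoImplicit false
set_option linter.unusedSectionVars false

open FMD FMD.DG

noncomputable section
namespace FMX

variable {K G R : Type} [Field K] [AddCommGroup G] [CommRing R] [Algebra K R] [CharP K 2]
  {A : G → Submodule K R} [SetLike.GradedMonoid A] {U V : Set G} {L M N P T Y Z : DG A}
  {xs ys zs : List (HE A)} {x z : HE A}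

section tors

lemma torsOn_of_pow (k : ℕ) {m : R} (hm : m ∈ A (k • z.deg - x.deg)) (e : z.x ^ k = x.x * m)
    (h : TorsOn U x M) : TorsOn U z M := fun g hg n w hw h0 => by
  obtain ⟨l, hl⟩ := h g hg n w hw h0
  refine ⟨k * l, bd_cast (bd_smul (SetLike.pow_mem_graded l hm) hl) ?_ ?_⟩
  · rw [mul_comm, mul_nsmul', smul_sub]; abel
  · rw [smul_smul, pow_mul, e, mul_pow, mul_comm]

lemma torsOn_iff (hU : Stab U x.deg) : TorsOn U x M ↔ AcycOn U (loc x M) :=
  ⟨(isLoc_toLoc x M).acycOn hU, (isLoc_toLoc x M).torsOn⟩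

lemma torsOn_left (hU : Stab U x.deg) {f : M.M →ₗ[R] N.M} (hf : QisOn U M N f)
    (h : TorsOn U x N) : TorsOn U x M :=
  (torsOn_iff hU).2 (((good_loc x hU).qis hf).acyc_left ((torsOn_iff hU).1 h))

lemma torsOn_right (hU : Stab U x.deg) {f : M.M →ₗ[R] N.M} (hf : QisOn U M N f)
    (h : TorsOn U x M) : TorsOn U x N :=
  (torsOn_iff hU).2 (((good_loc x hU).qis hf).acyc_right ((torsOn_iff hU).1 h))

/-- A map with an inverse up to homotopy and multiplication by `x`. -/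
lemma tors_cone_of_inv {f : M.M →ₗ[R] N.M} (hf : IsHom M N f) {σ : N.M →ₗ[R] M.M}
    (hσ : σ ∈ deg N M x.deg 0) (dσ : homD N M σ = 0) {κ : M.M →ₗ[R] M.M} {κ' : N.M →ₗ[R] N.M}
    (hκ : κ ∈ deg M M x.deg (-1)) (hκ' : κ' ∈ deg N N x.deg (-1))
    (e : σ ∘ₗ f = x.x • LinearMap.id + homD M M κ)
    (e' : f ∘ₗ σ = x.x • LinearMap.id + homD N N κ') : Tors x (cone hf) := by
  rintro g - n ⟨m, v⟩ ⟨hm, hv⟩ h0
  obtain ⟨h1, h2⟩ := Prod.ext_iff.1 h0
  change M.d m = 0 at h1
  change f m + N.d v = 0 at h2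
  have h3 : f m = N.d v := (N.cx 0).eq_of_add h2
  have c := comm_of_homD dσ
  have e1 : σ (f m) = x.x • m + M.d (κ m) := by
    simpa [homD_apply, h1] using LinearMap.congr_fun e m
  have e2 : ∀ w, f (σ w) = x.x • w + (N.d (κ' w) + κ' (N.d w)) := fun w =>
    LinearMap.congr_fun e' w
  have hw : κ' (f m) + f (κ m) ∈ N.gr (x.deg + g) n :=
    add_mem (DG.mem_cast (hκ' _ _ _ (hf.mem hm)) rfl (by ring))
      (hf.mem (DG.mem_cast (hκ _ _ _ hm) rfl (by ring)))
  have dw : N.d (κ' (f m) + f (κ m)) = 0 := by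
    have a1 := e2 (f m)
    rw [hf.comm, h1, map_zero, map_zero, add_zero, e1, map_add, map_smul, ← hf.comm] at a1
    rw [map_add, add_left_cancel a1, N.two]
  generalize hw' : κ' (f m) + f (κ m) = w at hw dw
  have b1 : σ v + κ m ∈ M.gr (x.deg + g) n :=
    add_mem (DG.mem_cast (hσ _ _ _ hv) rfl (add_zero _)) (DG.mem_cast (hκ _ _ _ hm) rfl (by ring))
  have b2 : x.x • (σ v + κ m) + σ w ∈ M.gr (2 • x.deg + g) (n - 1 + 1) :=
    add_mem (DG.mem_cast (M.smul_mem x.mem b1) (by rw [two_nsmul, add_assoc]) (by ring))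
      (DG.mem_cast (hσ _ _ _ hw) (by rw [two_nsmul, add_assoc]) (by ring))
  have b3 : x.x • κ' v + κ' w ∈ N.gr (2 • x.deg + g) (n - 1) :=
    add_mem (DG.mem_cast (N.smul_mem x.mem (hκ' _ _ _ hv)) (by rw [two_nsmul, add_assoc]) (by ring))
      (DG.mem_cast (hκ' _ _ _ hw) (by rw [two_nsmul, add_assoc]) (by ring))
  refine ⟨2, (x.x • (σ v + κ m) + σ w, x.x • κ' v + κ' w), ⟨b2, b3⟩, Prod.ext ?_ ?_⟩
  · change M.d (x.x • (σ v + κ m) + σ w) = x.x ^ 2 • m
    rw [map_add, map_smul, map_add, c, c, dw, map_zero, add_zero, ← h3, e1, add_assoc, M.two,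
      add_zero, smul_smul, sq]
  · change f (x.x • (σ v + κ m) + σ w) + N.d (x.x • κ' v + κ' w) = x.x ^ 2 • v
    have a1 := N.two (x.x • N.d (κ' v))
    have a2 := N.two (N.d (κ' w))
    have a3 := N.two (x.x • w)
    rw [map_add, map_smul, map_add, e2, e2, dw, ← h3, map_add, map_smul, sq, mul_smul,
      show f (κ m) = w - κ' (f m) by rw [← hw']; abel]
    simp only [smul_add, smul_sub, map_zero]
    linear_combination (norm := abel) a1 + a2 + a3

end tors

section van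

lemma Van.mono (h : Van xs U M) (hV : V ⊆ U) : Van xs V M := AcycOn.mono h hV

lemma van_of_forall (h : ∀ g ∈ U, Van xs {g} M) : Van xs U M := fun g hg => h g hg g rfl

lemma Van.eta (h : Van xs U M) : QisOn U M ((cechF xs).obj M) ((cechEta xs).app M) :=
  cechEta_qisOn h

lemma van_of_acyc (hU : StabL U xs) (h : AcycOn U M) : Van xs U M := (good_gam hU).acyc h

lemma Van.right (hU : StabL U xs) {f : M.M →ₗ[R] N.M} (hf : QisOn U M N f) (hV : V ⊆ U)
    (h : Van xs V M) : Van xs V N := (((good_gam hU).qis hf).mono hV).acyc_right h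

lemma Van.left (hU : StabL U xs) {f : M.M →ₗ[R] N.M} (hf : QisOn U M N f) (hV : V ⊆ U)
    (h : Van xs V N) : Van xs V M := (((good_gam hU).qis hf).mono hV).acyc_left h

/-- Any local replacement detects the vanishing. -/
lemma van_iff {j : M.M →ₗ[R] Z.M} (hj : IsW xs M Z j) (hZ : IsLocal xs Z) :
    Van xs U M ↔ QisOn U M Z j := by
  have q := (gamEps_qis ((isW_iff hj.isHom).1 hj)).mono (Set.subset_univ U)
  have hZ' : AcycOn U ((gamF xs).obj Z) := AcycOn.mono hZ (Set.subset_univ U)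
  rw [qisOn_iff_cone hj.isHom]
  exact ⟨fun h => q.acyc_right (((gamF xs).qisOn_iff hj.isHom).1
      (QisOn.of_acyc ((gamF xs).isHom hj.isHom) h hZ')),
    fun h => (((gamF xs).qisOn_iff hj.isHom).2 (q.acyc_left h)).acyc_left hZ'⟩

lemma Eqv.symm (h : Eqv xs ys) : Eqv ys xs := fun M => (h M).symm

lemma Eqv.trans (h : Eqv xs ys) (h' : Eqv ys zs) : Eqv xs zs := fun M => (h M).trans (h' M)

lemma Eqv.isW (h : Eqv xs ys) {f : M.M →ₗ[R] N.M} (hf : IsW xs M N f) : IsW ys M N f :=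
  (isW_iff hf.isHom).2 ((h _).1 ((isW_iff hf.isHom).1 hf))

lemma isLocal_of_dom (h : ∀ T : DG A, TorsL ys T → TorsL xs T) (hM : IsLocal xs M) :
    IsLocal ys M := acyc_of_torsL_local (h _ (torsL_gam ys M)) (hM.gam ys)

lemma isW_of_dom (h : ∀ T : DG A, TorsL xs T → TorsL ys T) {f : M.M →ₗ[R] N.M}
    (hf : IsW xs M N f) : IsW ys M N f := (isW_iff hf.isHom).2 (h _ ((isW_iff hf.isHom).1 hf))

lemma Eqv.isLocal (h : Eqv xs ys) (hM : IsLocal xs M) : IsLocal ys M :=
  isLocal_of_dom (fun T => (h T).2) hM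

lemma Eqv.van (h : Eqv xs ys) (hM : Van xs U M) : Van ys U M :=
  (van_iff (h.isW (cechEta_isW xs M)) (h.isLocal (isLocal_cech xs M))).2 hM.eta

/-- A functor kills the Cech complex as soon as its value is torsion on every chart. -/
lemma acycOn_cech {F : DGF A} (hF : F.PL) (hU : StabL U xs)
    (h : ∀ x ∈ xs, TorsOn U x (F.obj M)) : AcycOn U (F.obj ((cechF xs).obj M)) := by
  have key : ∀ ys : List (HE A), (∀ y ∈ ys, y ∈ xs) →
      QisOn U (F.obj ((gamF ys).obj M)) (F.obj M) (F.map _ _ ((gamEps ys).app M)) := by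
    intro ys
    induction ys with
    | nil => exact fun _ => (F.map_id M).symm ▸ QisOn.id _
    | cons y ys ih =>
      intro hy
      have h0 := ih fun w hw => hy w (by simp [hw])
      have hs := hU y (hy y (by simp))
      have h1 := (F.ext_ses (U := U) (toLoc_isHom y ((gamF ys).obj M)).fibTw).qis_p
        ((F.acycOn_sh _).2 ((hF y _ _ _ (isLoc_toLoc y _)).acycOn hs
          (torsOn_left hs h0 (h y (hy y (by simp))))))
      have h2 := h0.comp h1
      rwa [← F.map_comp] at h2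
  exact (F.qisOn_iff ((gamEps xs).isHom M)).1 (key xs fun _ h => h)

lemma cech_qisOn (hU : StabL U xs) {f : M.M →ₗ[R] N.M} (hf : IsHom M N f)
    (h : ∀ x ∈ xs, TorsOn U x (cone hf)) :
    QisOn U ((cechF xs).obj M) ((cechF xs).obj N) ((cechF xs).map M N f) :=
  ((cechF xs).qisOn_iff hf).2 (acycOn_cech DGF.pl_id hU h)

lemma exists_list (M : DG A) : ∀ Ls : List (List (HE A) × Set G),
    Ls.Pairwise (fun a b => StabL b.2 a.1) → (∀ p ∈ Ls, Van p.1 p.2 M) →
    ∃ (Z : DG A) (j : M.M →ₗ[R] Z.M), QisOn {g | ∀ p ∈ Ls, g ∈ p.2} M Z j ∧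
      (∀ p ∈ Ls, IsLocal p.1 Z) ∧
      ∀ zs, (∀ p ∈ Ls, ∀ T : DG A, TorsL p.1 T → TorsL zs T) → IsW zs M Z j
  | [], _, _ => ⟨M, LinearMap.id, QisOn.id M, by simp, fun _ _ => IsW.id M⟩
  | p :: Ls, hp, hV => by
    obtain ⟨Z, j, h1, h2, h3⟩ := exists_list M Ls hp.of_cons fun q hq => hV q (by simp [hq])
    have hs : StabL {g | ∀ q ∈ Ls, g ∈ q.2} p.1 := fun y hy g hg q hq =>
      List.rel_of_pairwise_cons hp hq y hy g (hg q hq)
    refine ⟨(cechF p.1).obj Z, (cechEta p.1).app Z ∘ₗ j, ?_, ?_, fun zs hz => ?_⟩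
    · have e : (cechEta p.1).app Z ∘ₗ j = (cechF p.1).map M Z j ∘ₗ (cechEta p.1).app M :=
        LinearMap.ext fun m => (cechEta p.1).nat M Z j m
      rw [e]
      refine QisOn.comp (((good_cech hs).qis h1).mono ?_) ((hV p (by simp)).eta.mono ?_)
      exacts [fun g hg q hq => hg q (by simp [hq]), fun g hg => hg p (by simp)]
    · intro q hq
      rcases List.mem_cons.1 hq with rfl | hq
      · exact isLocal_cech _ _
      · exact (h2 q hq).cech _
    · exact (cechEta_isW' (hz p (by simp) _ (torsL_gam _ _))).comp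
        (h3 zs fun q hq => hz q (by simp [hq]))

/-- Vanishing for a tower of blocks; the head of the list is the lowest block. -/
theorem van_list (Ls : List (List (HE A) × Set G)) (hp : Ls.Pairwise fun a b => StabL b.2 a.1)
    (hV : ∀ p ∈ Ls, Van p.1 p.2 M) (h1 : ∀ p ∈ Ls, ∀ T : DG A, TorsL p.1 T → TorsL zs T)
    (h2 : ∀ ws, List.Forall₂ (· ∈ ·) ws (Ls.map Prod.fst) → ∀ T : DG A, TorsL zs T →
      Tors (ws.foldr HE.mul (HE.one A)) T) : Van zs {g | ∀ p ∈ Ls, g ∈ p.2} M := by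
  obtain ⟨Z, j, a1, a2, a3⟩ := exists_list M Ls hp hV
  refine (van_iff (a3 zs h1) (isLocal_of_blocks (Ls.map Prod.fst) (fun J hJ => ?_) h2)).2 a1
  obtain ⟨p, hp, rfl⟩ := List.mem_map.1 hJ
  exact a2 p hp

lemma isLocal_two (hx : IsLocal xs M) (hy : IsLocal ys M)
    (h2 : ∀ x ∈ xs, ∀ y ∈ ys, ∀ T : DG A, TorsL zs T → Tors (x.mul y) T) : IsLocal zs M := by
  refine isLocal_of_blocks [xs, ys] (by simp [hx, hy]) ?_
  rintro _ (_ | ⟨hx, _ | ⟨hy, ⟨⟩⟩⟩) T hT
  refine torsOn_of_pow 1 (m := 1) ?_ (by simp [HE.mul, HE.one]) (h2 _ hx _ hy T hT)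
  simpa [HE.mul, HE.one] using SetLike.one_mem_graded A

/-- Two blocks: `xs` is the lower one. -/
theorem van_two (hU : StabL U xs) (hx : Van xs V M) (hy : Van ys U M)
    (h1 : ∀ T : DG A, TorsL xs T → TorsL zs T) (h1' : ∀ T : DG A, TorsL ys T → TorsL zs T)
    (h2 : ∀ x ∈ xs, ∀ y ∈ ys, ∀ T : DG A, TorsL zs T → Tors (x.mul y) T) :
    Van zs (V ∩ U) M := by
  have hj := (cechEta_isW' (h1 _ (torsL_gam xs ((cechF ys).obj M)))).comp
    (cechEta_isW' (h1' _ (torsL_gam ys M)))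
  refine (van_iff hj (isLocal_two (isLocal_cech _ _) ((isLocal_cech ys M).cech xs) h2)).2 ?_
  exact (hx.mono Set.inter_subset_left |>.right hU hy.eta Set.inter_subset_right).eta.comp
    (hy.eta.mono Set.inter_subset_right)

/-- Products over a finite family of blocks that commute with all regions. -/
theorem van_family {ι : Type} [Fintype ι] (J : ι → List (HE A)) (W : ι → Set G)
    (hs : ∀ i j, i ≠ j → StabL (W i) (J j)) (hV : ∀ i, Van (J i) (W i) M)
    (h1 : ∀ i, ∀ T : DG A, TorsL (J i) T → TorsL zs T)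
    (h2 : ∀ d : ι → HE A, (∀ i, d i ∈ J i) → ∀ w : HE A, w.x = ∏ i, (d i).x →
      w.deg = ∑ i, (d i).deg → ∀ T : DG A, TorsL zs T → Tors w T) :
    Van zs {g | ∀ i, g ∈ W i} M := by
  classical
  have key : ∀ (l : List ι) (ws : List (HE A)), l.Nodup → List.Forall₂ (· ∈ ·) ws (l.map J) →
      ∃ d : ι → HE A, (∀ i ∈ l, d i ∈ J i) ∧
        (ws.foldr HE.mul (HE.one A)).x = (l.map fun i => (d i).x).prod ∧
        (ws.foldr HE.mul (HE.one A)).deg = (l.map fun i => (d i).deg).sum := by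
    intro l
    induction l with
    | nil => rintro _ _ ⟨⟩; exact ⟨fun _ => HE.one A, by simp, rfl, rfl⟩
    | cons i l ih =>
      rintro _ hn (_ | @⟨w, _, ws, _, hw, hws⟩)
      obtain ⟨hi, hn⟩ := List.nodup_cons.1 hn
      obtain ⟨d, a1, a2, a3⟩ := ih ws hn hws
      have e : ∀ j ∈ l, Function.update d i w j = d j := fun j hj =>
        Function.update_of_ne (by rintro rfl; exact hi hj) _ _
      refine ⟨Function.update d i w, fun j hj => ?_, ?_, ?_⟩
      · rcases List.mem_cons.1 hj with rfl | hj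
        · simpa using hw
        · rw [e j hj]; exact a1 j hj
      · rw [List.map_cons, List.prod_cons, Function.update_self,
          List.map_congr_left fun j hj => congrArg HE.x (e j hj), ← a2]; rfl
      · rw [List.map_cons, List.sum_cons, Function.update_self,
          List.map_congr_left fun j hj => congrArg HE.deg (e j hj), ← a3]; rfl
  have hn := Finset.nodup_toList (Finset.univ : Finset ι)
  refine (van_list (lst fun i => (J i, W i)) ?_ ?_ ?_ fun ws hws => ?_).mono ?_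
  · exact List.pairwise_map.2 (hn.imp fun h => hs _ _ h.symm)
  · intro p hp; obtain ⟨i, rfl⟩ := mem_lst.1 hp; exact hV i
  · intro p hp; obtain ⟨i, rfl⟩ := mem_lst.1 hp; exact h1 i
  · obtain ⟨d, a1, a2, a3⟩ := key _ ws hn (by simpa [lst, Function.comp_def] using hws)
    exact h2 d (fun i => a1 i (by simp)) _ (by rw [a2, Finset.prod_map_toList])
      (by rw [a3, Finset.sum_map_toList])
  · intro g hg p hp; obtain ⟨i, rfl⟩ := mem_lst.1 hp; exact hg i

end van

section pieces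
variable {J : Type} [Fintype J] {Q Q' : J → DG A} {ht : J → ℤ}

lemma pieces_qisOn {p : ∀ j, M.M →ₗ[R] (Q j).M} {s : ∀ j, (Q j).M →ₗ[R] M.M}
    {p' : ∀ j, N.M →ₗ[R] (Q' j).M} {s' : ∀ j, (Q' j).M →ₗ[R] N.M} (H : Pieces M Q ht p s)
    (H' : Pieces N Q' ht p' s') {f : M.M →ₗ[R] N.M} (hf : IsHom M N f)
    {g : ∀ j, (Q j).M →ₗ[R] (Q' j).M} (e : ∀ j, p' j ∘ₗ f = g j ∘ₗ p j)
    (e' : ∀ j, f ∘ₗ s j = s' j ∘ₗ g j) (F : DGF A)
    (hg : ∀ j, QisOn U (F.obj (Q j)) (F.obj (Q' j)) (F.map _ _ (g j))) :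
    QisOn U (F.obj M) (F.obj N) (F.map M N f) :=
  ⟨F.isHom hf, fun a ha => ((H.map F).cx a).qis ((H'.map F).cx a) ((F.isHom hf).cx a)
    (fun j => (hg j).qis a ha)
    (fun j v => (F.comp_apply _ _ v).trans ((e j).symm ▸ (F.comp_apply _ _ v).symm))
    fun j v => (F.comp_apply _ _ v).trans ((e' j).symm ▸ (F.comp_apply _ _ v).symm)⟩

variable [DecidableEq J]

lemma pi_proj_isHom (Q : J → DG A) (j : J) : IsHom (pi Q) (Q j) (LinearMap.proj j) :=
  ⟨fun h => h j trivial, fun _ => rfl⟩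

lemma pi_single_isHom (Q : J → DG A) (j : J) :
    IsHom (Q j) (pi Q) (LinearMap.single R (fun j => (Q j).M) j) :=
  ⟨fun {_ _ m} h i _ => by
    change Pi.single (M := fun j => (Q j).M) j m i ∈ (Q i).gr _ _
    by_cases e : i = j
    · subst e; simpa using h
    · rw [Pi.single_eq_of_ne e]; exact zero_mem _,
  fun m => funext fun i => Pi.apply_single (fun j => (Q j).d) (fun j => map_zero _) j m i⟩

lemma pi_pieces (Q : J → DG A) : Pieces (pi Q) Q (fun _ => 0) (fun j => LinearMap.proj j)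
    fun j => LinearMap.single R (fun j => (Q j).M) j where
  hp j := (pi_proj_isHom Q j).deg
  hs j := (pi_single_isHom Q j).deg
  tot := LinearMap.ext fun m => (LinearMap.sum_apply _ _ _).trans (Finset.univ_sum_single m)
  ps j := ((pi_proj_isHom Q j).comp (pi_single_isHom Q j)).homD
  ps' i j h := LinearMap.ext fun m => Pi.single_eq_of_ne (M := fun j => (Q j).M) h m
  tri i j _ := by rw [(pi_single_isHom Q j).homD, LinearMap.comp_zero]

/-- The product of maps. -/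
def piMap (g : ∀ j, (Q j).M →ₗ[R] (Q' j).M) : (pi Q).M →ₗ[R] (pi Q').M :=
  LinearMap.pi fun j => g j ∘ₗ LinearMap.proj j

lemma piMap_apply (g : ∀ j, (Q j).M →ₗ[R] (Q' j).M) (v : (pi Q).M) (j : J) :
    piMap g v j = g j (v j) := rfl

lemma piMap_isHom {g : ∀ j, (Q j).M →ₗ[R] (Q' j).M} (hg : ∀ j, IsHom (Q j) (Q' j) (g j)) :
    IsHom (pi Q) (pi Q') (piMap g) :=
  ⟨fun h j _ => (hg j).mem (h j trivial), fun m => funext fun j => (hg j).comm (m j)⟩

lemma piMap_qisOn {g : ∀ j, (Q j).M →ₗ[R] (Q' j).M} (hg : ∀ j, IsHom (Q j) (Q' j) (g j))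
    (F : DGF A) (h : ∀ j, QisOn U (F.obj (Q j)) (F.obj (Q' j)) (F.map _ _ (g j))) :
    QisOn U (F.obj (pi Q)) (F.obj (pi Q')) (F.map _ _ (piMap g)) :=
  pieces_qisOn (pi_pieces Q) (pi_pieces Q') (piMap_isHom hg) (fun _ => rfl)
    (fun j => LinearMap.ext fun m => funext fun i =>
      Pi.apply_single (fun j => g j) (fun _ => map_zero _) j m i) F h

lemma isW_pi {g : ∀ j, (Q j).M →ₗ[R] (Q' j).M} (h : ∀ j, IsW xs (Q j) (Q' j) (g j)) :
    IsW xs (pi Q) (pi Q') (piMap g) :=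
  ⟨piMap_isHom fun j => (h j).isHom, fun x hx =>
    piMap_qisOn (fun j => (h j).isHom) (locF x) fun j => (h j).qis x hx⟩

lemma isLocal_pi (h : ∀ j, IsLocal xs (Q j)) : IsLocal xs (pi Q) :=
  ((pi_pieces Q).map (gamF xs)).acycOn h

end pieces

lemma isW_tg {f : M.M →ₗ[R] N.M} (hf : IsW xs M N f) (a : G) : IsW xs (M.tg a) (N.tg a) f :=
  hf.map (DGF.pl_tg a) (DGF.good_tg a fun _ _ => Set.mem_univ _)

lemma isW_sh {f : M.M →ₗ[R] N.M} (hf : IsW xs M N f) (k : ℤ) : IsW xs (M.sh k) (N.sh k) f :=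
  hf.map (DGF.pl_sh k) (DGF.good_sh k)

lemma prodMap_isHom {M' N' : DG A} {f : M.M →ₗ[R] M'.M} {g : N.M →ₗ[R] N'.M} (hf : IsHom M M' f)
    (hg : IsHom N N' g) : IsHom (prod M N) (prod M' N') (f.prodMap g) :=
  ⟨fun h => ⟨hf.mem h.1, hg.mem h.2⟩, fun v => Prod.ext (hf.comm v.1) (by
    change 0 + N'.d (g v.2) = g (0 + N.d v.2)
    simp [hg.comm])⟩

lemma prodMap_qisOn {M' N' : DG A} {f : M.M →ₗ[R] M'.M} {g : N.M →ₗ[R] N'.M} (hf : IsHom M M' f)
    (hg : IsHom N N' g) (F : DGF A) (h : QisOn U (F.obj M) (F.obj M') (F.map _ _ f))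
    (h' : QisOn U (F.obj N) (F.obj N') (F.map _ _ g)) :
    QisOn U (F.obj (prod M N)) (F.obj (prod M' N')) (F.map _ _ (f.prodMap g)) := by
  have hh := F.isHom (prodMap_isHom hf hg)
  refine ⟨hh, fun a ha => ((F.ext_ses (U := U) _).ses a ha).qis₂ ((F.ext_ses (U := U) _).ses a ha)
    (h'.qis a ha) (hh.cx a) (h.qis a ha) (fun _ v _ => ?_) fun _ v _ => ?_⟩
  · refine (F.comp_apply _ _ v).trans (Eq.trans ?_ (F.comp_apply _ _ v).symm)
    congr 2
    ext <;> simp
  · refine (F.comp_apply _ _ v).trans (Eq.trans ?_ (F.comp_apply _ _ v).symm)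
    rfl

lemma isW_prod {M' N' : DG A} {f : M.M →ₗ[R] M'.M} {g : N.M →ₗ[R] N'.M} (hf : IsW xs M M' f)
    (hg : IsW xs N N' g) : IsW xs (prod M N) (prod M' N') (f.prodMap g) :=
  ⟨prodMap_isHom hf.isHom hg.isHom, fun x hx =>
    prodMap_qisOn hf.isHom hg.isHom (locF x) (hf.qis x hx) (hg.qis x hx)⟩

lemma isLocal_prod (h : IsLocal xs M) (h' : IsLocal xs N) : IsLocal xs (prod M N) :=
  IsLocal.ext _ h h'

/-- The kernel of a map that is onto on the graded pieces. -/
lemma ker_ses {p : M.M →ₗ[R] N.M} (hp : IsHom M N p)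
    (hs : ∀ g ∈ U, ∀ n, ∀ w ∈ N.gr g n, ∃ v ∈ M.gr g n, p v = w) :
    SESOn U (M.sub (LinearMap.ker p) fun m hm => by
      rw [LinearMap.mem_ker, ← hp.comm, show p m = 0 from hm, map_zero]) M N
      (LinearMap.ker p).subtype p :=
  ⟨⟨fun h => h, fun _ => rfl⟩, hp, fun g hg => ⟨⟨fun h => h, fun _ => rfl⟩, hp.cx g,
    fun _ _ _ h => Subtype.ext h, fun _ v _ => v.2, fun _ v hv h => ⟨⟨v, h⟩, hv, rfl⟩, hs g hg⟩⟩

section free

/-- Free of finite rank on generators whose degrees lie in `D`. -/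
def FreeIn (D : Set G) (T : DG A) : Prop :=
  ∃ (J : Type) (_ : Fintype J) (_ : DecidableEq J) (a : J → G) (n : J → ℤ)
    (p : J → T.M →ₗ[R] R) (s : J → T.M), Free T a n p s ∧ ∀ j, a j ∈ D

variable {D D' : Set G}

lemma FreeIn.isFree (h : FreeIn D T) : IsFree T :=
  let ⟨J, i, i', a, n, p, s, H, _⟩ := h
  ⟨J, i, i', a, n, p, s, H⟩

lemma IsFree.freeIn (h : IsFree T) : FreeIn Set.univ T :=
  let ⟨J, i, i', a, n, p, s, H⟩ := h
  ⟨J, i, i', a, n, p, s, H, fun _ => trivial⟩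

lemma FreeIn.mono (h : FreeIn D T) (h' : D ⊆ D') : FreeIn D' T :=
  let ⟨J, i, i', a, n, p, s, H, e⟩ := h
  ⟨J, i, i', a, n, p, s, H, fun j => h' (e j)⟩

lemma freeIn_ring (h : (0 : G) ∈ D) : FreeIn D (ring A) :=
  ⟨Unit, inferInstance, inferInstance, 0, 0, fun _ => LinearMap.id, fun _ => 1,
    ⟨fun _ _ _ _ h => DG.mem_cast (M := ring A) h (by simp) (by simp), fun _ => one_mem_ring,
      fun m => by simp, fun _ _ => rfl⟩, fun _ => h⟩

lemma FreeIn.tg (h : FreeIn D T) (c : G) (h' : ∀ g ∈ D, g - c ∈ D') : FreeIn D' (T.tg c) :=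
  let ⟨J, i, i', a, n, p, s, H, e⟩ := h
  ⟨J, i, i', fun j => a j - c, n, p, s,
    ⟨fun j _ _ _ h => DG.mem_cast (M := ring A) (H.hp j h) (by abel) rfl,
      fun j => DG.mem_cast (M := T) (H.hs j) (by abel) rfl, H.tot, H.ps⟩, fun j => h' _ (e j)⟩

lemma FreeIn.sh (h : FreeIn D T) (k : ℤ) : FreeIn D (T.sh k) :=
  let ⟨J, i, i', a, n, p, s, H, e⟩ := h
  ⟨J, i, i', a, fun j => n j - k, p, s,
    ⟨fun j _ _ _ h => DG.mem_cast (M := ring A) (H.hp j h) rfl (by ring),
      fun j => DG.mem_cast (M := T) (H.hs j) rfl (by ring), H.tot, H.ps⟩, e⟩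

lemma FreeIn.ext {f : M.M →ₗ[R] N.M} (hf : IsTw M N f) (h : FreeIn D M) (h' : FreeIn D N) :
    FreeIn D (ext hf) := by
  obtain ⟨J, i, i', a, n, p, s, H, e⟩ := h
  obtain ⟨J', _, _, a', n', p', s', H', e'⟩ := h'
  refine ⟨J ⊕ J', inferInstance, inferInstance, Sum.elim a a', Sum.elim n n',
    Sum.elim (fun j => p j ∘ₗ LinearMap.fst R M.M N.M) fun j => p' j ∘ₗ LinearMap.snd R M.M N.M,
    Sum.elim (fun j => (s j, 0)) fun j => (0, s' j), ⟨?_, ?_, fun m => ?_, ?_⟩, ?_⟩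
  · rintro (j | j) g k m h
    exacts [H.hp j h.1, H'.hp j h.2]
  · rintro (j | j)
    exacts [⟨H.hs j, zero_mem _⟩, ⟨zero_mem _, H'.hs j⟩]
  · refine Prod.ext ?_ ?_
    · simpa [Prod.fst_sum] using H.tot m.1
    · simpa [Prod.snd_sum] using H'.tot m.2
  · rintro (j | j) (k | k) <;> simp [H.ps, H'.ps]
  · rintro (j | j)
    exacts [e j, e' j]

lemma FreeIn.pi {O : Type} [Fintype O] [DecidableEq O] {Q : O → DG A} (h : ∀ o, FreeIn D (Q o)) :
    FreeIn D (pi Q) := by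
  choose J i i' a n p s H e using h
  refine ⟨Σ o, J o, inferInstance, inferInstance, fun j => a j.1 j.2, fun j => n j.1 j.2,
    fun j => p j.1 j.2 ∘ₗ LinearMap.proj j.1,
    fun j => Pi.single (M := fun o => (Q o).M) j.1 (s j.1 j.2),
    ⟨fun j _ _ _ h => (H j.1).hp j.2 (h j.1 trivial),
      fun j => (pi_single_isHom Q j.1).mem ((H j.1).hs j.2), fun m => ?_, ?_⟩, fun j => e j.1 j.2⟩
  · rw [Fintype.sum_sigma]
    refine Eq.trans (Finset.sum_congr rfl fun o _ => ?_) (Finset.univ_sum_single m)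
    rw [← (H o).tot (m o)]
    exact ((map_sum (LinearMap.single R (fun o => (Q o).M) o) _ _).trans
      (Finset.sum_congr rfl fun j _ => map_smul _ _ _)).symm
  · rintro ⟨o, j⟩ ⟨o', k⟩
    by_cases ho : o = o'
    · subst ho; simp [(H o).ps]
    · simp [ho]

lemma IsFree.tg (h : IsFree T) (c : G) : IsFree (T.tg c) :=
  (h.freeIn.tg (D' := Set.univ) c fun _ _ => trivial).isFree

lemma IsFree.sh (h : IsFree T) (k : ℤ) : IsFree (T.sh k) := (h.freeIn.sh k).isFree

lemma IsFree.ext {f : M.M →ₗ[R] N.M} (hf : IsTw M N f) (h : IsFree M) (h' : IsFree N) :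
    IsFree (ext hf) := (h.freeIn.ext hf h'.freeIn).isFree

lemma IsFree.pi {O : Type} [Fintype O] [DecidableEq O] {Q : O → DG A} (h : ∀ o, IsFree (Q o)) :
    IsFree (pi Q) := (FreeIn.pi fun o => (h o).freeIn).isFree

lemma isFree_ring : IsFree (ring A) := (freeIn_ring (D := Set.univ) trivial).isFree

lemma FreeIn.acyc (h : FreeIn D T) (F : DGF A) {g : G}
    (hY : ∀ a ∈ D, ((F.obj (ring A)).cx (g - a)).Acyc) : ((F.obj T).cx g).Acyc := by
  obtain ⟨J, i, i', a, n, p, s, H, e⟩ := h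
  refine fun k => (H.pieces.map F).acycAt fun j => (F.acycOn_sh (U := {g}) _).2 ?_ g rfl k
  rintro g rfl
  exact (F.acyc_tg _ _).2 (sub_eq_add_neg g (a j) ▸ hY _ (e j))

lemma FreeIn.homO_acyc (h : FreeIn D T) {F : DGF A} (hF : F.Good Set.univ) {g : G}
    (hY : ∀ a ∈ D, ((F.obj Y).cx (g + a)).Acyc) : ((F.obj (homO T Y)).cx g).Acyc := by
  obtain ⟨J, i, i', a, n, p, s, H, e⟩ := h
  refine fun k => ((H.pieces.pre Y).map F).acycAt fun j => ?_
  have q := hF.qis (((ev_ring_qis Y).tg_sh _ _).comp (homO_tg_sh_qis (ring A) Y (-a j) (-n j)))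
  refine (q.qis g trivial).acyc_left ((F.acycOn_sh (U := {g}) _).2 ?_ g rfl k)
  rintro _ rfl
  exact (F.acyc_tg _ _).2 ((neg_neg (a j)).symm ▸ hY _ (e j))

lemma FreeIn.post_qisOn (h : FreeIn D T) {f : M.M →ₗ[R] N.M} (hf : QisOn V M N f)
    (hU : ∀ g ∈ U, ∀ a ∈ D, g + a ∈ V) : QisOn U (homO T M) (homO T N) (post T f) :=
  ((homF T).qisOn_iff hf.isHom).2 fun g hg => h.homO_acyc DGF.good_id fun a ha =>
    (qisOn_iff_cone hf.isHom).1 hf _ (hU g hg a ha)

lemma IsFree.isLocal_homO (h : IsFree T) (hY : IsLocal xs Y) : IsLocal xs (homO T Y) :=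
  fun _ _ => h.freeIn.homO_acyc (good_gam (stabL_univ xs)) fun _ _ => hY _ trivial

lemma IsFree.tors_homO (h : IsFree T) (hY : Tors x Y) : Tors x (homO T Y) :=
  tors_iff.2 fun _ _ => h.freeIn.homO_acyc (good_loc x (stab_univ _)) fun _ _ =>
    tors_iff.1 hY _ trivial

lemma IsFree.post_isW (h : IsFree T) {f : M.M →ₗ[R] N.M} (hf : IsW xs M N f) :
    IsW xs (homO T M) (homO T N) (post T f) :=
  (isW_iff ((homF T).isHom hf.isHom)).2 ((IsW.of_qis ((homF T).cone_qis hf.isHom)).torsL_right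
    fun x hx => h.tors_homO ((isW_iff hf.isHom).1 hf x hx))

lemma freeIn_Wc {I : Type} [Fintype I] {b : I → G} {lev : I → ℕ} {δ : Matrix I I R} (h1 h2 h3)
    (h : ∀ g, b g ∈ D) : FreeIn D (Wc A b lev δ h1 h2 h3) := by
  classical
  refine ⟨I, inferInstance, inferInstance, b, fun g => lev g, fun g => LinearMap.proj g,
    fun g => Pi.single g 1, ⟨fun j _ _ _ h => h j, fun j i => ?_, fun m => ?_, fun i j => ?_⟩, h⟩
  · by_cases e : i = j
    · subst e; simpa using one_mem_ring (A := A)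
    · rw [Pi.single_eq_of_ne e]; exact zero_mem _
  · ext i; simp [Pi.single_apply]
  · simp [Pi.single_apply]

end free

section pull
variable {G' R' : Type} [AddCommGroup G'] [CommRing R'] [Algebra K R']

/-- A grading pulled back along a map of grading groups. -/
def pullA (i : G →+ G') (A' : G' → Submodule K R') : G → Submodule K R' := fun g => A' (i g)

instance (i : G →+ G') (A' : G' → Submodule K R') [SetLike.GradedMonoid A'] :
    SetLike.GradedMonoid (pullA i A') where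
  one_mem := by rw [pullA, map_zero]; exact SetLike.one_mem_graded A'
  mul_mem _ _ _ _ h h' := by rw [pullA, map_add]; exact SetLike.mul_mem_graded h h'

variable (i : G →+ G') {A' : G' → Submodule K R'} [SetLike.GradedMonoid A']

/-- A module with the grading pulled back. -/
@[reducible] def pull (M : DG A') : DG (pullA i A') where
  M := M.M
  gr g := M.gr (i g)
  smul_mem hr hm := DG.mem_cast (M.smul_mem hr hm) (map_add _ _ _).symm rfl
  d := M.d
  d_mem := M.d_mem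
  d_d := M.d_d

/-- The same element with the image degree. -/
def up (x : HE (pullA i A')) : HE A' := ⟨x.x, i x.deg, x.mem⟩

lemma pull_loc (x : HE (pullA i A')) (N : DG A') :
    Qis (loc x (pull i N)) (pull i (loc (up i x) N)) LinearMap.id := by
  have e : ∀ (k : ℕ) g, i (k • x.deg + g) = k • (up i x).deg + i g := fun k g => by
    rw [map_add, map_nsmul]; rfl
  have hh : IsHom (loc x (pull i N)) (pull i (loc (up i x) N)) LinearMap.id :=
    ⟨fun ⟨k, m, hm, h⟩ => ⟨k, m, DG.mem_cast (M := N) hm (e _ _) rfl, h⟩, fun _ => rfl⟩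
  exact ⟨hh, fun g _ => Cx.Qis.of_bij (hh.cx g) (fun _ _ _ h => h)
    fun _ w ⟨k, m, hm, h⟩ => ⟨w, ⟨k, m, DG.mem_cast (M := N) hm (e _ _).symm rfl, h⟩, rfl⟩⟩

lemma pull_gam : ∀ (xs : List (HE (pullA i A'))) (M : DG A'),
    ∃ c, Qis ((gamF xs).obj (pull i M)) (pull i ((gamF (xs.map (up i))).obj M)) c
  | [], _ => ⟨_, QisOn.id _⟩
  | x :: xs, M => by
    obtain ⟨c, hc⟩ := pull_gam xs M
    have hl := pull_loc i x ((gamF (xs.map (up i))).obj M)
    have S := ext_ses (U := Set.univ) (toLoc_isHom x (pull i ((gamF (xs.map (up i))).obj M))).fibTw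
    have S' := ext_ses (U := Set.univ) (toLoc_isHom (up i x) ((gamF (xs.map (up i))).obj M)).fibTw
    have hh : IsHom ((gam1 x).obj (pull i ((gamF (xs.map (up i))).obj M)))
        (pull i ((gamF ((x :: xs).map (up i))).obj M)) LinearMap.id :=
      ⟨fun h => ⟨h.1, hl.isHom.mem h.2⟩, fun _ => rfl⟩
    exact ⟨_, QisOn.comp ⟨hh, fun g _ => (S.ses g trivial).qis₂ (S'.ses (i g) trivial)
      (((DGF.good_sh (-1)).qis hl).qis g trivial) (hh.cx g) (Cx.Qis.id _)
      (fun _ _ _ => rfl) fun _ _ _ => rfl⟩ ((good_gam1 x (stab_univ _)).qis hc)⟩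

/-- Vanishing along a graded map that changes the grading group. -/
theorem van_pull (φ : GH A (pullA i A')) (xs : List (HE A)) (M : DG A') (g : G) :
    Van xs {g} (φ.res (pull i M)) ↔ Van ((xs.map φ.he).map (up i)) {i g} M := by
  obtain ⟨c, hc⟩ := pull_gam i (xs.map φ.he) M
  refine φ.acycOn_gam.trans ⟨fun h => ?_, fun h => ?_⟩
  · rintro _ rfl n; exact (hc.qis g trivial).acyc_right (h g rfl n)
  · rintro _ rfl n; exact (hc.qis _ trivial).acyc_left (h _ rfl n)

end pull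

end FMX
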